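import Pool.Agent.R993.EC.Ent

set_option autoImplicit false

namespace Pool.Agent.R993.EC

open scoped Classical in
/-- What is used about the classical models of the GHZ structure. -/
structure LHV {k : Fin 6 → ℕ} (P : (∀ a, Fin (k a)) → ℝ) : Prop where
  nonneg : ∀ x, 0 ≤ P x
  sum_one : ∑ x, P x = 1
  indep : ∀ a b, pr P (fun x => (x 0, x 1)) (a, b) =
    pr P (fun x => x 0) a * pr P (fun x => x 1) b
  local_bound : ∀ (sA : Fin (k 3) → ℝ) (sB : Fin (k 4) → ℝ) (sC : Fin (k 5) → ℝ),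
    (∀ a, |sA a| ≤ 1) → (∀ a, |sB a| ≤ 1) → (∀ a, |sC a| ≤ 1) →
    ∃ E : Fin (k 0) → Fin (k 1) → Fin (k 2) → ℝ,
      (∀ x y z, ∑ ω : (∀ a, Fin (k a)),
        (if ω 0 = x ∧ ω 1 = y ∧ ω 2 = z then sA (ω 3) * sB (ω 4) * sC (ω 5) * P ω else 0) =
          E x y z * pr P (fun ω => (ω 0, ω 1, ω 2)) (x, y, z)) ∧
      ∀ (x : Fin 2 → Fin (k 0)) (y : Fin 2 → Fin (k 1)) (z : Fin 2 → Fin (k 2))
        (σ : Fin 2 → Fin 2 → ℝ), (∀ i j, σ i j = 1 ∨ σ i j = -1) →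
        σ 0 0 * σ 0 1 * σ 1 0 * σ 1 1 = -1 →
        ∑ i, ∑ j, σ i j * E (x i) (y j) (z (i + j)) ≤ 2

end Pool.Agent.R993.EC
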