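import Pool.Agent.R993.EC.Ghz
import Pool.Agent.R993.EC.Pr

set_option autoImplicit false

namespace Pool.Agent.R993.EC

/-- six coordinates as one point -/
def mk6 {k : Fin 6 → ℕ} (a0 : Fin (k 0)) (a1 : Fin (k 1)) (a2 : Fin (k 2)) (a3 : Fin (k 3))
    (a4 : Fin (k 4)) (a5 : Fin (k 5)) : ∀ a, Fin (k a)
  | 0 => a0
  | 1 => a1
  | 2 => a2
  | 3 => a3
  | 4 => a4
  | 5 => a5

/-- the points as 6-tuples -/
def equiv6 (k : Fin 6 → ℕ) : (∀ a, Fin (k a)) ≃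
    Fin (k 0) × Fin (k 1) × Fin (k 2) × Fin (k 3) × Fin (k 4) × Fin (k 5) where
  toFun x := (x 0, x 1, x 2, x 3, x 4, x 5)
  invFun t := mk6 t.1 t.2.1 t.2.2.1 t.2.2.2.1 t.2.2.2.2.1 t.2.2.2.2.2
  left_inv x := by
    funext a
    fin_cases a <;> rfl
  right_inv t := rfl

theorem sum6 {k : Fin 6 → ℕ} (f : (∀ a, Fin (k a)) → ℝ) :
    ∑ x, f x = ∑ a0, ∑ a1, ∑ a2, ∑ a3, ∑ a4, ∑ a5, f (mk6 a0 a1 a2 a3 a4 a5) := by
  rw [Fintype.sum_equiv (equiv6 k) f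
    (fun t => f (mk6 t.1 t.2.1 t.2.2.1 t.2.2.2.1 t.2.2.2.2.1 t.2.2.2.2.2))
    (fun x => by
      congr 1
      exact ((equiv6 k).left_inv x).symm)]
  simp only [Fintype.sum_prod_type]

section
variable {k : Fin 6 ⊕ Unit → ℕ} (s0 : ∀ w, Fin (k w))
  (p : ∀ v, (∀ w, Fin (k w)) → Fin (k v) → ℝ)

/-- the distribution of the unobserved node -/
def mu (l : Fin (k (Sum.inr ()))) : ℝ := p (Sum.inr ()) s0 l
/-- the distribution of `X` -/
def pX (b : Fin (k (Sum.inl 0))) : ℝ := p (Sum.inl 0) s0 b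
/-- the distribution of `Y` -/
def pY (b : Fin (k (Sum.inl 1))) : ℝ := p (Sum.inl 1) s0 b
/-- the conditional distribution of `Z` -/
def pZ (a : Fin (k (Sum.inl 0))) (b : Fin (k (Sum.inl 1))) (c : Fin (k (Sum.inl 2))) : ℝ :=
  p (Sum.inl 2) (Function.update (Function.update s0 (Sum.inl 0) a) (Sum.inl 1) b) c
/-- the conditional distribution of `A` -/
def pA (a : Fin (k (Sum.inl 0))) (l : Fin (k (Sum.inr ()))) (c : Fin (k (Sum.inl 3))) : ℝ :=
  p (Sum.inl 3) (Function.update (Function.update s0 (Sum.inl 0) a) (Sum.inr ()) l) c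
/-- the conditional distribution of `B` -/
def pB (a : Fin (k (Sum.inl 1))) (l : Fin (k (Sum.inr ()))) (c : Fin (k (Sum.inl 4))) : ℝ :=
  p (Sum.inl 4) (Function.update (Function.update s0 (Sum.inl 1) a) (Sum.inr ()) l) c
/-- the conditional distribution of `C` -/
def pC (a : Fin (k (Sum.inl 2))) (l : Fin (k (Sum.inr ()))) (c : Fin (k (Sum.inl 5))) : ℝ :=
  p (Sum.inl 5) (Function.update (Function.update s0 (Sum.inl 2) a) (Sum.inr ()) l) c

/-- the observed distribution -/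
noncomputable def obs' (x : ∀ a : Fin 6, Fin (k (Sum.inl a))) : ℝ :=
  ∑ l : (∀ u : Unit, Fin (k (Sum.inr u))), ∏ v, p v (glue x l) (glue x l v)

variable (hdep : ∀ v, ∀ s t : (∀ w, Fin (k w)), (∀ w, ghzEdge w v = true → s w = t w) →
  p v s = p v t)
include hdep

theorem cobs_eq (x : ∀ a : Fin 6, Fin (k (Sum.inl a))) :
    obs' p x = ∑ l : Fin (k (Sum.inr ())), mu s0 p l * (pX s0 p (x 0) * pY s0 p (x 1) *
      pZ s0 p (x 0) (x 1) (x 2) * pA s0 p (x 0) l (x 3) * pB s0 p (x 1) l (x 4) *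
      pC s0 p (x 2) l (x 5)) := by
  unfold obs'
  refine Fintype.sum_equiv (Equiv.piUnique (fun u : Unit => Fin (k (Sum.inr u)))) _ _ ?_
  intro l
  rw [Fintype.prod_sum_type, Fin.prod_univ_six, Fintype.prod_unique]
  have e0 : p (Sum.inl 0) (glue x l) = p (Sum.inl 0) s0 := hdep _ _ _ (by
    intro w hw; rcases w with a | u
    · fin_cases a <;> simp [ghzEdge] at hw
    · simp [ghzEdge] at hw)
  have e1 : p (Sum.inl 1) (glue x l) = p (Sum.inl 1) s0 := hdep _ _ _ (by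
    intro w hw; rcases w with a | u
    · fin_cases a <;> simp [ghzEdge] at hw
    · simp [ghzEdge] at hw)
  have e2 : p (Sum.inl 2) (glue x l) = p (Sum.inl 2)
      (Function.update (Function.update s0 (Sum.inl 0) (x 0)) (Sum.inl 1) (x 1)) := hdep _ _ _ (by
    intro w hw; rcases w with a | u
    · fin_cases a <;> simp [ghzEdge] at hw <;> simp [glue]
    · simp [ghzEdge] at hw)
  have e3 : p (Sum.inl 3) (glue x l) = p (Sum.inl 3)
      (Function.update (Function.update s0 (Sum.inl 0) (x 0)) (Sum.inr ()) (l ())) :=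
    hdep _ _ _ (by
    intro w hw; rcases w with a | u
    · fin_cases a <;> simp [ghzEdge] at hw <;> simp [glue]
    · simp [glue])
  have e4 : p (Sum.inl 4) (glue x l) = p (Sum.inl 4)
      (Function.update (Function.update s0 (Sum.inl 1) (x 1)) (Sum.inr ()) (l ())) :=
    hdep _ _ _ (by
    intro w hw; rcases w with a | u
    · fin_cases a <;> simp [ghzEdge] at hw <;> simp [glue]
    · simp [glue])
  have e5 : p (Sum.inl 5) (glue x l) = p (Sum.inl 5)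
      (Function.update (Function.update s0 (Sum.inl 2) (x 2)) (Sum.inr ()) (l ())) :=
    hdep _ _ _ (by
    intro w hw; rcases w with a | u
    · fin_cases a <;> simp [ghzEdge] at hw <;> simp [glue]
    · simp [glue])
  have e6 : p (Sum.inr ()) (glue x l) = p (Sum.inr ()) s0 := hdep _ _ _ (by
    intro w hw; rcases w with a | u
    · fin_cases a <;> simp [ghzEdge] at hw
    · simp [ghzEdge] at hw)
  change _ * p (Sum.inr ()) (glue x l) _ = _
  rw [e0, e1, e2, e3, e4, e5, e6]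
  simp only [mu, pX, pY, pZ, pA, pB, pC, glue, Equiv.piUnique_apply]
  ring_nf

theorem wsum (sA : Fin (k (Sum.inl 3)) → ℝ) (sB : Fin (k (Sum.inl 4)) → ℝ)
    (sC : Fin (k (Sum.inl 5)) → ℝ) (a0 : Fin (k (Sum.inl 0))) (a1 : Fin (k (Sum.inl 1)))
    (a2 : Fin (k (Sum.inl 2))) :
    ∑ a3, ∑ a4, ∑ a5, sA a3 * sB a4 * sC a5 *
      obs' p (mk6 (k := fun a => k (Sum.inl a)) a0 a1 a2 a3 a4 a5) =
      pX s0 p a0 * pY s0 p a1 * pZ s0 p a0 a1 a2 * ∑ l, mu s0 p l *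
        ((∑ a, pA s0 p a0 l a * sA a) * (∑ b, pB s0 p a1 l b * sB b) *
          (∑ c, pC s0 p a2 l c * sC c)) := by
  have h0 : ∀ a3 a4 a5, obs' p (mk6 (k := fun a => k (Sum.inl a)) a0 a1 a2 a3 a4 a5) =
      ∑ l : Fin (k (Sum.inr ())), mu s0 p l * (pX s0 p a0 * pY s0 p a1 *
      pZ s0 p a0 a1 a2 * pA s0 p a0 l a3 * pB s0 p a1 l a4 * pC s0 p a2 l a5) := fun a3 a4 a5 =>
    cobs_eq s0 p hdep _
  simp only [h0]
  have h1 : ∑ a3, ∑ a4, ∑ a5, sA a3 * sB a4 * sC a5 *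
      ∑ l : Fin (k (Sum.inr ())), mu s0 p l * (pX s0 p a0 * pY s0 p a1 *
      pZ s0 p a0 a1 a2 * pA s0 p a0 l a3 * pB s0 p a1 l a4 * pC s0 p a2 l a5) =
      ∑ l : Fin (k (Sum.inr ())), ∑ a3, ∑ a4, ∑ a5, sA a3 * sB a4 * sC a5 *
        (mu s0 p l * (pX s0 p a0 * pY s0 p a1 *
      pZ s0 p a0 a1 a2 * pA s0 p a0 l a3 * pB s0 p a1 l a4 * pC s0 p a2 l a5)) := by
    simp only [Finset.mul_sum]
    calc _ = ∑ a3, ∑ a4, ∑ l : Fin (k (Sum.inr ())), ∑ a5, sA a3 * sB a4 * sC a5 *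
        (mu s0 p l * (pX s0 p a0 * pY s0 p a1 *
      pZ s0 p a0 a1 a2 * pA s0 p a0 l a3 * pB s0 p a1 l a4 * pC s0 p a2 l a5)) :=
          Finset.sum_congr rfl fun _ _ => Finset.sum_congr rfl fun _ _ => Finset.sum_comm
      _ = ∑ a3, ∑ l : Fin (k (Sum.inr ())), ∑ a4, ∑ a5, sA a3 * sB a4 * sC a5 *
        (mu s0 p l * (pX s0 p a0 * pY s0 p a1 *
      pZ s0 p a0 a1 a2 * pA s0 p a0 l a3 * pB s0 p a1 l a4 * pC s0 p a2 l a5)) :=
          Finset.sum_congr rfl fun _ _ => Finset.sum_comm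
      _ = _ := Finset.sum_comm
  rw [h1, Finset.mul_sum]
  refine Finset.sum_congr rfl fun l _ => ?_
  have h2 : ∀ a3 a4, ∑ a5, sA a3 * sB a4 * sC a5 *
        (mu s0 p l * (pX s0 p a0 * pY s0 p a1 *
      pZ s0 p a0 a1 a2 * pA s0 p a0 l a3 * pB s0 p a1 l a4 * pC s0 p a2 l a5)) =
      (sA a3 * sB a4 * mu s0 p l * pX s0 p a0 * pY s0 p a1 *
      pZ s0 p a0 a1 a2 * pA s0 p a0 l a3 * pB s0 p a1 l a4) * ∑ c, pC s0 p a2 l c * sC c := by
    intro a3 a4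
    rw [Finset.mul_sum]
    exact Finset.sum_congr rfl fun _ _ => by ring
  simp only [h2]
  have h3 : ∀ a3, ∑ a4, (sA a3 * sB a4 * mu s0 p l * pX s0 p a0 * pY s0 p a1 *
      pZ s0 p a0 a1 a2 * pA s0 p a0 l a3 * pB s0 p a1 l a4) * (∑ c, pC s0 p a2 l c * sC c) =
      (sA a3 * mu s0 p l * pX s0 p a0 * pY s0 p a1 *
      pZ s0 p a0 a1 a2 * pA s0 p a0 l a3 * (∑ c, pC s0 p a2 l c * sC c)) *
        ∑ b, pB s0 p a1 l b * sB b := by
    intro a3
    rw [Finset.mul_sum]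
    exact Finset.sum_congr rfl fun _ _ => by ring
  simp only [h3]
  have h4 : ∑ a3, (sA a3 * mu s0 p l * pX s0 p a0 * pY s0 p a1 *
      pZ s0 p a0 a1 a2 * pA s0 p a0 l a3 * (∑ c, pC s0 p a2 l c * sC c)) *
        (∑ b, pB s0 p a1 l b * sB b) =
      (mu s0 p l * pX s0 p a0 * pY s0 p a1 *
      pZ s0 p a0 a1 a2 * (∑ c, pC s0 p a2 l c * sC c) *
        (∑ b, pB s0 p a1 l b * sB b)) * ∑ a, pA s0 p a0 l a * sA a := by
    rw [Finset.mul_sum]
    exact Finset.sum_congr rfl fun _ _ => by ring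
  rw [h4]
  ring

omit hdep in
theorem collapse3 {k : Fin 6 → ℕ} (f : (∀ a, Fin (k a)) → ℝ) (x : Fin (k 0)) (y : Fin (k 1))
    (z : Fin (k 2)) [∀ ω : (∀ a, Fin (k a)), Decidable (ω 0 = x ∧ ω 1 = y ∧ ω 2 = z)] :
    ∑ ω : (∀ a, Fin (k a)), (if ω 0 = x ∧ ω 1 = y ∧ ω 2 = z then f ω else 0) =
      ∑ a3, ∑ a4, ∑ a5, f (mk6 x y z a3 a4 a5) := by
  rw [sum6, Finset.sum_eq_single x, Finset.sum_eq_single y, Finset.sum_eq_single z]
  · refine Finset.sum_congr rfl fun a3 _ => Finset.sum_congr rfl fun a4 _ =>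
      Finset.sum_congr rfl fun a5 _ => ?_
    rw [if_pos ⟨rfl, rfl, rfl⟩]
  · intro z' _ hz
    refine Finset.sum_eq_zero fun a3 _ => Finset.sum_eq_zero fun a4 _ =>
      Finset.sum_eq_zero fun a5 _ => ?_
    rw [if_neg]
    exact fun h => hz h.2.2
  · exact fun h => absurd (Finset.mem_univ _) h
  · intro y' _ hy
    refine Finset.sum_eq_zero fun a2 _ => Finset.sum_eq_zero fun a3 _ =>
      Finset.sum_eq_zero fun a4 _ => Finset.sum_eq_zero fun a5 _ => ?_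
    rw [if_neg]
    exact fun h => hy h.2.1
  · exact fun h => absurd (Finset.mem_univ _) h
  · intro x' _ hx
    refine Finset.sum_eq_zero fun a1 _ => Finset.sum_eq_zero fun a2 _ =>
      Finset.sum_eq_zero fun a3 _ => Finset.sum_eq_zero fun a4 _ =>
      Finset.sum_eq_zero fun a5 _ => ?_
    rw [if_neg]
    exact fun h => hx h.1
  · exact fun h => absurd (Finset.mem_univ _) h

variable (hnn : ∀ v s b, 0 ≤ p v s b) (hsum : ∀ v s, ∑ b, p v s b = 1)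
include hnn hsum

theorem obs_nonneg (x : ∀ a : Fin 6, Fin (k (Sum.inl a))) : 0 ≤ obs' p x :=
  Finset.sum_nonneg fun _ _ => Finset.prod_nonneg fun _ _ => hnn _ _ _

theorem wsum_one (a0 : Fin (k (Sum.inl 0))) (a1 : Fin (k (Sum.inl 1)))
    (a2 : Fin (k (Sum.inl 2))) :
    ∑ a3, ∑ a4, ∑ a5, obs' p (mk6 (k := fun a => k (Sum.inl a)) a0 a1 a2 a3 a4 a5) =
      pX s0 p a0 * pY s0 p a1 * pZ s0 p a0 a1 a2 := by
  have h := wsum s0 p hdep (fun _ => 1) (fun _ => 1) (fun _ => 1) a0 a1 a2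
  simp only [one_mul, mul_one] at h
  rw [h]
  have hA : ∀ l, ∑ a, pA s0 p a0 l a = 1 := fun l => hsum _ _
  have hB : ∀ l, ∑ a, pB s0 p a1 l a = 1 := fun l => hsum _ _
  have hC : ∀ l, ∑ a, pC s0 p a2 l a = 1 := fun l => hsum _ _
  have hmu : ∑ l, mu s0 p l = 1 := hsum _ _
  simp only [hA, hB, hC, mul_one]
  rw [hmu, mul_one]

theorem pr_XYZ (a0 : Fin (k (Sum.inl 0))) (a1 : Fin (k (Sum.inl 1)))
    (a2 : Fin (k (Sum.inl 2))) :
    pr (obs' p) (fun ω : (∀ a : Fin 6, Fin (k (Sum.inl a))) => (ω 0, ω 1, ω 2)) (a0, a1, a2) =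
      pX s0 p a0 * pY s0 p a1 * pZ s0 p a0 a1 a2 := by
  classical
  unfold pr
  rw [← wsum_one s0 p hdep hnn hsum, ← collapse3 (obs' p) a0 a1 a2]
  refine Finset.sum_congr rfl fun ω _ => ?_
  simp only [Prod.mk.injEq]

omit hdep hnn hsum in
theorem pr_sum_snd {Ω α β : Type*} [Fintype Ω] [Fintype β] (P : Ω → ℝ) (f : Ω → α) (g : Ω → β)
    (a : α) : ∑ b, pr P (fun x => (f x, g x)) (a, b) = pr P f a := by
  classical
  unfold pr
  rw [Finset.sum_comm]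
  refine Finset.sum_congr rfl fun x _ => ?_
  by_cases h : f x = a
  · simp [h]
  · simp [h]

omit hdep hnn hsum in
theorem pr_sum_fst {Ω α β : Type*} [Fintype Ω] [Fintype α] (P : Ω → ℝ) (f : Ω → α) (g : Ω → β)
    (b : β) : ∑ a, pr P (fun x => (f x, g x)) (a, b) = pr P g b := by
  classical
  unfold pr
  rw [Finset.sum_comm]
  refine Finset.sum_congr rfl fun x _ => ?_
  by_cases h : g x = b
  · simp [h]
  · simp [h]

theorem pr_XY (a0 : Fin (k (Sum.inl 0))) (a1 : Fin (k (Sum.inl 1))) :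
    pr (obs' p) (fun ω : (∀ a : Fin 6, Fin (k (Sum.inl a))) => (ω 0, ω 1)) (a0, a1) =
      pX s0 p a0 * pY s0 p a1 := by
  rw [← pr_sum_snd (obs' p) (fun ω => (ω 0, ω 1)) (fun ω => ω 2)]
  have h : ∀ b, pr (obs' p) (fun ω : (∀ a : Fin 6, Fin (k (Sum.inl a))) => ((ω 0, ω 1), ω 2))
      ((a0, a1), b) = pX s0 p a0 * pY s0 p a1 * pZ s0 p a0 a1 b := by
    intro b
    rw [← pr_XYZ s0 p hdep hnn hsum]
    unfold pr
    refine Finset.sum_congr rfl fun ω _ => ?_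
    simp only [Prod.mk.injEq, and_assoc]
  simp only [h]
  rw [← Finset.mul_sum]
  have hZ : ∑ a, pZ s0 p a0 a1 a = 1 := hsum _ _
  rw [hZ, mul_one]

theorem pr_X (a0 : Fin (k (Sum.inl 0))) :
    pr (obs' p) (fun ω : (∀ a : Fin 6, Fin (k (Sum.inl a))) => ω 0) a0 = pX s0 p a0 := by
  rw [← pr_sum_snd (obs' p) (fun ω => ω 0) (fun ω => ω 1)]
  simp only [pr_XY s0 p hdep hnn hsum]
  rw [← Finset.mul_sum]
  have hY : ∑ a, pY s0 p a = 1 := hsum _ _
  rw [hY, mul_one]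

theorem pr_Y (a1 : Fin (k (Sum.inl 1))) :
    pr (obs' p) (fun ω : (∀ a : Fin 6, Fin (k (Sum.inl a))) => ω 1) a1 = pY s0 p a1 := by
  rw [← pr_sum_fst (obs' p) (fun ω => ω 0) (fun ω => ω 1)]
  simp only [pr_XY s0 p hdep hnn hsum]
  rw [← Finset.sum_mul]
  have hY : ∑ a, pX s0 p a = 1 := hsum _ _
  rw [hY, one_mul]

omit hdep hnn hsum in
theorem pr_sum_one {Ω α : Type*} [Fintype Ω] [Fintype α] (P : Ω → ℝ) (f : Ω → α) :
    ∑ a, pr P f a = ∑ x, P x := by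
  classical
  unfold pr
  rw [Finset.sum_comm]
  refine Finset.sum_congr rfl fun x _ => ?_
  simp

omit hdep hnn hsum in
theorem avg_le {n : ℕ} (q s : Fin n → ℝ) (hq : ∀ a, 0 ≤ q a) (hq1 : ∑ a, q a = 1)
    (hs : ∀ a, |s a| ≤ 1) : |∑ a, q a * s a| ≤ 1 := by
  refine (Finset.abs_sum_le_sum_abs _ _).trans ?_
  rw [← hq1]
  refine Finset.sum_le_sum fun a _ => ?_
  rw [abs_mul, abs_of_nonneg (hq a)]
  exact mul_le_of_le_one_right (hq a) (hs a)

end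

theorem T (a0 a1 b0 b1 c0 c1 : ℝ) (h1 : |a0| ≤ 1) (h2 : |a1| ≤ 1) (h3 : |b0| ≤ 1)
    (h4 : |b1| ≤ 1) (h5 : |c0| ≤ 1) (h6 : |c1| ≤ 1) :
    a0 * (b0 * c0 + b1 * c1) + a1 * (b0 * c1 - b1 * c0) ≤ 2 := by
  have hm : ∀ a x : ℝ, |a| ≤ 1 → a * x ≤ |x| := fun a x ha =>
    (le_abs_self _).trans (by rw [abs_mul]; exact mul_le_of_le_one_left (abs_nonneg _) ha)
  have hm' : ∀ a x : ℝ, |a| ≤ 1 → -(a * x) ≤ |x| := fun a x ha =>
    (neg_le_abs _).trans (by rw [abs_mul]; exact mul_le_of_le_one_left (abs_nonneg _) ha)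
  have hc : |c0 + c1| + |c1 - c0| ≤ 2 := by
    rw [abs_le] at h5 h6
    rcases abs_cases (c0 + c1) with h | h <;> rcases abs_cases (c1 - c0) with h' | h' <;> linarith
  have k1 := hm a0 (b0 * c0 + b1 * c1) h1
  have k2 := hm a1 (b0 * c1 - b1 * c0) h2
  have k3 : |b0 * c0 + b1 * c1| + |b0 * c1 - b1 * c0| ≤ 2 := by
    have p1 := hm b0 (c0 + c1) h3
    have p2 := hm b1 (c1 - c0) h4
    have p3 := hm' b0 (c0 + c1) h3
    have p4 := hm' b1 (c1 - c0) h4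
    have q1 := hm b1 (c0 + c1) h4
    have q2 := hm b0 (c1 - c0) h3
    have q3 := hm' b1 (c0 + c1) h4
    have q4 := hm' b0 (c1 - c0) h3
    rcases abs_cases (b0 * c0 + b1 * c1) with h | h <;>
      rcases abs_cases (b0 * c1 - b1 * c0) with h' | h' <;> nlinarith
  linarith

/-- Mermin's inequality for numbers. -/
theorem mermin (α β γ : Fin 2 → ℝ) (hα : ∀ i, |α i| ≤ 1) (hβ : ∀ i, |β i| ≤ 1)
    (hγ : ∀ i, |γ i| ≤ 1) (σ : Fin 2 → Fin 2 → ℝ) (hσ : ∀ i j, σ i j = 1 ∨ σ i j = -1)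
    (hp : σ 0 0 * σ 0 1 * σ 1 0 * σ 1 1 = -1) :
    ∑ i, ∑ j, σ i j * (α i * β j * γ (i + j)) ≤ 2 := by
  have key : ∀ a0 a1 b0 b1 c0 c1 : ℝ, |a0| ≤ 1 → |a1| ≤ 1 → |b0| ≤ 1 → |b1| ≤ 1 → |c0| ≤ 1 →
      |c1| ≤ 1 → ∀ s00 s01 s10 s11 : ℝ, (s00 = 1 ∨ s00 = -1) → (s01 = 1 ∨ s01 = -1) →
      (s10 = 1 ∨ s10 = -1) → (s11 = 1 ∨ s11 = -1) → s00 * s01 * s10 * s11 = -1 →
      s00 * (a0 * b0 * c0) + s01 * (a0 * b1 * c1) + (s10 * (a1 * b0 * c1) +
        s11 * (a1 * b1 * c0)) ≤ 2 := by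
    intro a0 a1 b0 b1 c0 c1 h1 h2 h3 h4 h5 h6 s00 s01 s10 s11 t00 t01 t10 t11 hp
    have hs : ∀ s x : ℝ, (s = 1 ∨ s = -1) → |x| ≤ 1 → |s * x| ≤ 1 := by
      rintro s x (rfl | rfl) hx
      · simpa using hx
      · simpa using hx
    have hT := T (s00 * a0) (s10 * a1) b0 ((s00 * s01) * b1) c0 c1 (hs _ _ t00 h1) (hs _ _ t10 h2)
      h3 (hs _ _ (by rcases t00 with rfl | rfl <;> rcases t01 with rfl | rfl <;> norm_num) h4) h5 h6
    have e00 : s00 * s00 = 1 := by rcases t00 with rfl | rfl <;> norm_num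
    have e11 : s11 * s11 = 1 := by rcases t11 with rfl | rfl <;> norm_num
    have e1 : s10 * s00 * s01 = - s11 := by
      calc s10 * s00 * s01 = (s10 * s00 * s01) * (s11 * s11) := by rw [e11, mul_one]
        _ = (s00 * s01 * s10 * s11) * s11 := by ring
        _ = - s11 := by rw [hp]; ring
    have e2 : (s00 * a0) * (b0 * c0 + ((s00 * s01) * b1) * c1) +
        (s10 * a1) * (b0 * c1 - ((s00 * s01) * b1) * c0) =
        s00 * (a0 * b0 * c0) + (s00 * s00) * s01 * (a0 * b1 * c1) + (s10 * (a1 * b0 * c1) -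
        (s10 * s00 * s01) * (a1 * b1 * c0)) := by ring
    rw [e2, e00, e1] at hT
    linarith
  have h1 : ((0 : Fin 2) + 0) = 0 := rfl
  have h2 : ((0 : Fin 2) + 1) = 1 := rfl
  have h3 : ((1 : Fin 2) + 0) = 1 := rfl
  have h4 : ((1 : Fin 2) + 1) = 0 := rfl
  simp only [Fin.sum_univ_two, h1, h2, h3, h4]
  exact key _ _ _ _ _ _ (hα 0) (hα 1) (hβ 0) (hβ 1) (hγ 0) (hγ 1) _ _ _ _ (hσ 0 0) (hσ 0 1)
    (hσ 1 0) (hσ 1 1) hp

theorem swap {n : ℕ} (m : Fin n → ℝ) (σ : Fin 2 → Fin 2 → ℝ) (F : Fin 2 → Fin 2 → Fin n → ℝ) :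
    ∑ i, ∑ j, σ i j * ∑ l, m l * F i j l = ∑ l, m l * ∑ i, ∑ j, σ i j * F i j l := by
  simp only [Fin.sum_univ_two, Finset.mul_sum, ← Finset.sum_add_distrib]
  refine Finset.sum_congr rfl fun l _ => ?_
  ring

open scoped Classical in
/-- The classical models of the GHZ structure satisfy `LHV`. -/
theorem lhv_of_model (M : ClassicalModel ghzC) :
    LHV (k := fun a : Fin 6 => M.k (Sum.inl a)) M.obs := by
  have key : ∀ {k : Fin 6 ⊕ Unit → ℕ} (s0 : ∀ w, Fin (k w))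
      (p : ∀ v, (∀ w, Fin (k w)) → Fin (k v) → ℝ)
      (_ : ∀ v, ∀ s t : (∀ w, Fin (k w)), (∀ w, ghzEdge w v = true → s w = t w) →
        p v s = p v t) (_ : ∀ v s b, 0 ≤ p v s b) (_ : ∀ v s, ∑ b, p v s b = 1),
      LHV (k := fun a : Fin 6 => k (Sum.inl a)) (obs' p) := by
    intro k s0 p hdep hnn hsum
    refine ⟨obs_nonneg p hdep hnn hsum, ?_, ?_, ?_⟩
    · rw [← pr_sum_one (obs' p) (fun ω : (∀ a : Fin 6, Fin (k (Sum.inl a))) => ω 0)]
      simp only [pr_X s0 p hdep hnn hsum]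
      exact hsum _ _
    · intro a b
      rw [pr_XY s0 p hdep hnn hsum, pr_X s0 p hdep hnn hsum, pr_Y s0 p hdep hnn hsum]
    · intro sA sB sC hA hB hC
      refine ⟨fun x y z => ∑ l, mu s0 p l *
        ((∑ a, pA s0 p x l a * sA a) * (∑ b, pB s0 p y l b * sB b) *
          (∑ c, pC s0 p z l c * sC c)), fun x y z => ?_, ?_⟩
      · rw [collapse3 (fun ω => sA (ω 3) * sB (ω 4) * sC (ω 5) * obs' p ω) x y z]
        rw [pr_XYZ s0 p hdep hnn hsum, mul_comm]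
        exact wsum s0 p hdep sA sB sC x y z
      · intro x y z σ hσ hp
        have h1 : ∑ i, ∑ j, σ i j * ∑ l, mu s0 p l *
            ((∑ a, pA s0 p (x i) l a * sA a) * (∑ b, pB s0 p (y j) l b * sB b) *
            (∑ c, pC s0 p (z (i + j)) l c * sC c)) =
            ∑ l, mu s0 p l * ∑ i, ∑ j, σ i j * ((∑ a, pA s0 p (x i) l a * sA a) *
              (∑ b, pB s0 p (y j) l b * sB b) * (∑ c, pC s0 p (z (i + j)) l c * sC c)) := by
          exact swap (mu s0 p) σ (fun i j l => (∑ a, pA s0 p (x i) l a * sA a) *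
              (∑ b, pB s0 p (y j) l b * sB b) * (∑ c, pC s0 p (z (i + j)) l c * sC c))
        rw [h1]
        have hmu : ∑ l, mu s0 p l = 1 := hsum _ _
        have h2 : ∀ l, mu s0 p l * ∑ i, ∑ j, σ i j * ((∑ a, pA s0 p (x i) l a * sA a) *
              (∑ b, pB s0 p (y j) l b * sB b) * (∑ c, pC s0 p (z (i + j)) l c * sC c)) ≤
            mu s0 p l * 2 := by
          intro l
          refine mul_le_mul_of_nonneg_left ?_ (hnn _ _ _)
          exact mermin (fun i => ∑ a, pA s0 p (x i) l a * sA a)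
            (fun j => ∑ b, pB s0 p (y j) l b * sB b) (fun t => ∑ c, pC s0 p (z t) l c * sC c)
            (fun i => avg_le _ _ (fun a => hnn _ _ _) (hsum _ _) hA)
            (fun i => avg_le _ _ (fun a => hnn _ _ _) (hsum _ _) hB)
            (fun i => avg_le _ _ (fun a => hnn _ _ _) (hsum _ _) hC) σ hσ hp
        refine (Finset.sum_le_sum fun l _ => h2 l).trans ?_
        rw [← Finset.sum_mul, hmu, one_mul]
  exact key (k := M.k) (fun v => ⟨0, M.k_pos v⟩) M.p M.p_dep M.p_nonneg M.p_sum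

end Pool.Agent.R993.EC
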