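import Mathlib

/-! Causal structures, their classical and quantum versions and the entropy vectors of their
observed nodes (definitions for `MP_4af25b_mp`). -/

set_option autoImplicit false

namespace Pool.Agent.R993.EC

open scoped Classical ComplexOrder

/-- A causal structure: a finite directed acyclic graph whose nodes are split into the observed
nodes `O` and the unobserved nodes `U`. -/
structure CausalStructure where
  /-- the observed nodes -/
  O : Type
  /-- the unobserved nodes -/
  U : Type
  [fO : Fintype O]
  [dO : DecidableEq O]
  [fU : Fintype U]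
  [dU : DecidableEq U]
  /-- `edge a b`: there is an edge from `a` to `b` -/
  edge : O ⊕ U → O ⊕ U → Prop
  acyclic : ∀ a, ¬ Relation.TransGen edge a a

attribute [instance] CausalStructure.fO CausalStructure.dO CausalStructure.fU CausalStructure.dU

/-- A choice of values of the observed and of the unobserved nodes, as one assignment. -/
def glue {O U : Type} {k : O ⊕ U → ℕ} (x : ∀ a : O, Fin (k (Sum.inl a)))
    (l : ∀ u : U, Fin (k (Sum.inr u))) : ∀ v : O ⊕ U, Fin (k v)
  | Sum.inl a => x a
  | Sum.inr u => l u

/-- A classical model of `C`: every node `v` is a random variable with values in `Fin (k v)`,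
with a conditional distribution `p v` given its parents. -/
structure ClassicalModel (C : CausalStructure) where
  /-- the sizes of the alphabets -/
  k : C.O ⊕ C.U → ℕ
  k_pos : ∀ v, 0 < k v
  /-- `p v s b`: the probability of the value `b` of `v`, given that the other nodes have the
  values `s` -/
  p : ∀ v, (∀ w, Fin (k w)) → Fin (k v) → ℝ
  /-- only the values of the parents matter -/
  p_dep : ∀ v, ∀ s t : (∀ w, Fin (k w)), (∀ w, C.edge w v → s w = t w) → p v s = p v t
  p_nonneg : ∀ v s b, 0 ≤ p v s b
  p_sum : ∀ v s, ∑ b, p v s b = 1

/-- The distribution of the observed nodes in a classical model: the marginal of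
`∏ v, P(v | pa v)`. -/
noncomputable def ClassicalModel.obs {C : CausalStructure} (M : ClassicalModel C)
    (x : ∀ a : C.O, Fin (M.k (Sum.inl a))) : ℝ :=
  ∑ l : (∀ u : C.U, Fin (M.k (Sum.inr u))), ∏ v, M.p v (glue x l) (glue x l v)

/-- The edges which carry quantum systems: the edges leaving the unobserved nodes. -/
def QEdge (C : CausalStructure) : Type :=
  {e : C.U × (C.O ⊕ C.U) // C.edge (Sum.inr e.1) e.2}

noncomputable instance (C : CausalStructure) : Fintype (QEdge C) :=
  inferInstanceAs (Fintype {e : C.U × (C.O ⊕ C.U) // C.edge (Sum.inr e.1) e.2})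

/-- Basis labels of the tensor product of the systems which leave the unobserved node `u`. -/
abbrev OutIdx {C : CausalStructure} (d : QEdge C → ℕ) (u : C.U) : Type :=
  ∀ e : {e : QEdge C // e.1.1 = u}, Fin (d e.1)

/-- Basis labels of the tensor product of the systems which enter the node `v`. -/
abbrev InIdx {C : CausalStructure} (d : QEdge C → ℕ) (v : C.O ⊕ C.U) : Type :=
  ∀ e : {e : QEdge C // e.1.2 = v}, Fin (d e.1)

/-- A quantum model of `C`. The edge `e` leaving an unobserved node carries the Hilbert space
`ℂ ^ d e`. The unobserved node `u` is a quantum channel, given by Kraus operators `K u x j`, from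
the systems which enter `u` to the systems which leave `u`; the channel may depend on the values of
the observed parents of `u`. The observed node `v` is the outcome of a POVM `E v x`, which may
depend on the values of the observed parents of `v`, applied to the systems which enter `v`. -/
structure QuantumModel (C : CausalStructure) where
  /-- the sizes of the alphabets of the observed nodes -/
  k : C.O → ℕ
  k_pos : ∀ a, 0 < k a
  /-- the dimensions of the systems -/
  d : QEdge C → ℕ
  d_pos : ∀ e, 0 < d e
  /-- the number of the Kraus operators -/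
  r : C.U → ℕ
  /-- the Kraus operators of the channel at `u` -/
  K : ∀ u : C.U, (∀ a, Fin (k a)) → Fin (r u) → Matrix (OutIdx d u) (InIdx d (Sum.inr u)) ℂ
  K_dep : ∀ u, ∀ s t : (∀ a, Fin (k a)),
    (∀ a, C.edge (Sum.inl a) (Sum.inr u) → s a = t a) → K u s = K u t
  /-- the channels preserve the trace -/
  K_tp : ∀ u s, ∑ j, (K u s j).conjTranspose * K u s j = 1
  /-- the POVM at `v` -/
  E : ∀ v : C.O, (∀ a, Fin (k a)) → Fin (k v) →
    Matrix (InIdx d (Sum.inl v)) (InIdx d (Sum.inl v)) ℂ
  E_dep : ∀ v, ∀ s t : (∀ a, Fin (k a)),
    (∀ a, C.edge (Sum.inl a) (Sum.inl v) → s a = t a) → E v s = E v t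
  E_psd : ∀ v s b, (E v s b).PosSemidef
  E_sum : ∀ v s, ∑ b, E v s b = 1

/-- The distribution of the observed nodes in a quantum model: all the channels and all the
effects are composed along the edges (the sums over `i` and `i'` are the contractions of the two
indices of the state of every system, `j` runs through the Kraus operators). -/
noncomputable def QuantumModel.obs {C : CausalStructure} (M : QuantumModel C)
    (x : ∀ a : C.O, Fin (M.k a)) : ℝ :=
  (∑ j : (∀ u : C.U, Fin (M.r u)), ∑ i : (∀ e, Fin (M.d e)), ∑ i' : (∀ e, Fin (M.d e)),
    (∏ u, (M.K u x (j u) (fun e => i e.1) (fun e => i e.1) *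
      star (M.K u x (j u) (fun e => i' e.1) (fun e => i' e.1)))) *
    ∏ v, M.E v x (x v) (fun e => i' e.1) (fun e => i e.1)).re

/-- The marginal of the distribution `P` on the nodes in `S`. -/
noncomputable def marginal {O : Type} [Fintype O] [DecidableEq O] {k : O → ℕ}
    (P : (∀ a, Fin (k a)) → ℝ) (S : Finset O) (t : ∀ a : S, Fin (k a)) : ℝ :=
  ∑ x : (∀ a, Fin (k a)), if (fun a : S => x a) = t then P x else 0

/-- The Shannon entropy (in bits) of the nodes in `S`. -/
noncomputable def entropy {O : Type} [Fintype O] [DecidableEq O] {k : O → ℕ}
    (P : (∀ a, Fin (k a)) → ℝ) (S : Finset O) : ℝ :=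
  -∑ t : (∀ a : S, Fin (k a)), marginal P S t * Real.logb 2 (marginal P S t)

/-- The index set of the entropy vectors: the nonempty sets of observed nodes. -/
abbrev Idx (C : CausalStructure) : Type := {S : Finset C.O // S.Nonempty}

/-- The entropy vectors of the classical version of `C`. -/
def GammaC (C : CausalStructure) : Set (Idx C → ℝ) :=
  {h | ∃ M : ClassicalModel C, h = fun S => entropy M.obs S.1}

/-- The entropy vectors of the quantum version of `C`. -/
def GammaQ (C : CausalStructure) : Set (Idx C → ℝ) :=
  {h | ∃ M : QuantumModel C, h = fun S => entropy M.obs S.1}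

end Pool.Agent.R993.EC
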