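import Mathlib

set_option autoImplicit false

/-!
# Entropy of functions on finite probability spaces

Elementary inequalities E1-E6 for Shannon entropy (natural logarithm) of random variables on a
finite probability space.
-/

namespace Pool.Agent.R993.EC

open scoped Classical in
/-- the probability that `f = a` -/
noncomputable def pr {Ω α : Type*} [Fintype Ω] (P : Ω → ℝ) (f : Ω → α) (a : α) : ℝ :=
  ∑ x, if f x = a then P x else 0

open scoped Classical in
/-- the entropy of `f` -/
noncomputable def Hs {Ω α : Type*} [Fintype Ω] [Fintype α] (P : Ω → ℝ) (f : Ω → α) : ℝ :=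
  ∑ a, Real.negMulLog (pr P f a)

section basic
variable {Ω α β γ : Type*} [Fintype Ω] [Fintype α] [Fintype β] [Fintype γ]

theorem pr_nonneg {P : Ω → ℝ} (hP : ∀ x, 0 ≤ P x) {α : Type*} (f : Ω → α) (a : α) : 0 ≤ pr P f a := by
  unfold pr
  refine Finset.sum_nonneg fun x _ => ?_
  split_ifs
  · exact hP x
  · exact le_rfl

theorem le_pr {P : Ω → ℝ} (hP : ∀ x, 0 ≤ P x) {α : Type*} (f : Ω → α) (x : Ω) :
    P x ≤ pr P f (f x) := by
  classical
  unfold pr
  have h := Finset.single_le_sum (f := fun y => if f y = f x then P y else 0) (s := Finset.univ)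
    (fun y _ => by split_ifs; exacts [hP y, le_rfl]) (Finset.mem_univ x)
  simpa using h

theorem pr_le_pr {P : Ω → ℝ} (hP : ∀ x, 0 ≤ P x) {α β : Type*} (f : Ω → α) (g : Ω → β) (a : α)
    (b : β) (h : ∀ x, f x = a → g x = b) : pr P f a ≤ pr P g b := by
  classical
  unfold pr
  refine Finset.sum_le_sum fun x _ => ?_
  by_cases h1 : f x = a
  · rw [if_pos h1, if_pos (h x h1)]
  · rw [if_neg h1]
    split_ifs
    · exact hP x
    · exact le_rfl

theorem pr_congr {P : Ω → ℝ} {α β : Type*} (f : Ω → α) (g : Ω → β) (a : α)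
    (b : β) (h : ∀ x, f x = a ↔ g x = b) : pr P f a = pr P g b := by
  classical
  unfold pr
  refine Finset.sum_congr rfl fun x _ => ?_
  by_cases h1 : f x = a
  · rw [if_pos h1, if_pos ((h x).1 h1)]
  · rw [if_neg h1, if_neg (fun h2 => h1 ((h x).2 h2))]

theorem pr_mono_weight {P Q : Ω → ℝ} (hPQ : ∀ x, P x ≤ Q x) {α : Type*} (f : Ω → α) (a : α) :
    pr P f a ≤ pr Q f a := by
  classical
  unfold pr
  refine Finset.sum_le_sum fun x _ => ?_
  split_ifs
  · exact hPQ x
  · exact le_rfl

/-- change of variables -/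
theorem sum_pr_mul (P : Ω → ℝ) (f : Ω → α) (g : α → ℝ) :
    ∑ a, pr P f a * g a = ∑ x, P x * g (f x) := by
  classical
  unfold pr
  simp only [Finset.sum_mul]
  rw [Finset.sum_comm]
  refine Finset.sum_congr rfl fun x _ => ?_
  rw [Finset.sum_eq_single (f x)]
  · simp
  · intro b _ hb
    rw [if_neg (Ne.symm hb), zero_mul]
  · intro h
    exact absurd (Finset.mem_univ _) h

theorem sum_pr (P : Ω → ℝ) (f : Ω → α) : ∑ a, pr P f a = ∑ x, P x := by
  have h := sum_pr_mul P f (fun _ => 1)
  simpa using h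

theorem pr_le_one {P : Ω → ℝ} (hP : ∀ x, 0 ≤ P x) (hP1 : ∑ x, P x = 1) {α : Type*} (f : Ω → α)
    (a : α) : pr P f a ≤ 1 := by
  classical
  rw [← hP1]
  unfold pr
  refine Finset.sum_le_sum fun x _ => ?_
  split_ifs
  · exact le_rfl
  · exact hP x

omit [Fintype α] in
/-- marginal: summation over the second coordinate -/
theorem sum_pr_snd (P : Ω → ℝ) (f : Ω → α) (g : Ω → β) (a : α) :
    ∑ b, pr P (fun x => (f x, g x)) (a, b) = pr P f a := by
  classical
  unfold pr
  rw [Finset.sum_comm]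
  refine Finset.sum_congr rfl fun x _ => ?_
  by_cases h : f x = a
  · rw [if_pos h, Finset.sum_eq_single (g x)]
    · simp [h]
    · intro b _ hb
      rw [if_neg]
      intro h2
      exact hb (Prod.mk.inj h2).2.symm
    · intro h; exact absurd (Finset.mem_univ _) h
  · rw [if_neg h]
    refine Finset.sum_eq_zero fun b _ => ?_
    rw [if_neg]
    intro h2
    exact h (Prod.mk.inj h2).1

/-- E1 -/
theorem Hs_free (P : Ω → ℝ) (f : Ω → α) : Hs P f = -∑ x, P x * Real.log (pr P f (f x)) := by
  classical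
  unfold Hs
  have h := sum_pr_mul P f (fun a => Real.log (pr P f a))
  rw [← h, ← Finset.sum_neg_distrib]
  refine Finset.sum_congr rfl fun a _ => ?_
  rw [Real.negMulLog]
  ring

/-- E2 -/
theorem Hs_congr (P : Ω → ℝ) (f : Ω → α) (g : Ω → β) (h : ∀ x y, f x = f y ↔ g x = g y) :
    Hs P f = Hs P g := by
  rw [Hs_free, Hs_free]
  congr 1
  refine Finset.sum_congr rfl fun x _ => ?_
  rw [pr_congr f g (f x) (g x) (fun y => h y x)]

/-- the conditional entropy as a sum over the points of the space -/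
theorem cond_free (P : Ω → ℝ) (hP : ∀ x, 0 ≤ P x) (f : Ω → α) (g : Ω → β) :
    Hs P f - Hs P g = ∑ x, P x * Real.log (pr P g (g x) / pr P f (f x)) := by
  rw [Hs_free, Hs_free, neg_sub_neg, ← Finset.sum_sub_distrib]
  refine Finset.sum_congr rfl fun x _ => ?_
  rcases (hP x).eq_or_lt with h | h
  · rw [← h]; ring
  · have h1 : 0 < pr P g (g x) := lt_of_lt_of_le h (le_pr hP g x)
    have h2 : 0 < pr P f (f x) := lt_of_lt_of_le h (le_pr hP f x)
    rw [Real.log_div h1.ne' h2.ne']
    ring

theorem cond_term_nonneg (P : Ω → ℝ) (hP : ∀ x, 0 ≤ P x) {α β : Type*} (f : Ω → α) (g : Ω → β)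
    (hfg : ∀ x y, f x = f y → g x = g y) (x : Ω) :
    0 ≤ P x * Real.log (pr P g (g x) / pr P f (f x)) := by
  rcases (hP x).eq_or_lt with h | h
  · rw [← h]; simp
  · have h2 : 0 < pr P f (f x) := lt_of_lt_of_le h (le_pr hP f x)
    refine mul_nonneg h.le (Real.log_nonneg ?_)
    rw [one_le_div h2]
    exact pr_le_pr hP f g _ _ (fun y hy => hfg y x hy)

/-- E3 -/
theorem row (P : Ω → ℝ) (hP : ∀ x, 0 ≤ P x) (f : Ω → α) (g : Ω → β) (F : Finset (α × β)) :
    ∑ c ∈ F, pr P (fun x => (f x, g x)) c *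
        Real.log (pr P f c.1 / pr P (fun x => (f x, g x)) c)
      ≤ Hs P (fun x => (f x, g x)) - Hs P f := by
  classical
  have h1 : Hs P (fun x => (f x, g x)) - Hs P f =
      ∑ c, pr P (fun x => (f x, g x)) c *
        Real.log (pr P f c.1 / pr P (fun x => (f x, g x)) c) := by
    rw [cond_free P hP, sum_pr_mul P (fun x => (f x, g x))
      (fun c => Real.log (pr P f c.1 / pr P (fun x => (f x, g x)) c))]
  rw [h1]
  refine Finset.sum_le_sum_of_subset_of_nonneg (Finset.subset_univ _) fun c _ _ => ?_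
  have h2 := pr_nonneg hP (fun x => (f x, g x)) c
  rcases h2.eq_or_lt with h | h
  · rw [← h]; simp
  · refine mul_nonneg h.le (Real.log_nonneg ?_)
    rw [one_le_div h]
    refine pr_le_pr hP _ _ _ _ fun y hy => ?_
    rw [← hy]

/-- the pointwise inequality used in E4 -/
theorem phi_ge {p q : ℝ} (hp : 0 ≤ p) (hp1 : p ≤ 1) (hq : 0 ≤ q) (hq1 : q ≤ 1)
    (h0 : q = 0 → p = 0) : (p - q) ^ 2 / 2 ≤ p * Real.log (p / q) - p + q := by
  rcases hp.eq_or_lt with h | h
  · rw [← h]; nlinarith
  have hq' : 0 < q := by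
    rcases hq.eq_or_lt with h' | h'
    · exact absurd (h0 h'.symm) h.ne'
    · exact h'
  rcases le_total q p with hqp | hqp
  · -- `u = 1 - q / p`
    set r := q / p with hr
    have hr0 : 0 < r := div_pos hq' h
    have hr1 : r ≤ 1 := (div_le_one h).2 hqp
    have hqr : q = r * p := by rw [hr]; field_simp
    have hlog : Real.log (p / q) = - Real.log r := by
      rw [hr, ← Real.log_inv, inv_div]
    have key : (1 - r) + (1 - r) ^ 2 / 2 ≤ - Real.log r := by
      have hs := Real.hasSum_pow_div_log_of_abs_lt_one (x := 1 - r)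
        (by rw [abs_lt]; constructor <;> linarith)
      have hle := sum_le_hasSum (Finset.range 2) (fun n _ => by
        have : 0 ≤ 1 - r := by linarith
        positivity) hs
      rw [Finset.sum_range_succ, Finset.sum_range_one] at hle
      have e1 : (1:ℝ) - (1 - r) = r := by ring
      rw [e1] at hle
      refine le_trans (le_of_eq ?_) hle
      push_cast
      ring
    rw [hlog, hqr]
    have h3 : p * ((1 - r) + (1 - r) ^ 2 / 2) ≤ p * (- Real.log r) :=
      mul_le_mul_of_nonneg_left key h.le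
    have h4 : p ^ 2 * (1 - r) ^ 2 ≤ p * (1 - r) ^ 2 := by
      have : p ^ 2 ≤ p := by nlinarith
      nlinarith [sq_nonneg (1 - r)]
    nlinarith
  · set r := q / p with hr
    have hr1 : 1 ≤ r := (one_le_div h).2 hqp
    have hr0 : 0 < r := lt_of_lt_of_le one_pos hr1
    have hqr : q = r * p := by rw [hr]; field_simp
    have hlog : Real.log (p / q) = - Real.log r := by
      rw [hr, ← Real.log_inv, inv_div]
    have key : Real.log r ≤ (r - r⁻¹) / 2 := by
      have h5 := Real.self_le_sinh_iff.2 (Real.log_nonneg hr1)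
      rwa [Real.sinh_log hr0] at h5
    rw [hlog, hqr]
    have h6 : p * Real.log r ≤ p * ((r - r⁻¹) / 2) := mul_le_mul_of_nonneg_left key h.le
    have hrp : r * p ≤ 1 := by rw [← hqr]; exact hq1
    have h7 : p * (r - 1) ^ 2 * p ≤ p * (r - 1) ^ 2 * r⁻¹ := by
      refine mul_le_mul_of_nonneg_left ?_ (by positivity)
      rw [le_inv_comm₀ h hr0, ← one_div, le_div_iff₀ h]
      exact hrp
    have h8 : p * (r - 1) ^ 2 * r⁻¹ = p * (r - 2 + r⁻¹) := by
      field_simp
      ring
    nlinarith

/-- E4 -/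
theorem kl (P : Ω → ℝ) (hP : ∀ x, 0 ≤ P x) (hP1 : ∑ x, P x = 1) (f : Ω → α) (g : Ω → β)
    (a : α) (b : β) :
    (pr P (fun x => (f x, g x)) (a, b) - pr P f a * pr P g b) ^ 2 / 2
      ≤ Hs P f + Hs P g - Hs P (fun x => (f x, g x)) := by
  classical
  set W : Ω → α × β := fun x => (f x, g x) with hW
  have hsum : Hs P f + Hs P g - Hs P W =
      ∑ c, (pr P W c * Real.log (pr P W c / (pr P f c.1 * pr P g c.2)) - pr P W c +
        pr P f c.1 * pr P g c.2) := by
    have e1 : Hs P f + Hs P g - Hs P W =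
        ∑ x, P x * Real.log (pr P W (W x) / (pr P f (W x).1 * pr P g (W x).2)) := by
      rw [Hs_free, Hs_free, Hs_free]
      have : ∀ u v w : ℝ, -u + -v - -w = w - u - v := by intro u v w; ring
      rw [this, ← Finset.sum_sub_distrib, ← Finset.sum_sub_distrib]
      refine Finset.sum_congr rfl fun x _ => ?_
      rcases (hP x).eq_or_lt with h | h
      · rw [← h]; ring
      · have h1 : 0 < pr P g (g x) := lt_of_lt_of_le h (le_pr hP g x)
        have h2 : 0 < pr P f (f x) := lt_of_lt_of_le h (le_pr hP f x)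
        have h3 : 0 < pr P W (W x) := lt_of_lt_of_le h (le_pr hP W x)
        show _ = P x * Real.log (pr P W (W x) / (pr P f (f x) * pr P g (g x)))
        rw [Real.log_div h3.ne' (mul_pos h2 h1).ne', Real.log_mul h2.ne' h1.ne']
        ring
    rw [e1, ← sum_pr_mul P W
      (fun c => Real.log (pr P W c / (pr P f c.1 * pr P g c.2))), Finset.sum_add_distrib,
      Finset.sum_sub_distrib, sum_pr P W, hP1, Fintype.sum_prod_type]
    have e2 : ∑ c : α × β, pr P f c.1 * pr P g c.2 = 1 := by
      rw [Fintype.sum_prod_type]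
      simp only [← Finset.mul_sum]
      rw [← Finset.sum_mul, sum_pr, sum_pr, hP1, one_mul]
    rw [e2]
    ring
  rw [hsum]
  have hterm : ∀ c : α × β, (pr P W c - pr P f c.1 * pr P g c.2) ^ 2 / 2 ≤
      pr P W c * Real.log (pr P W c / (pr P f c.1 * pr P g c.2)) - pr P W c +
        pr P f c.1 * pr P g c.2 := by
    intro c
    have hf0 := pr_nonneg hP f c.1
    have hg0 := pr_nonneg hP g c.2
    have hf1 := pr_le_one hP hP1 f c.1
    have hg1 := pr_le_one hP hP1 g c.2
    refine phi_ge (pr_nonneg hP W c) (pr_le_one hP hP1 W c) (mul_nonneg hf0 hg0)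
      (mul_le_one₀ hf1 hg0 hg1) ?_
    intro h0
    rcases mul_eq_zero.1 h0 with h | h
    · refine le_antisymm ?_ (pr_nonneg hP W c)
      rw [← h]
      refine pr_le_pr hP _ _ _ _ fun x hx => ?_
      rw [← hx]
    · refine le_antisymm ?_ (pr_nonneg hP W c)
      rw [← h]
      refine pr_le_pr hP _ _ _ _ fun x hx => ?_
      rw [← hx]
  refine (hterm (a, b)).trans ?_
  exact Finset.single_le_sum (f := fun c : α × β =>
    pr P W c * Real.log (pr P W c / (pr P f c.1 * pr P g c.2)) - pr P W c +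
        pr P f c.1 * pr P g c.2) (fun c _ => le_trans (by positivity) (hterm c))
    (Finset.mem_univ (a, b))

/-- E5 -/
theorem Hs_ge (P : Ω → ℝ) (hP : ∀ x, 0 ≤ P x) (hP1 : ∑ x, P x = 1) (f : Ω → α) (F : Finset α) :
    ∑ a ∈ F, Real.negMulLog (pr P f a) ≤ Hs P f := by
  classical
  unfold Hs
  refine Finset.sum_le_sum_of_subset_of_nonneg (Finset.subset_univ _) fun a _ _ => ?_
  exact Real.negMulLog_nonneg (pr_nonneg hP f a) (pr_le_one hP hP1 f a)

/-- log-sum inequality -/
theorem log_sum {ι : Type*} [Fintype ι] (u v : ι → ℝ) (hu : ∀ i, 0 ≤ u i) (hv : ∀ i, 0 ≤ v i)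
    (h0 : ∀ i, v i = 0 → u i = 0) {V : ℝ} (hV : ∑ i, v i ≤ V) (hV0 : 0 < V)
    (hU : 0 < ∑ i, u i) :
    ∑ i, u i * Real.log (v i / u i) ≤ (∑ i, u i) * Real.log (V / ∑ i, u i) := by
  set U := ∑ i, u i with hUdef
  have h1 : ∀ i, u i * Real.log (v i / u i) ≤ u i * Real.log (V / U) + (v i * U / V - u i) := by
    intro i
    rcases (hu i).eq_or_lt with h | h
    · rw [← h]
      have : 0 ≤ v i * U / V := div_nonneg (mul_nonneg (hv i) hU.le) hV0.le
      simpa using this
    · have hvi : 0 < v i := by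
        rcases (hv i).eq_or_lt with h' | h'
        · exact absurd (h0 i h'.symm) h.ne'
        · exact h'
      have h2 := Real.log_le_sub_one_of_pos
        (show 0 < (v i / u i) / (V / U) by positivity)
      rw [Real.log_div (by positivity) (by positivity)] at h2
      have h3 := mul_le_mul_of_nonneg_left h2 h.le
      have h4 : u i * ((v i / u i) / (V / U) - 1) = v i * U / V - u i := by
        field_simp
      rw [h4] at h3
      linarith
  refine (Finset.sum_le_sum fun i _ => h1 i).trans ?_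
  rw [Finset.sum_add_distrib, ← Finset.sum_mul, Finset.sum_sub_distrib, ← hUdef,
    ← Finset.sum_div, ← Finset.sum_mul]
  have h5 : (∑ i, v i) * U / V ≤ U := by
    rw [div_le_iff₀ hV0, mul_comm U V]
    exact mul_le_mul_of_nonneg_right hV hU.le
  linarith

end basic

section rare
variable {Ω α β γ : Type*} [Fintype Ω] [Fintype α] [Fintype β] [Fintype γ]

/-- entropy of a decomposition: part of the measure -/
theorem part_le (P Q : Ω → ℝ) (hP : ∀ x, 0 ≤ P x) (hP1 : ∑ x, P x = 1) (hQ : ∀ x, 0 ≤ Q x)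
    (hQP : ∀ x, Q x ≤ P x) (Z : Ω → γ) :
    ∑ x, Q x * Real.log (pr P Z (Z x) / pr Q Z (Z x)) ≤ Real.negMulLog (∑ x, Q x) := by
  classical
  rw [← sum_pr_mul Q Z (fun z => Real.log (pr P Z z / pr Q Z z))]
  rcases (Finset.sum_nonneg fun x _ => hQ x : 0 ≤ ∑ x, Q x).eq_or_lt with h | h
  · have hz : ∀ x, Q x = 0 := by
      intro x
      have := (Finset.sum_eq_zero_iff_of_nonneg (fun x _ => hQ x)).1 h.symm x (Finset.mem_univ x)
      exact this
    have hz2 : ∀ z, pr Q Z z = 0 := by
      intro z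
      unfold pr
      refine Finset.sum_eq_zero fun x _ => ?_
      rw [hz x]; simp
    rw [← h]
    simp [hz2]
  · have h1 := log_sum (fun z => pr Q Z z) (fun z => pr P Z z) (fun z => pr_nonneg hQ Z z)
      (fun z => pr_nonneg hP Z z)
      (fun z hz => le_antisymm (hz ▸ pr_mono_weight hQP Z z) (pr_nonneg hQ Z z))
      (V := 1) (by rw [sum_pr, hP1]) one_pos (by rw [sum_pr]; exact h)
    rw [sum_pr] at h1
    refine h1.trans (le_of_eq ?_)
    rw [Real.negMulLog, one_div, Real.log_inv]
    ring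

/-- conditioning reduces entropy, for a nonnegative measure -/
theorem cond_le (Q : Ω → ℝ) (hQ : ∀ x, 0 ≤ Q x) (X : Ω → α) (Z : Ω → γ) :
    ∑ x, Q x * Real.log (pr Q Z (Z x) / pr Q (fun y => (X y, Z y)) (X x, Z x)) ≤
      ∑ x, Q x * Real.log ((∑ y, Q y) / pr Q X (X x)) := by
  classical
  set W : Ω → α × γ := fun y => (X y, Z y) with hW
  set T := ∑ y, Q y with hT
  rcases (Finset.sum_nonneg fun x _ => hQ x : 0 ≤ ∑ x, Q x).eq_or_lt with h | h
  · have hz : ∀ x, Q x = 0 := by
      intro x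
      exact (Finset.sum_eq_zero_iff_of_nonneg (fun x _ => hQ x)).1 h.symm x (Finset.mem_univ x)
    simp [hz]
  · have h1 := log_sum (fun c : α × γ => pr Q W c) (fun c => pr Q X c.1 * pr Q Z c.2 / T)
      (fun c => pr_nonneg hQ W c)
      (fun c => div_nonneg (mul_nonneg (pr_nonneg hQ X _) (pr_nonneg hQ Z _)) h.le)
      (fun c hc => by
        have h2 : pr Q X c.1 * pr Q Z c.2 = 0 := by
          rcases div_eq_zero_iff.1 hc with h3 | h3
          · exact h3
          · exact absurd h3 h.ne'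
        refine le_antisymm ?_ (pr_nonneg hQ W c)
        rcases mul_eq_zero.1 h2 with h3 | h3
        · rw [← h3]; exact pr_le_pr hQ _ _ _ _ fun x hx => by rw [← hx]
        · rw [← h3]; exact pr_le_pr hQ _ _ _ _ fun x hx => by rw [← hx])
      (V := T) (by
        rw [← Finset.sum_div, Fintype.sum_prod_type]
        simp only [← Finset.mul_sum]
        rw [← Finset.sum_mul, sum_pr, sum_pr, ← hT]
        rw [mul_div_assoc, div_self h.ne', mul_one]) h (by rw [sum_pr]; exact h)
    rw [sum_pr, ← hT, div_self h.ne', Real.log_one, mul_zero,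
      sum_pr_mul Q W (fun c => Real.log (pr Q X c.1 * pr Q Z c.2 / T / pr Q W c))] at h1
    have h2 : ∑ x, Q x * Real.log (pr Q Z (Z x) / pr Q W (X x, Z x)) =
        ∑ x, Q x * Real.log (pr Q X (W x).1 * pr Q Z (W x).2 / T / pr Q W (W x)) +
          ∑ x, Q x * Real.log (T / pr Q X (X x)) := by
      rw [← Finset.sum_add_distrib]
      refine Finset.sum_congr rfl fun x _ => ?_
      rcases (hQ x).eq_or_lt with h3 | h3
      · rw [← h3]; ring
      · have p1 : 0 < pr Q X (X x) := lt_of_lt_of_le h3 (le_pr hQ X x)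
        have p2 : 0 < pr Q Z (Z x) := lt_of_lt_of_le h3 (le_pr hQ Z x)
        have p3 : 0 < pr Q W (X x, Z x) := lt_of_lt_of_le h3 (le_pr hQ W x)
        show Q x * Real.log (pr Q Z (Z x) / pr Q W (X x, Z x)) =
          Q x * Real.log (pr Q X (X x) * pr Q Z (Z x) / T / pr Q W (X x, Z x)) + _
        have hT0 : 0 < T := h
        rw [← mul_add, ← Real.log_mul (by positivity) (by positivity)]
        congr 2
        field_simp
    linarith

/-- E6 -/
theorem rare (P : Ω → ℝ) (hP : ∀ x, 0 ≤ P x) (hP1 : ∑ x, P x = 1)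
    (X : Ω → α) (Y : Ω → β) (Z : Ω → γ)
    (hind : ∀ a b, pr P (fun x => (X x, Y x)) (a, b) = pr P X a * pr P Y b) (y0 : β) :
    Hs P (fun x => (X x, Z x)) - Hs P Z ≤
      (Hs P (fun x => (X x, Y x, Z x)) - Hs P (fun x => (Y x, Z x)))
       + Real.negMulLog (pr P Y y0) + Real.negMulLog (1 - pr P Y y0) +
         (1 - pr P Y y0) * Hs P X := by
  classical
  set q := pr P Y y0 with hq
  set P0 : Ω → ℝ := fun x => if Y x = y0 then P x else 0 with hP0
  set P1 : Ω → ℝ := fun x => if Y x = y0 then 0 else P x with hP1'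
  have n0 : ∀ x, 0 ≤ P0 x := fun x => by
    simp only [hP0]; split_ifs; exacts [hP x, le_rfl]
  have n1 : ∀ x, 0 ≤ P1 x := fun x => by
    simp only [hP1']; split_ifs; exacts [le_rfl, hP x]
  have l0 : ∀ x, P0 x ≤ P x := fun x => by
    simp only [hP0]; split_ifs; exacts [le_rfl, hP x]
  have l1 : ∀ x, P1 x ≤ P x := fun x => by
    simp only [hP1']; split_ifs; exacts [hP x, le_rfl]
  have hadd : ∀ x, P x = P0 x + P1 x := fun x => by
    simp only [hP0, hP1']; split_ifs <;> ring
  have s0 : ∑ x, P0 x = q := by rw [hq]; rfl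
  have s1 : ∑ x, P1 x = 1 - q := by
    rw [← hP1, ← s0, ← Finset.sum_sub_distrib]
    refine Finset.sum_congr rfl fun x _ => ?_
    rw [hadd x]; ring
  set W : Ω → α × γ := fun x => (X x, Z x) with hW
  -- step A
  have stepA : Hs P W - Hs P Z ≤
      (∑ x, P0 x * Real.log (pr P0 Z (Z x) / pr P0 W (W x)) +
        ∑ x, P0 x * Real.log (pr P Z (Z x) / pr P0 Z (Z x))) +
      (∑ x, P1 x * Real.log (pr P1 Z (Z x) / pr P1 W (W x)) +
        ∑ x, P1 x * Real.log (pr P Z (Z x) / pr P1 Z (Z x))) := by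
    rw [cond_free P hP W Z, ← Finset.sum_add_distrib, ← Finset.sum_add_distrib,
      ← Finset.sum_add_distrib]
    have aux : ∀ (Q : Ω → ℝ), (∀ x, 0 ≤ Q x) → (∀ x, Q x ≤ P x) → ∀ x,
        Q x * Real.log (pr P Z (Z x) / pr P W (W x)) ≤
          Q x * Real.log (pr Q Z (Z x) / pr Q W (W x)) +
            Q x * Real.log (pr P Z (Z x) / pr Q Z (Z x)) := by
      intro Q hQ hQP x
      rcases (hQ x).eq_or_lt with h3 | h3
      · rw [← h3]; simp
      · have p1 : 0 < pr Q Z (Z x) := lt_of_lt_of_le h3 (le_pr hQ Z x)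
        have p2 : 0 < pr Q W (W x) := lt_of_lt_of_le h3 (le_pr hQ W x)
        have p3 : 0 < pr P Z (Z x) := lt_of_lt_of_le p1 (pr_mono_weight hQP Z _)
        have p5 : pr Q W (W x) ≤ pr P W (W x) := pr_mono_weight hQP W _
        have p4 : 0 < pr P W (W x) := lt_of_lt_of_le p2 p5
        rw [← mul_add, ← Real.log_mul (by positivity) (by positivity)]
        refine mul_le_mul_of_nonneg_left (Real.log_le_log (by positivity) ?_) h3.le
        have e : pr Q Z (Z x) / pr Q W (W x) * (pr P Z (Z x) / pr Q Z (Z x)) =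
            pr P Z (Z x) / pr Q W (W x) := by
          field_simp
        rw [e]
        exact div_le_div_of_nonneg_left p3.le p2 p5
    refine Finset.sum_le_sum fun x _ => ?_
    have a0 := aux P0 n0 l0 x
    have a1 := aux P1 n1 l1 x
    have : P x * Real.log (pr P Z (Z x) / pr P W (W x)) =
        P0 x * Real.log (pr P Z (Z x) / pr P W (W x)) +
          P1 x * Real.log (pr P Z (Z x) / pr P W (W x)) := by
      conv_lhs => rw [hadd x]
      ring
    rw [this]
    linarith
  have stepA0 := part_le P P0 hP hP1 n0 l0 Z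
  have stepA1 := part_le P P1 hP hP1 n1 l1 Z
  rw [s0] at stepA0
  rw [s1] at stepA1
  -- step B
  have stepB : ∑ x, P0 x * Real.log (pr P0 Z (Z x) / pr P0 W (W x)) ≤
      Hs P (fun x => (X x, Y x, Z x)) - Hs P (fun x => (Y x, Z x)) := by
    rw [cond_free P hP (fun x => (X x, Y x, Z x)) (fun x => (Y x, Z x))]
    refine Finset.sum_le_sum fun x _ => ?_
    by_cases hx : Y x = y0
    · have e0 : P0 x = P x := by simp only [hP0]; rw [if_pos hx]
      have e1 : pr P0 Z (Z x) = pr P (fun y => (Y y, Z y)) (Y x, Z x) := by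
        unfold pr
        refine Finset.sum_congr rfl fun y _ => ?_
        simp only [hP0, Prod.mk.injEq, hx]
        by_cases h1 : Z y = Z x <;> by_cases h2 : Y y = y0 <;> simp [h1, h2]
      have e2 : pr P0 W (W x) = pr P (fun y => (X y, Y y, Z y)) (X x, Y x, Z x) := by
        unfold pr
        refine Finset.sum_congr rfl fun y _ => ?_
        simp only [hP0, hW, Prod.mk.injEq, hx]
        by_cases h1 : Z y = Z x <;> by_cases h2 : Y y = y0 <;> by_cases h3 : X y = X x <;>
          simp [h1, h2, h3]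
      rw [e0, e1, e2]
    · have e0 : P0 x = 0 := by simp only [hP0]; rw [if_neg hx]
      rw [e0, zero_mul]
      refine cond_term_nonneg P hP (fun x => (X x, Y x, Z x)) (fun x => (Y x, Z x)) ?_ x
      intro x y hxy
      have h1 := Prod.mk.inj hxy
      exact h1.2
  -- step C
  have stepC : ∑ x, P1 x * Real.log (pr P1 Z (Z x) / pr P1 W (W x)) ≤ (1 - q) * Hs P X := by
    refine (cond_le P1 n1 X Z).trans ?_
    have hX : ∀ a, pr P1 X a = (1 - q) * pr P X a := by
      intro a
      have h1 : pr P X a = pr P1 X a + pr P (fun x => (X x, Y x)) (a, y0) := by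
        unfold pr
        rw [← Finset.sum_add_distrib]
        refine Finset.sum_congr rfl fun x _ => ?_
        simp only [hP1', Prod.mk.injEq]
        by_cases h1 : X x = a <;> by_cases h2 : Y x = y0 <;> simp [h1, h2]
      rw [hind] at h1
      linarith
    rw [s1, ← sum_pr_mul P1 X (fun a => Real.log ((1 - q) / pr P1 X a))]
    unfold Hs
    rw [Finset.mul_sum]
    refine Finset.sum_le_sum fun a _ => ?_
    rw [hX a, Real.negMulLog]
    have hq1 : 0 ≤ 1 - q := by rw [← s1]; exact Finset.sum_nonneg fun x _ => n1 x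
    rcases hq1.eq_or_lt with h | h
    · rw [← h]; simp
    · rcases (pr_nonneg hP X a).eq_or_lt with h2 | h2
      · rw [← h2]; simp
      · have e : (1 - q) / ((1 - q) * pr P X a) = (pr P X a)⁻¹ := by
          field_simp
        rw [e, Real.log_inv]
        apply le_of_eq
        ring
  linarith

end rare

end Pool.Agent.R993.EC
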