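import Pool.Agent.R993.EC.Ghz

/-! The GHZ distribution is the distribution of a quantum model of `ghzC`. -/

set_option autoImplicit false

namespace Pool.Agent.R993.EC

open scoped Classical ComplexOrder
open Complex

/-- the edge to the observed node `v` (`v = 3, 4, 5`) -/
def qE (v : Fin 6) (h : ghzEdge (Sum.inr ()) (Sum.inl v) = true) : QEdge ghzC :=
  ⟨((), Sum.inl v), h⟩

theorem qE_cases (e : QEdge ghzC) : ∃ v h, e = qE v h := by
  obtain ⟨⟨u, v | v⟩, he⟩ := e
  · exact ⟨v, he, rfl⟩
  · exact absurd he (by simp [ghzC, ghzEdge])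

/-- the input of the measurement at `v` -/
def inp (s : Fin 6 → Fin 2) (v : Fin 6) : Fin 2 :=
  if v = 3 then s 0 else if v = 4 then s 1 else if v = 5 then s 2 else 0

theorem inp_dep (v : Fin 6) (s t : Fin 6 → Fin 2)
    (h : ∀ a : Fin 6, ghzEdge (Sum.inl a) (Sum.inl v) = true → s a = t a) : inp s v = inp t v := by
  unfold inp
  split_ifs with h3 h4 h5
  · subst h3
    exact h 0 (by decide)
  · subst h4
    exact h 1 (by decide)
  · subst h5
    exact h 2 (by decide)
  · rfl

/-- the phase of the outcome `b` -/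
noncomputable def ph (v : Fin 6) (s : Fin 6 → Fin 2) (b : Fin 2) : ℂ :=
  (-1) ^ b.val * I ^ (inp s v).val

theorem ph_mul (v : Fin 6) (s : Fin 6 → Fin 2) (b : Fin 2) : ph v s b * star (ph v s b) = 1 := by
  unfold ph
  generalize inp s v = a
  fin_cases a <;> fin_cases b <;> simp

theorem ph_add (v : Fin 6) (s : Fin 6 → Fin 2) : ph v s 0 + ph v s 1 = 0 := by
  unfold ph
  simp

/-- the scalar factor -/
noncomputable def cf (v : Fin 6) (s : Fin 6 → Fin 2) (b : Fin 2) : ℝ :=
  if v = 2 then (if b = s 0 + s 1 then 1 else 0) else 1 / 2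

theorem cf_dep (v : Fin 6) (s t : Fin 6 → Fin 2) (b : Fin 2)
    (h : ∀ a : Fin 6, ghzEdge (Sum.inl a) (Sum.inl v) = true → s a = t a) : cf v s b = cf v t b := by
  unfold cf
  by_cases h2 : v = 2
  · subst h2
    rw [h 0 (by decide), h 1 (by decide)]
  · rw [if_neg h2, if_neg h2]

theorem cf_nonneg (v : Fin 6) (s : Fin 6 → Fin 2) (b : Fin 2) : 0 ≤ cf v s b := by
  unfold cf
  split_ifs <;> norm_num

/-- the vector of the effect -/
noncomputable def vc (v : ghzC.O) (s : Fin 6 → Fin 2) (b : Fin 2)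
    (i : InIdx (C := ghzC) (fun _ => 2) (Sum.inl v)) : ℂ :=
  ∏ e, ph v s b ^ (i e).val

theorem in_empty (v : ghzC.O) (h : ghzEdge (Sum.inr ()) (Sum.inl v) ≠ true) :
    IsEmpty {e : QEdge ghzC // e.1.2 = Sum.inl v} := by
  refine ⟨fun e => ?_⟩
  obtain ⟨e, he⟩ := e
  obtain ⟨v', h', rfl⟩ := qE_cases e
  have : v' = v := Sum.inl.inj he
  subst this
  exact h h'

theorem in_empty' (u : ghzC.U) : IsEmpty {e : QEdge ghzC // e.1.2 = Sum.inr u} := by
  refine ⟨fun e => ?_⟩
  obtain ⟨e, he⟩ := e
  obtain ⟨v', h', rfl⟩ := qE_cases e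
  simp [qE] at he

/-- the only incoming edge -/
@[instance_reducible]
def in_unique (v : ghzC.O) (h : ghzEdge (Sum.inr ()) (Sum.inl v) = true) :
    Unique {e : QEdge ghzC // e.1.2 = Sum.inl v} where
  default := ⟨qE v h, rfl⟩
  uniq e := by
    obtain ⟨e, he⟩ := e
    obtain ⟨v', h', rfl⟩ := qE_cases e
    have : v' = v := Sum.inl.inj he
    subst this
    rfl

/-- the sum over the constant functions -/
theorem sum_const {ι : Type} [Fintype ι] [DecidableEq ι] [Nonempty ι] (F : (ι → Fin 2) → ℂ) :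
    (∑ i : ι → Fin 2, if (∀ e f, i e = i f) then F i else 0) = F (fun _ => 0) + F (fun _ => 1) := by
  rw [← Finset.sum_filter]
  have h : (Finset.univ.filter fun i : ι → Fin 2 => ∀ e f, i e = i f) =
      {(fun _ => 0), (fun _ => 1)} := by
    ext i
    simp only [Finset.mem_filter, Finset.mem_univ, true_and, Finset.mem_insert,
      Finset.mem_singleton]
    constructor
    · intro hi
      obtain ⟨e⟩ := ‹Nonempty ι›
      rcases (show i e = 0 ∨ i e = 1 by generalize i e = a; fin_cases a <;> simp) with h0 | h0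
      · left; funext f; rw [hi f e, h0]
      · right; funext f; rw [hi f e, h0]
    · rintro (rfl | rfl) <;> intro e f <;> rfl
  rw [h, Finset.sum_pair]
  intro h0
  obtain ⟨e⟩ := ‹Nonempty ι›
  have := congrFun h0 e
  simp at this

/-- the effects -/
noncomputable def eff (v : ghzC.O) (s : Fin 6 → Fin 2) (b : Fin 2) :
    Matrix (InIdx (C := ghzC) (fun _ => 2) (Sum.inl v))
      (InIdx (C := ghzC) (fun _ => 2) (Sum.inl v)) ℂ :=
  (cf v s b : ℂ) • Matrix.vecMulVec (vc v s b) (star (vc v s b))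

theorem eff_psd (v : ghzC.O) (s : Fin 6 → Fin 2) (b : Fin 2) : (eff v s b).PosSemidef := by
  unfold eff
  apply (Matrix.posSemidef_vecMulVec_self_star _).smul
  exact_mod_cast cf_nonneg v s b

theorem edge_cases (v : Fin 6) : ghzEdge (Sum.inr ()) (Sum.inl v) = true ↔ v = 3 ∨ v = 4 ∨ v = 5 := by
  revert v
  decide

theorem eff_sum (v : ghzC.O) (s : Fin 6 → Fin 2) : ∑ b, eff v s b = 1 := by
  by_cases h : ghzEdge (Sum.inr ()) (Sum.inl v) = true
  · have hv : ¬ @Eq (Fin 6) v 2 := by
      intro h2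
      have h3 := (edge_cases v).1 h
      revert h2 h3
      generalize (show Fin 6 from v) = v'
      revert v'
      decide
    let _ := in_unique v h
    have key : ∀ p q : Fin 2, (1 / 2 : ℂ) * (ph v s 0 ^ p.val * star (ph v s 0) ^ q.val) +
        (1 / 2 : ℂ) * (ph v s 1 ^ p.val * star (ph v s 1) ^ q.val) = if p = q then 1 else 0 := by
      intro p q
      have h0 := ph_mul v s 0
      have h1 := ph_mul v s 1
      have h2 := ph_add v s
      have h3 : star (ph v s 0) + star (ph v s 1) = 0 := by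
        rw [← star_add, h2, star_zero]
      fin_cases p <;> fin_cases q
      · simp
        norm_num
      · simp only [Fin.zero_eta, pow_zero, one_mul, Fin.mk_one, pow_one]
        rw [← mul_add, h3]
        simp
      · simp only [Fin.zero_eta, pow_zero, mul_one, Fin.mk_one, pow_one]
        rw [← mul_add, h2]
        simp
      · simp only [Fin.mk_one, pow_one]
        rw [h0, h1]
        norm_num
    ext i' i
    rw [Fin.sum_univ_two, Matrix.add_apply, Matrix.one_apply]
    have h4 : ∀ b, eff v s b i' i = (1 / 2 : ℂ) *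
        (ph v s b ^ (i' default).val * star (ph v s b) ^ (i default).val) := by
      intro b
      simp only [eff, vc, cf, if_neg hv, Matrix.smul_apply, Matrix.vecMulVec_apply, Pi.star_apply,
        star_prod, star_pow, smul_eq_mul]
      rw [Fintype.prod_unique, Fintype.prod_unique]
      push_cast
      rfl
    rw [h4, h4, key]
    congr 1
    apply propext
    constructor
    · intro h5
      funext e
      rw [Unique.eq_default e]
      exact h5
    · intro h5
      rw [h5]
  · have := in_empty v h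
    ext i' i
    have hi : i' = i := Subsingleton.elim _ _
    subst hi
    rw [Matrix.sum_apply, Matrix.one_apply_eq]
    have h4 : ∀ b, eff v s b i' i' = (cf v s b : ℂ) := by
      intro b
      simp only [eff, vc, Matrix.smul_apply, Matrix.vecMulVec_apply, Pi.star_apply, smul_eq_mul]
      rw [Fintype.prod_empty]
      simp
    simp only [h4]
    rw [Fin.sum_univ_two]
    unfold cf
    by_cases hv : @Eq (Fin 6) v 2
    · simp only [if_pos hv]
      generalize s 0 + s 1 = a
      fin_cases a <;> simp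
    · simp only [if_neg hv]
      push_cast
      norm_num

theorem eff_dep (v : ghzC.O) (s t : Fin 6 → Fin 2)
    (h : ∀ a : Fin 6, ghzEdge (Sum.inl a) (Sum.inl v) = true → s a = t a) (b : Fin 2) :
    eff v s b = eff v t b := by
  have h1 : vc v s b = vc v t b := by
    unfold vc ph
    rw [inp_dep v s t h]
  unfold eff
  rw [h1, cf_dep v s t b h]

theorem eff_const (v : ghzC.O) (s : Fin 6 → Fin 2) (b p q : Fin 2) :
    eff v s b (fun _ => q) (fun _ => p) = (cf v s b : ℂ) *
      (if ghzEdge (Sum.inr ()) (Sum.inl v) = true then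
        ph v s b ^ q.val * star (ph v s b) ^ p.val else 1) := by
  simp only [eff, vc, Matrix.smul_apply, Matrix.vecMulVec_apply, Pi.star_apply,
    star_prod, star_pow, smul_eq_mul]
  by_cases h : ghzEdge (Sum.inr ()) (Sum.inl v) = true
  · let _ := in_unique v h
    rw [Fintype.prod_unique, Fintype.prod_unique, if_pos h]
  · have := in_empty v h
    rw [Fintype.prod_empty, Fintype.prod_empty, if_neg h, one_mul]

/-- the GHZ state -/
noncomputable def kr (u : ghzC.U) : Matrix (OutIdx (C := ghzC) (fun _ => 2) u)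
    (InIdx (C := ghzC) (fun _ => 2) (Sum.inr u)) ℂ :=
  fun out _ => if ∀ e f, out e = out f then ((1 / √2 : ℝ) : ℂ) else 0

theorem kr_tp (u : ghzC.U) : (kr u).conjTranspose * kr u = 1 := by
  have := in_empty' u
  have hne : Nonempty {e : QEdge ghzC // e.1.1 = u} := ⟨⟨qE 3 (by decide), rfl⟩⟩
  ext i' i
  have hi : i' = i := Subsingleton.elim _ _
  subst hi
  rw [Matrix.one_apply_eq, Matrix.mul_apply]
  simp only [Matrix.conjTranspose_apply]
  have h1 : ∀ out : OutIdx (C := ghzC) (fun _ => 2) u,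
      star (kr u out i') * kr u out i' = if ∀ e f, out e = out f then (1 / 2 : ℂ) else 0 := by
    intro out
    unfold kr
    split_ifs
    · rw [Complex.star_def, Complex.conj_ofReal, ← Complex.ofReal_mul]
      have : (1 / √2 : ℝ) * (1 / √2) = 1 / 2 := by
        rw [div_mul_div_comm, Real.mul_self_sqrt (by norm_num)]
        norm_num
      rw [this]
      push_cast
      rfl
    · simp
  refine (Finset.sum_congr rfl fun out _ => h1 out).trans ?_
  have h5 := sum_const (ι := {e : QEdge ghzC // e.1.1 = u}) (fun _ => (1 / 2 : ℂ))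
  rw [show (1 / 2 : ℂ) + 1 / 2 = 1 by norm_num] at h5
  exact h5

/-- the quantum model of the GHZ distribution -/
noncomputable def ghzModel : QuantumModel ghzC where
  k := fun _ => 2
  k_pos := fun _ => by norm_num
  d := fun _ => 2
  d_pos := fun _ => by norm_num
  r := fun _ => 1
  K := fun u _ _ => kr u
  K_dep := fun _ _ _ _ => rfl
  K_tp := by
    intro u s
    rw [Fin.sum_univ_one]
    exact kr_tp u
  E := fun v s b => eff v s b
  E_dep := fun v s t h => by
    funext b
    exact eff_dep v s t h b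
  E_psd := fun v s b => eff_psd v s b
  E_sum := fun v s => eff_sum v s

theorem prodU (f : ghzC.U → ℂ) : ∏ u, f u = f () := by
  exact Fintype.prod_unique (ι := Unit) f

theorem prodO (f : ghzC.O → ℂ) :
    ∏ v, f v = f (0 : Fin 6) * f (1 : Fin 6) * f (2 : Fin 6) * f (3 : Fin 6) * f (4 : Fin 6) *
      f (5 : Fin 6) := by
  exact Fin.prod_univ_six (M := ℂ) f

theorem kr_mul (i i' : QEdge ghzC → Fin 2) :
    kr () (fun e => i e.1) (fun e => i e.1) * star (kr () (fun e => i' e.1) (fun e => i' e.1)) =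
      if (∀ e f, i e = i f) then (if (∀ e f, i' e = i' f) then (1 / 2 : ℂ) else 0) else 0 := by
  have h : ∀ i : QEdge ghzC → Fin 2,
      (∀ e f : {e : QEdge ghzC // e.1.1 = ()}, i e.1 = i f.1) ↔ ∀ e f, i e = i f := by
    intro i
    exact ⟨fun h e f => h ⟨e, rfl⟩ ⟨f, rfl⟩, fun h e f => h _ _⟩
  unfold kr
  simp only [h]
  have h2 : ((1 / √2 : ℝ) : ℂ) * star ((1 / √2 : ℝ) : ℂ) = 1 / 2 := by
    rw [Complex.star_def, Complex.conj_ofReal, ← Complex.ofReal_mul]
    have : (1 / √2 : ℝ) * (1 / √2) = 1 / 2 := by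
      rw [div_mul_div_comm, Real.mul_self_sqrt (by norm_num)]
      norm_num
    rw [this]
    push_cast
    rfl
  by_cases h3 : ∀ e f, i e = i f <;> by_cases h4 : ∀ e f, i' e = i' f
  · rw [if_pos h3, if_pos h4, if_pos h3, if_pos h4, h2]
  · rw [if_pos h3, if_neg h4, if_pos h3, if_neg h4, star_zero, mul_zero]
  · rw [if_neg h3, if_neg h3, zero_mul]
  · rw [if_neg h3, if_neg h3, zero_mul]

/-- the distribution of the model as a sum of four terms -/
theorem obs_eq (x : Fin 6 → Fin 2) : ghzModel.obs x =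
    ((1 / 2 : ℂ) * ∑ p : Fin 2, ∑ q : Fin 2,
      ∏ v : ghzC.O, eff v x (x v) (fun _ => q) (fun _ => p)).re := by
  unfold QuantumModel.obs
  congr 1
  have hne : Nonempty (QEdge ghzC) := ⟨qE 3 (by decide)⟩
  have h1 : ∀ i i' : QEdge ghzC → Fin 2,
      (∏ u : ghzC.U, (kr u (fun e => i e.1) (fun e => i e.1) *
        star (kr u (fun e => i' e.1) (fun e => i' e.1)))) *
      ∏ v : ghzC.O, eff v x (x v) (fun e => i' e.1) (fun e => i e.1) =
      if (∀ e f, i e = i f) then (if (∀ e f, i' e = i' f) then (1 / 2 : ℂ) *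
        ∏ v : ghzC.O, eff v x (x v) (fun e => i' e.1) (fun e => i e.1) else 0) else 0 := by
    intro i i'
    rw [prodU, kr_mul]
    by_cases h3 : ∀ e f, i e = i f <;> by_cases h4 : ∀ e f, i' e = i' f
    · rw [if_pos h3, if_pos h4, if_pos h3, if_pos h4]
    · rw [if_pos h3, if_neg h4, if_pos h3, if_neg h4, zero_mul]
    · rw [if_neg h3, if_neg h3, zero_mul]
    · rw [if_neg h3, if_neg h3, zero_mul]
  have h2 : (∑ i : QEdge ghzC → Fin 2, ∑ i' : QEdge ghzC → Fin 2,
      (∏ u : ghzC.U, (kr u (fun e => i e.1) (fun e => i e.1) *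
        star (kr u (fun e => i' e.1) (fun e => i' e.1)))) *
      ∏ v : ghzC.O, eff v x (x v) (fun e => i' e.1) (fun e => i e.1)) =
    (1 / 2 : ℂ) * ∑ p : Fin 2, ∑ q : Fin 2,
      ∏ v : ghzC.O, eff v x (x v) (fun _ => q) (fun _ => p) := by
    simp only [h1]
    have h3 : ∀ i : QEdge ghzC → Fin 2, (∑ i' : QEdge ghzC → Fin 2,
        if (∀ e f, i e = i f) then (if (∀ e f, i' e = i' f) then (1 / 2 : ℂ) *
        ∏ v : ghzC.O, eff v x (x v) (fun e => i' e.1) (fun e => i e.1) else 0) else 0) =
        if (∀ e f, i e = i f) then (∑ q : Fin 2, (1 / 2 : ℂ) *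
        ∏ v : ghzC.O, eff v x (x v) (fun _ => q) (fun e => i e.1)) else 0 := by
      intro i
      by_cases h4 : ∀ e f, i e = i f
      · simp only [if_pos h4]
        rw [sum_const, Fin.sum_univ_two]
      · simp only [if_neg h4, Finset.sum_const_zero]
    simp only [h3]
    rw [sum_const]
    simp only [Fin.sum_univ_two]
    ring
  rw [← h2]
  exact Fintype.sum_unique (ι := ∀ _ : ghzC.U, Fin 1) _

theorem final (a b c x y : Fin 2) :
    (((1 / 2 : ℂ) * (1 / 32)) * ((1 + ((-1) ^ a.val * I ^ x.val) * ((-1) ^ b.val * I ^ y.val) *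
        ((-1) ^ c.val * I ^ (x + y).val)) *
      star (1 + ((-1) ^ a.val * I ^ x.val) * ((-1) ^ b.val * I ^ y.val) *
        ((-1) ^ c.val * I ^ (x + y).val)))).re =
    if a + b + c = x + y + x * y then 1 / 16 else 0 := by
  fin_cases a <;> fin_cases b <;> fin_cases c <;> fin_cases x <;> fin_cases y <;>
    simp <;> norm_num

theorem obs_eq_ghz (x : Fin 6 → Fin 2) : ghzModel.obs x = ghzDist x := by
  rw [obs_eq]
  simp only [prodO, eff_const]
  have c0 : cf 0 x (x 0) = 1 / 2 := by simp [cf]
  have c1 : cf 1 x (x 1) = 1 / 2 := by simp [cf]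
  have c2 : cf 2 x (x 2) = if x 2 = x 0 + x 1 then 1 else 0 := by simp [cf]
  have c3 : cf 3 x (x 3) = 1 / 2 := by simp [cf]
  have c4 : cf 4 x (x 4) = 1 / 2 := by simp [cf]
  have c5 : cf 5 x (x 5) = 1 / 2 := by simp [cf]
  have p3 : ph 3 x (x 3) = (-1) ^ (x 3).val * I ^ (x 0).val := by simp [ph, inp]
  have p4 : ph 4 x (x 4) = (-1) ^ (x 4).val * I ^ (x 1).val := by simp [ph, inp]
  have p5 : ph 5 x (x 5) = (-1) ^ (x 5).val * I ^ (x 2).val := by simp [ph, inp]
  simp only [show ghzEdge (Sum.inr ()) (Sum.inl 0) = false by decide,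
    show ghzEdge (Sum.inr ()) (Sum.inl 1) = false by decide,
    show ghzEdge (Sum.inr ()) (Sum.inl 2) = false by decide,
    show ghzEdge (Sum.inr ()) (Sum.inl 3) = true by decide,
    show ghzEdge (Sum.inr ()) (Sum.inl 4) = true by decide,
    show ghzEdge (Sum.inr ()) (Sum.inl 5) = true by decide, c0, c1, c2, c3, c4, c5, if_true,
    Bool.false_eq_true, if_false]
  unfold ghzDist
  by_cases hz : x 2 = x 0 + x 1
  · have h := final (x 3) (x 4) (x 5) (x 0) (x 1)
    rw [← hz] at h
    rw [← p3, ← p4, ← p5] at h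
    simp only [hz, true_and]
    rw [hz] at h
    rw [← h]
    congr 1
    simp only [Fin.sum_univ_two, star_add, star_mul, star_one]
    norm_num
    ring
  · simp [hz]

theorem ghz_mem_quantum :
    (fun S : Idx ghzC => entropy (k := fun _ : Fin 6 => 2) ghzDist S.1) ∈ GammaQ ghzC := by
  refine ⟨ghzModel, ?_⟩
  funext S
  have h : ghzModel.obs = ghzDist := funext obs_eq_ghz
  rw [h]
  rfl

end Pool.Agent.R993.EC
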