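import Pool.Agent.R993.EC.Ghz

/-! The entropies of the GHZ distribution (subtask EC-V, helper374). -/

set_option autoImplicit false

namespace Pool.Agent.R993.EC

open scoped Classical in
/-- the entropy without the labels of the values -/
theorem entropy_free {O : Type} [Fintype O] [DecidableEq O] {k : O → ℕ}
    (P : (∀ a, Fin (k a)) → ℝ) (S : Finset O) :
    entropy P S = -∑ x, P x * Real.logb 2 (∑ y : (∀ a, Fin (k a)),
      if (∀ a ∈ S, y a = x a) then P y else 0) := by
  unfold entropy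
  congr 1
  have h1 : ∀ t : (∀ a : S, Fin (k a)), marginal P S t * Real.logb 2 (marginal P S t) =
      ∑ x : (∀ a, Fin (k a)), if (fun a : S => x a) = t then
        P x * Real.logb 2 (marginal P S (fun a : S => x a)) else 0 := by
    intro t
    conv_lhs => enter [1]; unfold marginal
    rw [Finset.sum_mul]
    refine Finset.sum_congr rfl fun x _ => ?_
    split_ifs with h
    · rw [h]
    · rw [zero_mul]
  rw [Finset.sum_congr rfl fun t _ => h1 t, Finset.sum_comm]
  refine Finset.sum_congr rfl fun x _ => ?_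
  rw [Finset.sum_ite_eq]
  simp only [Finset.mem_univ, if_true]
  congr 2
  unfold marginal
  refine Finset.sum_congr rfl fun y _ => ?_
  have : ((fun a : S => y a) = fun a : S => x a) ↔ ∀ a ∈ S, y a = x a := by
    rw [funext_iff]
    exact ⟨fun h a ha => h ⟨a, ha⟩, fun h a => h a a.2⟩
  by_cases h : (∀ a ∈ S, y a = x a)
  · rw [if_pos h, if_pos (this.2 h)]
  · rw [if_neg h, if_neg (fun h' => h (this.1 h'))]

/-- the support of the GHZ distribution -/
def Good (x : Fin 6 → Fin 2) : Prop :=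
  x 2 = x 0 + x 1 ∧ x 3 + x 4 + x 5 = x 0 + x 1 + x 0 * x 1

instance : DecidablePred Good := fun x =>
  inferInstanceAs (Decidable (x 2 = x 0 + x 1 ∧ x 3 + x 4 + x 5 = x 0 + x 1 + x 0 * x 1))

/-- the number of points of the support which agree with `x` on `S` -/
def cnt (S : Finset (Fin 6)) (x : Fin 6 → Fin 2) : ℕ :=
  (Finset.univ.filter fun y : Fin 6 → Fin 2 => (∀ a ∈ S, y a = x a) ∧ Good y).card

theorem ghzDist_eq (x : Fin 6 → Fin 2) : ghzDist x = if Good x then 1 / 16 else 0 := rfl

theorem h_eq (S : Finset (Fin 6)) : entropy (k := fun _ : Fin 6 => 2) ghzDist S =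
    -∑ x ∈ Finset.univ.filter Good, (1 / 16 : ℝ) * Real.logb 2 (cnt S x / 16) := by
  rw [entropy_free, Finset.sum_filter]
  congr 1
  refine Finset.sum_congr rfl fun x _ => ?_
  have h1 : (∑ y : Fin 6 → Fin 2, if (∀ a ∈ S, y a = x a) then ghzDist y else 0) =
      (cnt S x : ℝ) / 16 := by
    unfold cnt
    rw [Finset.card_filter]
    push_cast
    rw [Finset.sum_div]
    refine Finset.sum_congr rfl fun y _ => ?_
    rw [ghzDist_eq]
    by_cases h : (∀ a ∈ S, y a = x a)
    · by_cases h' : Good y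
      · rw [if_pos h, if_pos h', if_pos ⟨h, h'⟩]
      · rw [if_pos h, if_neg h', if_neg (fun h2 => h' h2.2), zero_div]
    · rw [if_neg h, if_neg (fun h2 => h h2.1), zero_div]
  rw [ghzDist_eq]
  by_cases hx : Good x
  · rw [if_pos hx, if_pos hx]
    congr 2
    rw [← h1]
    refine Finset.sum_congr rfl fun y _ => ?_
    by_cases h : (∀ a ∈ S, y a = x a)
    · rw [if_pos h, if_pos h]
    · rw [if_neg h, if_neg h]
  · rw [if_neg hx, if_neg hx, zero_mul]

theorem card_good : (Finset.univ.filter Good).card = 16 := by decide +kernel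

/-- the case of a uniform marginal -/
theorem uni (S : Finset (Fin 6)) (c : ℕ) (hc : ∀ x, Good x → cnt S x = c) :
    entropy (k := fun _ : Fin 6 => 2) ghzDist S = -Real.logb 2 (c / 16) := by
  rw [h_eq]
  congr 1
  rw [Finset.sum_congr rfl fun x hx => by rw [hc x (Finset.mem_filter.1 hx).2],
    Finset.sum_const, card_good]
  simp only [nsmul_eq_mul]
  ring

theorem log8 : -Real.logb 2 ((8 : ℕ) / 16) = 1 := by
  have : ((8 : ℕ) : ℝ) / 16 = 2 ^ (-1 : ℝ) := by
    rw [Real.rpow_neg_one]; norm_num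
  rw [this, Real.logb_rpow (by norm_num) (by norm_num)]
  norm_num

theorem log4 : -Real.logb 2 ((4 : ℕ) / 16) = 2 := by
  have : ((4 : ℕ) : ℝ) / 16 = 2 ^ (-2 : ℝ) := by
    rw [Real.rpow_neg (by norm_num)]; norm_num
  rw [this, Real.logb_rpow (by norm_num) (by norm_num)]
  norm_num

theorem log1 : -Real.logb 2 ((1 : ℕ) / 16) = 4 := by
  have : ((1 : ℕ) : ℝ) / 16 = 2 ^ (-4 : ℝ) := by
    rw [Real.rpow_neg (by norm_num)]; norm_num
  rw [this, Real.logb_rpow (by norm_num) (by norm_num)]
  norm_num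

theorem h_0 : entropy (k := fun _ : Fin 6 => 2) ghzDist {0} = 1 := by
  rw [uni {0} 8 (by decide +kernel), log8]

theorem h_1 : entropy (k := fun _ : Fin 6 => 2) ghzDist {1} = 1 := by
  rw [uni {1} 8 (by decide +kernel), log8]

theorem h_2 : entropy (k := fun _ : Fin 6 => 2) ghzDist {2} = 1 := by
  rw [uni {2} 8 (by decide +kernel), log8]

theorem h_3 : entropy (k := fun _ : Fin 6 => 2) ghzDist {3} = 1 := by
  rw [uni {3} 8 (by decide +kernel), log8]

theorem h_4 : entropy (k := fun _ : Fin 6 => 2) ghzDist {4} = 1 := by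
  rw [uni {4} 8 (by decide +kernel), log8]

theorem h_5 : entropy (k := fun _ : Fin 6 => 2) ghzDist {5} = 1 := by
  rw [uni {5} 8 (by decide +kernel), log8]

theorem h_01 : entropy (k := fun _ : Fin 6 => 2) ghzDist {0, 1} = 2 := by
  rw [uni {0, 1} 4 (by decide +kernel), log4]

theorem h_02 : entropy (k := fun _ : Fin 6 => 2) ghzDist {0, 2} = 2 := by
  rw [uni {0, 2} 4 (by decide +kernel), log4]

theorem h_12 : entropy (k := fun _ : Fin 6 => 2) ghzDist {1, 2} = 2 := by
  rw [uni {1, 2} 4 (by decide +kernel), log4]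

theorem h_012 : entropy (k := fun _ : Fin 6 => 2) ghzDist {0, 1, 2} = 2 := by
  rw [uni {0, 1, 2} 4 (by decide +kernel), log4]

theorem h_34 : entropy (k := fun _ : Fin 6 => 2) ghzDist {3, 4} = 2 := by
  rw [uni {3, 4} 4 (by decide +kernel), log4]

theorem h_35 : entropy (k := fun _ : Fin 6 => 2) ghzDist {3, 5} = 2 := by
  rw [uni {3, 5} 4 (by decide +kernel), log4]

theorem h_45 : entropy (k := fun _ : Fin 6 => 2) ghzDist {4, 5} = 2 := by
  rw [uni {4, 5} 4 (by decide +kernel), log4]

theorem h_0134 : entropy (k := fun _ : Fin 6 => 2) ghzDist {0, 1, 3, 4} = 4 := by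
  rw [uni {0, 1, 3, 4} 1 (by decide +kernel), log1]

theorem h_0135 : entropy (k := fun _ : Fin 6 => 2) ghzDist {0, 1, 3, 5} = 4 := by
  rw [uni {0, 1, 3, 5} 1 (by decide +kernel), log1]

theorem h_0145 : entropy (k := fun _ : Fin 6 => 2) ghzDist {0, 1, 4, 5} = 4 := by
  rw [uni {0, 1, 4, 5} 1 (by decide +kernel), log1]

theorem h_01345 : entropy (k := fun _ : Fin 6 => 2) ghzDist {0, 1, 3, 4, 5} = 4 := by
  rw [uni {0, 1, 3, 4, 5} 1 (by decide +kernel), log1]

theorem cnt_345 : ∀ x, Good x → cnt {3, 4, 5} x = if x 3 + x 4 + x 5 = 0 then 1 else 3 := by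
  decide +kernel

theorem card_345 : ((Finset.univ.filter Good).filter fun x => x 3 + x 4 + x 5 = 0).card = 4 ∧
    ((Finset.univ.filter Good).filter fun x => ¬ x 3 + x 4 + x 5 = 0).card = 12 := by
  decide +kernel

theorem h_345 : entropy (k := fun _ : Fin 6 => 2) ghzDist {3, 4, 5} =
    4 - (3 / 4) * Real.logb 2 3 := by
  rw [h_eq]
  have h1 : ∀ x ∈ Finset.univ.filter Good, (1 / 16 : ℝ) * Real.logb 2 (cnt {3, 4, 5} x / 16) =
      if x 3 + x 4 + x 5 = 0 then -(1 / 4) else (1 / 16) * (Real.logb 2 3 - 4) := by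
    intro x hx
    rw [cnt_345 x (Finset.mem_filter.1 hx).2]
    have h16 : Real.logb 2 16 = 4 := by
      have : (16 : ℝ) = 2 ^ (4 : ℝ) := by norm_num
      rw [this, Real.logb_rpow (by norm_num) (by norm_num)]
    split_ifs with h
    · have := log1
      push_cast at this ⊢
      linarith
    · push_cast
      rw [Real.logb_div (by norm_num) (by norm_num), h16]
  rw [Finset.sum_congr rfl h1, Finset.sum_ite, Finset.sum_const, Finset.sum_const,
    card_345.1, card_345.2]
  simp only [nsmul_eq_mul]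
  push_cast
  ring

end Pool.Agent.R993.EC
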