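import Pool.Agent.R993.EC.Stage4
import Pool.Agent.R993.EC.Classical
import Pool.Agent.R993.EC.Quantum
import Pool.Agent.R993.EC.Values

/-! The entropy vector of the GHZ distribution is not a limit of classical ones. -/

set_option autoImplicit false

open Filter Topology

namespace Pool.Agent.R993.EC

/-- bits and nats -/
theorem entropy_mul_log {k : Fin 6 → ℕ} (P : Pt k → ℝ) (S : Finset (Fin 6)) :
    entropy P S * Real.log 2 = HS P S := by
  classical
  unfold HS
  rw [entropy_free, Hs_free, neg_mul, Finset.sum_mul]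
  congr 1
  refine Finset.sum_congr rfl fun x _ => ?_
  have h1 : (∑ y : Pt k, if (∀ a ∈ S, y a = x a) then P y else 0) =
      pr P (restr S) (restr S x) := by
    unfold pr
    refine Finset.sum_congr rfl fun y _ => ?_
    by_cases h : ∀ a ∈ S, y a = x a
    · rw [if_pos h, if_pos (restr_eq.2 h)]
    · rw [if_neg h, if_neg fun h' => h (restr_eq.1 h')]
  rw [← h1, mul_assoc, Real.logb, div_mul_cancel₀]
  · have h2 : ∀ A B : ℝ, A = B → P x * Real.log A = P x * Real.log B := fun A B h => by rw [h]
    refine h2 _ _ (Finset.sum_congr rfl fun y _ => ?_)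
    by_cases h : ∀ a ∈ S, y a = x a
    · rw [if_pos h, if_pos h]
    · rw [if_neg h, if_neg h]
  · exact (Real.log_pos one_lt_two).ne'

/-- the limits of the entropies -/
noncomputable def ghzH (S : Finset (Fin 6)) : ℝ :=
  if S.Nonempty then entropy (k := fun _ : Fin 6 => 2) ghzDist S * Real.log 2 else 0

theorem ghzH_of {S : Finset (Fin 6)} (hS : S.Nonempty) :
    ghzH S = entropy (k := fun _ : Fin 6 => 2) ghzDist S * Real.log 2 := if_pos hS

theorem ghz_GV : GV ghzH where
  e := if_neg (by simp)
  s := fun i => by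
    rw [ghzH_of (Finset.singleton_nonempty i)]
    fin_cases i
    · exact (congrArg (· * Real.log 2) h_0).trans (one_mul _)
    · exact (congrArg (· * Real.log 2) h_1).trans (one_mul _)
    · exact (congrArg (· * Real.log 2) h_2).trans (one_mul _)
    · exact (congrArg (· * Real.log 2) h_3).trans (one_mul _)
    · exact (congrArg (· * Real.log 2) h_4).trans (one_mul _)
    · exact (congrArg (· * Real.log 2) h_5).trans (one_mul _)
  p01 := by rw [ghzH_of (by simp), h_01]
  p02 := by rw [ghzH_of (by simp), h_02]
  p12 := by rw [ghzH_of (by simp), h_12]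
  t012 := by rw [ghzH_of (by simp), h_012]
  p34 := by rw [ghzH_of (by simp), h_34]
  p35 := by rw [ghzH_of (by simp), h_35]
  p45 := by rw [ghzH_of (by simp), h_45]
  q0134 := by rw [ghzH_of (by simp), h_0134]
  q0135 := by rw [ghzH_of (by simp), h_0135]
  q0145 := by rw [ghzH_of (by simp), h_0145]
  q01345 := by rw [ghzH_of (by simp), h_01345]
  t345 := by
    rw [ghzH_of (by simp), h_345, sub_mul, mul_assoc, Real.logb, div_mul_cancel₀]
    exact (Real.log_pos one_lt_two).ne'

theorem ghz_not_mem :
    (fun S : Idx ghzC => entropy (k := fun _ : Fin 6 => 2) ghzDist S.1) ∉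
      closure (GammaC ghzC) := by
  intro h
  obtain ⟨u, hu, hlim⟩ := mem_closure_iff_seq_limit.1 h
  choose M hM using hu
  have h1 : ∀ S : Finset (Fin 6), S.Nonempty →
      Tendsto (fun n => HS (k := fun a => (M n).k (Sum.inl a)) (M n).obs S) atTop
        (𝓝 (ghzH S)) := by
    intro S hS
    have h2 := (tendsto_pi_nhds.1 hlim) (⟨S, hS⟩ : Idx ghzC)
    have h3 := h2.mul_const (Real.log 2)
    rw [ghzH_of hS]
    refine h3.congr fun n => ?_
    rw [hM n]
    exact entropy_mul_log (k := fun a => (M n).k (Sum.inl a)) (M n).obs S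
  have hL : ∀ n, LHV (k := fun a => (M n).k (Sum.inl a)) (M n).obs := fun n => lhv_of_model (M n)
  refine main_contra (k := fun n a => (M n).k (Sum.inl a)) (P := fun n => (M n).obs)
    (𝒰 := hyperfilter ℕ) hL (hv := ghzH) (fun S => ?_) ghz_GV
  rcases S.eq_empty_or_nonempty with rfl | hS
  · rw [ghz_GV.e]
    refine tendsto_const_nhds.congr fun n => ?_
    exact (HS_empty (hL n).sum_one).symm
  · exact (h1 S hS).mono_left Nat.hyperfilter_le_atTop

theorem main : ∃ C : CausalStructure, closure (GammaC C) ≠ closure (GammaQ C) := by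
  refine ⟨ghzC, fun h => ghz_not_mem ?_⟩
  rw [h]
  exact subset_closure ghz_mem_quantum

end Pool.Agent.R993.EC
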