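import Pool.Agent.R993.EC.Defs

/-! The causal structure of the GHZ experiment: the observed nodes are `X = 0`, `Y = 1`,
`Z = 2` (a child of `X` and `Y`), `A = 3`, `B = 4`, `C = 5` (children of `X`, `Y`, `Z`
respectively), and the unobserved node is a parent of `A`, `B`, `C`. -/

set_option autoImplicit false

namespace Pool.Agent.R993.EC

/-- the edges of the structure -/
def ghzEdge : Fin 6 ⊕ Unit → Fin 6 ⊕ Unit → Bool
  | Sum.inl a, Sum.inl b =>
      (a = 0 ∧ b = 2) ∨ (a = 1 ∧ b = 2) ∨ (a = 0 ∧ b = 3) ∨ (a = 1 ∧ b = 4) ∨ (a = 2 ∧ b = 5)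
  | Sum.inr _, Sum.inl b => b = 3 ∨ b = 4 ∨ b = 5
  | _, Sum.inr _ => false

/-- a rank function which increases along the edges -/
def ghzRank : Fin 6 ⊕ Unit → ℕ
  | Sum.inl a => a.val + 1
  | Sum.inr _ => 0

theorem ghzRank_lt (a b : Fin 6 ⊕ Unit) (h : ghzEdge a b = true) : ghzRank a < ghzRank b := by
  revert a b
  decide

theorem ghz_acyclic (a : Fin 6 ⊕ Unit) :
    ¬ Relation.TransGen (fun a b => ghzEdge a b = true) a a := by
  have key : ∀ a b, Relation.TransGen (fun a b => ghzEdge a b = true) a b →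
      ghzRank a < ghzRank b := by
    intro a b h
    induction h with
    | single h => exact ghzRank_lt _ _ h
    | tail _ h ih => exact ih.trans (ghzRank_lt _ _ h)
  exact fun h => lt_irrefl _ (key a a h)

/-- the causal structure of the GHZ experiment -/
def ghzC : CausalStructure where
  O := Fin 6
  U := Unit
  edge a b := ghzEdge a b = true
  acyclic := ghz_acyclic

/-- the distribution of the GHZ experiment: `X` and `Y` are independent uniform bits,
`Z = X + Y`, and `(A, B, C)` is uniform on the triples with `A + B + C = X ∨ Y` -/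
noncomputable def ghzDist (x : Fin 6 → Fin 2) : ℝ :=
  if x 2 = x 0 + x 1 ∧ x 3 + x 4 + x 5 = x 0 + x 1 + x 0 * x 1 then 1 / 16 else 0

end Pool.Agent.R993.EC
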