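import Pool.Agent.R993.EC.Lim

/-! Heavy values and the Latin squares which they form. -/

set_option autoImplicit false

open Filter Topology

namespace Pool.Agent.R993.EC

section
variable {k : Fin 6 → ℕ}

/-- the probability of the value `v` of the node `o` -/
noncomputable def w1 (P : Pt k → ℝ) (o : Fin 6) (v : Fin (k o)) : ℝ :=
  pr P (fun x => x o) v

theorem w_single (P : Pt k → ℝ) (o : Fin 6) (t : Pt k) :
    w P {o} t = w1 P o (t o) := by
  symm
  refine pr_eq_w (fun x : Pt k => x o) t fun x => ?_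
  simp

theorem w1_nonneg {P : Pt k → ℝ} (hP : ∀ x, 0 ≤ P x) (o : Fin 6) (v : Fin (k o)) :
    0 ≤ w1 P o v := pr_nonneg hP _ _

theorem w1_set {P : Pt k → ℝ} (hP : ∀ x, 0 ≤ P x) (hP1 : ∑ x, P x = 1) (o : Fin 6)
    (A : Finset (Fin (k o))) : ∑ v ∈ A, w1 P o v ≤ 1 := by
  have h1 : ∑ v, w1 P o v = 1 := by
    rw [← hP1]
    exact sum_pr P fun x : Pt k => x o
  rw [← h1]
  exact Finset.sum_le_sum_of_subset_of_nonneg (Finset.subset_univ _)
    fun v _ _ => w1_nonneg hP o v

theorem w1_le_one {P : Pt k → ℝ} (hP : ∀ x, 0 ≤ P x) (hP1 : ∑ x, P x = 1) (o : Fin 6)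
    (v : Fin (k o)) : w1 P o v ≤ 1 := by
  simpa using w1_set hP hP1 o {v}

theorem w1_two {P : Pt k → ℝ} (hP : ∀ x, 0 ≤ P x) (hP1 : ∑ x, P x = 1) (o : Fin 6)
    {u v : Fin (k o)} (h : u ≠ v) : w1 P o u + w1 P o v ≤ 1 := by
  have := w1_set hP hP1 o {u, v}
  rwa [Finset.sum_pair h] at this

theorem w1_three {P : Pt k → ℝ} (hP : ∀ x, 0 ≤ P x) (hP1 : ∑ x, P x = 1) (o : Fin 6)
    {u v x : Fin (k o)} (h : u ≠ v) (h' : u ≠ x) (h'' : v ≠ x) :
    w1 P o u + (w1 P o v + w1 P o x) ≤ 1 := by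
  have := w1_set hP hP1 o {u, v, x}
  rwa [Finset.sum_insert (by simp [h, h']), Finset.sum_pair h''] at this

end

/-- the entropy equalities used for the triple `o1, o2, o3` relative to `E` -/
structure Lat (hv : Finset (Fin 6) → ℝ) (E : Finset (Fin 6)) (o1 o2 o3 : Fin 6) : Prop where
  f12 : hv (insert o3 (E ∪ ({o1} ∪ {o2}))) = hv (E ∪ ({o1} ∪ {o2}))
  f13 : hv (insert o3 (E ∪ ({o1} ∪ {o2}))) = hv (E ∪ ({o1} ∪ {o3}))
  f23 : hv (insert o3 (E ∪ ({o1} ∪ {o2}))) = hv (E ∪ ({o2} ∪ {o3}))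
  i12 : hv E + hv ({o1} ∪ {o2}) = hv (E ∪ ({o1} ∪ {o2}))
  i13 : hv E + hv ({o1} ∪ {o3}) = hv (E ∪ ({o1} ∪ {o3}))
  i23 : hv E + hv ({o2} ∪ {o3}) = hv (E ∪ ({o2} ∪ {o3}))
  j12 : hv {o1} + hv {o2} = hv ({o1} ∪ {o2})
  j13 : hv {o1} + hv {o3} = hv ({o1} ∪ {o3})
  j23 : hv {o2} + hv {o3} = hv ({o2} ∪ {o3})
  n1 : o1 ∉ E
  n2 : o2 ∉ E
  n3 : o3 ∉ E
  n12 : o1 ≠ o2
  n13 : o1 ≠ o3
  n23 : o2 ≠ o3

section
variable {k : ℕ → Fin 6 → ℕ} {P : ∀ n, Pt (k n) → ℝ} {𝒰 : Ultrafilter ℕ}
  (hP : ∀ n x, 0 ≤ P n x) (hP1 : ∀ n, ∑ x, P n x = 1) {hv : Finset (Fin 6) → ℝ}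
  (hlim : ∀ S, Tendsto (fun n => HS (P n) S) 𝒰 (𝓝 (hv S)))

include hP hlim in
theorem det_lim' {S T : Finset (Fin 6)} (hST : S ⊆ T) (hH : hv T = hv S)
    (t : ∀ n, Pt (k n)) {c : ℝ}
    (hc : 0 < c) (hT : Tendsto (fun n => w (P n) T (t n)) 𝒰 (𝓝 c)) :
    Tendsto (fun n => w (P n) S (t n)) 𝒰 (𝓝 c) := by
  refine det_lim hP hST ?_ t hc hT
  have := (hlim T).sub (hlim S)
  rwa [hH, sub_self] at this

include hP hlim in
theorem exmax_lim' {S : Finset (Fin 6)} {o : Fin 6} (ho : o ∉ S) (hH : hv (insert o S) = hv S)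
    (t : ∀ n, Pt (k n))
    {c : ℝ} (hc : 0 < c) (hS : Tendsto (fun n => w (P n) S (t n)) 𝒰 (𝓝 c)) :
    ∃ v : ∀ n, Fin (k n o),
      Tendsto (fun n => w (P n) (insert o S) (Function.update (t n) o (v n))) 𝒰 (𝓝 c) := by
  refine exmax_lim hP ho ?_ t hc hS
  have := (hlim (insert o S)).sub (hlim S)
  rwa [hH, sub_self] at this

include hP hP1 hlim in
theorem ind_lim' {S T : Finset (Fin 6)} (hH : hv S + hv T = hv (S ∪ T))
    (t : ∀ n, Pt (k n)) {a b : ℝ} (ha : Tendsto (fun n => w (P n) S (t n)) 𝒰 (𝓝 a))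
    (hb : Tendsto (fun n => w (P n) T (t n)) 𝒰 (𝓝 b)) :
    Tendsto (fun n => w (P n) (S ∪ T) (t n)) 𝒰 (𝓝 (a * b)) := by
  refine ind_lim hP hP1 ?_ t ha hb
  have := ((hlim S).add (hlim T)).sub (hlim (S ∪ T))
  rwa [hH, sub_self] at this

include hP hP1 hlim in
/-- heavy atoms of `o1` and `o2` -/
theorem latin {E : Finset (Fin 6)} {o1 o2 o3 : Fin 6} (L : Lat hv E o1 o2 o3)
    (t : ∀ n, Pt (k n)) {e p q : ℝ} (he : 0 < e) (hp : 0 < p) (hq : 0 < q)
    (hE : Tendsto (fun n => w (P n) E (t n)) 𝒰 (𝓝 e))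
    (h1 : Tendsto (fun n => w1 (P n) o1 (t n o1)) 𝒰 (𝓝 p))
    (h2 : Tendsto (fun n => w1 (P n) o2 (t n o2)) 𝒰 (𝓝 q)) :
    p = q ∧ ∃ v : ∀ n, Fin (k n o3), Tendsto (fun n => w1 (P n) o3 (v n)) 𝒰 (𝓝 p) ∧
      Tendsto (fun n => w (P n) (insert o3 (E ∪ ({o1} ∪ {o2})))
        (Function.update (t n) o3 (v n))) 𝒰 (𝓝 (e * (p * q))) := by
  have hpos : 0 < e * (p * q) := by positivity
  have h1' : Tendsto (fun n => w (P n) {o1} (t n)) 𝒰 (𝓝 p) := by
    simpa only [w_single] using h1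
  have h2' : Tendsto (fun n => w (P n) {o2} (t n)) 𝒰 (𝓝 q) := by
    simpa only [w_single] using h2
  have h3 := ind_lim' hP hP1 hlim L.i12 t hE (ind_lim' hP hP1 hlim L.j12 t h1' h2')
  have ho3 : o3 ∉ E ∪ ({o1} ∪ {o2}) := by
    simp only [Finset.mem_union, Finset.mem_singleton, not_or]
    exact ⟨L.n3, L.n13.symm, L.n23.symm⟩
  obtain ⟨v, hv'⟩ := exmax_lim' hP hlim ho3 L.f12 t hpos h3
  set t' : ∀ n, Pt (k n) := fun n => Function.update (t n) o3 (v n) with ht'
  have hne : ∀ n a, a ≠ o3 → t n a = t' n a := fun n a h => by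
    simp only [ht', Function.update_of_ne h]
  obtain ⟨c, hc0, hc1, hc⟩ := exists_lim 𝒰 (fun n => w1 (P n) o3 (v n))
    (fun n => w1_nonneg (hP n) _ _) (fun n => w1_le_one (hP n) (hP1 n) _ _)
  have hc' : Tendsto (fun n => w (P n) {o3} (t' n)) 𝒰 (𝓝 c) := by
    simp only [w_single]
    simpa only [ht', Function.update_self] using hc
  have hE' : Tendsto (fun n => w (P n) E (t' n)) 𝒰 (𝓝 e) := by
    refine hE.congr fun n => w_congr fun a ha => hne n a ?_
    exact fun h => L.n3 (h ▸ ha)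
  have h1'' : Tendsto (fun n => w (P n) {o1} (t' n)) 𝒰 (𝓝 p) := by
    refine h1'.congr fun n => w_congr fun a ha => hne n a ?_
    rw [Finset.mem_singleton.1 ha]
    exact L.n13
  have h2'' : Tendsto (fun n => w (P n) {o2} (t' n)) 𝒰 (𝓝 q) := by
    refine h2'.congr fun n => w_congr fun a ha => hne n a ?_
    rw [Finset.mem_singleton.1 ha]
    exact L.n23
  have h13 := ind_lim' hP hP1 hlim L.i13 t' hE' (ind_lim' hP hP1 hlim L.j13 t' h1'' hc')
  have h23 := ind_lim' hP hP1 hlim L.i23 t' hE' (ind_lim' hP hP1 hlim L.j23 t' h2'' hc')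
  have s13 : E ∪ ({o1} ∪ {o3}) ⊆ insert o3 (E ∪ ({o1} ∪ {o2})) := by
    intro a
    simp only [Finset.mem_union, Finset.mem_insert, Finset.mem_singleton]
    tauto
  have s23 : E ∪ ({o2} ∪ {o3}) ⊆ insert o3 (E ∪ ({o1} ∪ {o2})) := by
    intro a
    simp only [Finset.mem_union, Finset.mem_insert, Finset.mem_singleton]
    tauto
  have g13 := det_lim' hP hlim s13 L.f13 t' hpos hv'
  have g23 := det_lim' hP hlim s23 L.f23 t' hpos hv'
  have e13 := tendsto_nhds_unique g13 h13
  have e23 := tendsto_nhds_unique g23 h23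
  have hqc : q = c := by
    have : e * p * (q - c) = 0 := by linarith
    rcases mul_eq_zero.1 this with h | h
    · exact absurd h (by positivity)
    · linarith
  have hpc : p = c := by
    have : e * q * (p - c) = 0 := by linarith
    rcases mul_eq_zero.1 this with h | h
    · exact absurd h (by positivity)
    · linarith
  refine ⟨hpc.trans hqc.symm, v, ?_, hv'⟩
  rw [hpc]
  exact hc

include hP hP1 in
theorem third {o : Fin 6} {u v x : ∀ n, Fin (k n o)}
    (hu : Tendsto (fun n => w1 (P n) o (u n)) 𝒰 (𝓝 (1 / 2)))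
    (hv : Tendsto (fun n => w1 (P n) o (v n)) 𝒰 (𝓝 (1 / 2)))
    (hx : Tendsto (fun n => w1 (P n) o (x n)) 𝒰 (𝓝 (1 / 2)))
    (huv : ∀ᶠ n in (𝒰 : Filter ℕ), u n ≠ v n) (hux : ∀ᶠ n in (𝒰 : Filter ℕ), u n ≠ x n) :
    ∀ᶠ n in (𝒰 : Filter ℕ), v n = x n := by
  by_contra hcon
  have h := Ultrafilter.eventually_not.2 hcon
  have h1 : ∀ᶠ n in (𝒰 : Filter ℕ),
      w1 (P n) o (u n) + (w1 (P n) o (v n) + w1 (P n) o (x n)) ≤ 1 := by
    filter_upwards [huv, hux, h] with n h1 h2 h3
    exact w1_three (hP n) (hP1 n) o h1 h2 h3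
  have h2 := le_of_tendsto (hu.add (hv.add hx)) h1
  norm_num at h2

/-- the point with the values `a, b, c` of `o1, o2, o3` -/
def upd3 {k : Fin 6 → ℕ} (t : Pt k) {o1 o2 o3 : Fin 6} (a : Fin (k o1)) (b : Fin (k o2))
    (c : Fin (k o3)) : Pt k :=
  Function.update (Function.update (Function.update t o1 a) o2 b) o3 c

/-- two values of `o`, of asymptotic probability `1 / 2` -/
structure Two (k : ℕ → Fin 6 → ℕ) (P : ∀ n, Pt (k n) → ℝ) (𝒰 : Ultrafilter ℕ) (o : Fin 6)
    (a : Fin 2 → ∀ n, Fin (k n o)) : Prop where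
  lim : ∀ i, Tendsto (fun n => w1 (P n) o (a i n)) 𝒰 (𝓝 (1 / 2))
  ne : ∀ᶠ n in (𝒰 : Filter ℕ), a 0 n ≠ a 1 n

include hP hP1 hlim in
theorem square {E : Finset (Fin 6)} {o1 o2 o3 : Fin 6} (L : Lat hv E o1 o2 o3)
    (t : ∀ n, Pt (k n)) {e : ℝ} (he : 0 < e)
    (hE : Tendsto (fun n => w (P n) E (t n)) 𝒰 (𝓝 e))
    {a : Fin 2 → ∀ n, Fin (k n o1)} {b : Fin 2 → ∀ n, Fin (k n o2)}
    (ha : Two k P 𝒰 o1 a) (hb : Two k P 𝒰 o2 b) :
    ∃ c : Fin 2 → ∀ n, Fin (k n o3), Two k P 𝒰 o3 c ∧ ∀ l m,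
      Tendsto (fun n => w (P n) (insert o3 (E ∪ ({o1} ∪ {o2})))
        (upd3 (t n) (a l n) (b m n) (c (l + m) n))) 𝒰 (𝓝 (e / 4)) := by
  have hex : ∀ l m, ∃ v : ∀ n, Fin (k n o3),
      Tendsto (fun n => w1 (P n) o3 (v n)) 𝒰 (𝓝 (1 / 2)) ∧
      Tendsto (fun n => w (P n) (insert o3 (E ∪ ({o1} ∪ {o2})))
        (upd3 (t n) (a l n) (b m n) (v n))) 𝒰 (𝓝 (e / 4)) := by
    intro l m
    have hE' : Tendsto (fun n => w (P n) E
        (Function.update (Function.update (t n) o1 (a l n)) o2 (b m n))) 𝒰 (𝓝 e) := by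
      refine hE.congr fun n => w_congr fun x hx => ?_
      rw [Function.update_of_ne, Function.update_of_ne]
      · exact fun h => L.n1 (h ▸ hx)
      · exact fun h => L.n2 (h ▸ hx)
    obtain ⟨-, v, h1, h2⟩ := latin hP hP1 hlim L
      (fun n => Function.update (Function.update (t n) o1 (a l n)) o2 (b m n))
      (e := e) (p := 1 / 2) (q := 1 / 2) he (by norm_num) (by norm_num) hE'
      (by simpa only [Function.update_of_ne L.n12, Function.update_self] using ha.lim l)
      (by simpa only [Function.update_self] using hb.lim m)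
    refine ⟨v, h1, ?_⟩
    have h3 : e / 4 = e * (1 / 2 * (1 / 2)) := by ring
    rw [h3]
    exact h2
  choose c hc1 hc2 using hex
  have s13 : E ∪ ({o1} ∪ {o3}) ⊆ insert o3 (E ∪ ({o1} ∪ {o2})) := by
    intro a
    simp only [Finset.mem_union, Finset.mem_insert, Finset.mem_singleton]
    tauto
  have s23 : E ∪ ({o2} ∪ {o3}) ⊆ insert o3 (E ∪ ({o1} ∪ {o2})) := by
    intro a
    simp only [Finset.mem_union, Finset.mem_insert, Finset.mem_singleton]
    tauto
  -- distinct in the rows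
  have hrow : ∀ l, ∀ᶠ n in (𝒰 : Filter ℕ), c l 0 n ≠ c l 1 n := by
    intro l
    refine Ultrafilter.eventually_not.2 fun hcon => ?_
    have g := det_lim' hP hlim s13 L.f13 _ (by positivity) (hc2 l 0)
    have h1 : ∀ᶠ n in (𝒰 : Filter ℕ),
        w (P n) (insert o3 (E ∪ ({o1} ∪ {o2}))) (upd3 (t n) (a l n) (b 0 n) (c l 0 n)) +
        w (P n) (insert o3 (E ∪ ({o1} ∪ {o2}))) (upd3 (t n) (a l n) (b 1 n) (c l 1 n)) ≤
        w (P n) (E ∪ ({o1} ∪ {o3})) (upd3 (t n) (a l n) (b 0 n) (c l 0 n)) := by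
      filter_upwards [hcon, hb.ne] with n hn hbn
      have := sum_family (hP n) (ι := Fin 2) (S := E ∪ ({o1} ∪ {o3}))
        (T := insert o3 (E ∪ ({o1} ∪ {o2})))
        (fun m => upd3 (t n) (a l n) (b m n) (c l m n)) (upd3 (t n) (a l n) (b 0 n) (c l 0 n))
        (by
          intro m x hx
          have hx2 : x ≠ o2 := by
            rintro rfl
            simp only [Finset.mem_union, Finset.mem_singleton] at hx
            rcases hx with h | h | h
            · exact L.n2 h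
            · exact L.n12 h.symm
            · exact L.n23 h
          unfold upd3
          have hcm : c l m n = c l 0 n := by
            fin_cases m
            · rfl
            · exact hn.symm
          rw [hcm]
          by_cases hx3 : x = o3
          · subst hx3
            rw [Function.update_self, Function.update_self]
          · rw [Function.update_of_ne hx3, Function.update_of_ne hx2, Function.update_of_ne hx3,
              Function.update_of_ne hx2]) s13
        (by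
          intro i j h
          have h2 := h o2 (by simp)
          simp only [upd3, Function.update_of_ne L.n23, Function.update_self] at h2
          by_contra hij
          fin_cases i <;> fin_cases j <;> simp at hij
          · exact hbn h2
          · exact hbn h2.symm)
      rwa [Fin.sum_univ_two] at this
    have h2 := le_of_tendsto_of_tendsto ((hc2 l 0).add (hc2 l 1)) g h1
    linarith
  have hcol : ∀ m, ∀ᶠ n in (𝒰 : Filter ℕ), c 0 m n ≠ c 1 m n := by
    intro m
    refine Ultrafilter.eventually_not.2 fun hcon => ?_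
    have g := det_lim' hP hlim s23 L.f23 _ (by positivity) (hc2 0 m)
    have h1 : ∀ᶠ n in (𝒰 : Filter ℕ),
        w (P n) (insert o3 (E ∪ ({o1} ∪ {o2}))) (upd3 (t n) (a 0 n) (b m n) (c 0 m n)) +
        w (P n) (insert o3 (E ∪ ({o1} ∪ {o2}))) (upd3 (t n) (a 1 n) (b m n) (c 1 m n)) ≤
        w (P n) (E ∪ ({o2} ∪ {o3})) (upd3 (t n) (a 0 n) (b m n) (c 0 m n)) := by
      filter_upwards [hcon, ha.ne] with n hn han
      have := sum_family (hP n) (ι := Fin 2) (S := E ∪ ({o2} ∪ {o3}))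
        (T := insert o3 (E ∪ ({o1} ∪ {o2})))
        (fun l => upd3 (t n) (a l n) (b m n) (c l m n)) (upd3 (t n) (a 0 n) (b m n) (c 0 m n))
        (by
          intro l x hx
          have hx2 : x ≠ o1 := by
            rintro rfl
            simp only [Finset.mem_union, Finset.mem_singleton] at hx
            rcases hx with h | h | h
            · exact L.n1 h
            · exact L.n12 h
            · exact L.n13 h
          unfold upd3
          have hcm : c l m n = c 0 m n := by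
            fin_cases l
            · rfl
            · exact hn.symm
          rw [hcm]
          by_cases hx3 : x = o3
          · subst hx3
            rw [Function.update_self, Function.update_self]
          · rw [Function.update_of_ne hx3, Function.update_of_ne hx3]
            by_cases hx4 : x = o2
            · subst hx4
              rw [Function.update_self, Function.update_self]
            · rw [Function.update_of_ne hx4, Function.update_of_ne hx2, Function.update_of_ne hx4,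
                Function.update_of_ne hx2]) s23
        (by
          intro i j h
          have h2 := h o1 (by simp)
          simp only [upd3, Function.update_of_ne L.n13, Function.update_of_ne L.n12,
            Function.update_self] at h2
          by_contra hij
          fin_cases i <;> fin_cases j <;> simp at hij
          · exact han h2
          · exact han h2.symm)
      rwa [Fin.sum_univ_two] at this
    have h2 := le_of_tendsto_of_tendsto ((hc2 0 m).add (hc2 1 m)) g h1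
    linarith
  have e1 : ∀ᶠ n in (𝒰 : Filter ℕ), c 0 1 n = c 1 0 n :=
    third hP hP1 (hc1 0 0) (hc1 0 1) (hc1 1 0) (hrow 0) (hcol 0)
  have e2 : ∀ᶠ n in (𝒰 : Filter ℕ), c 0 0 n = c 1 1 n :=
    third hP hP1 (hc1 0 1) (hc1 0 0) (hc1 1 1) ((hrow 0).mono fun _ h => h.symm) (hcol 1)
  refine ⟨fun s => c 0 s, ⟨fun i => hc1 0 i, hrow 0⟩, fun l m => ?_⟩
  have e3 : ∀ᶠ n in (𝒰 : Filter ℕ), c l m n = c 0 (l + m) n := by
    filter_upwards [e1, e2] with n h1 h2
    fin_cases l <;> fin_cases m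
    · rfl
    · rfl
    · exact h1.symm
    · exact h2.symm
  refine (hc2 l m).congr' ?_
  filter_upwards [e3] with n hn
  rw [hn]

end

end Pool.Agent.R993.EC
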