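import Pool.Agent.R993.EC.W

/-! Limits along an ultrafilter. -/

set_option autoImplicit false

open Filter Topology

namespace Pool.Agent.R993.EC

theorem exists_lim (𝒰 : Ultrafilter ℕ) (f : ℕ → ℝ) (h0 : ∀ n, 0 ≤ f n) (h1 : ∀ n, f n ≤ 1) :
    ∃ c, 0 ≤ c ∧ c ≤ 1 ∧ Tendsto f 𝒰 (𝓝 c) := by
  have h := (isCompact_Icc (a := (0 : ℝ)) (b := 1)).ultrafilter_le_nhds (𝒰.map f) (by
    rw [Ultrafilter.coe_map, le_principal_iff, mem_map]
    exact univ_mem' fun n => ⟨h0 n, h1 n⟩)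
  obtain ⟨c, hc, hc'⟩ := h
  exact ⟨c, hc.1, hc.2, hc'⟩

section
variable {k : ℕ → Fin 6 → ℕ} {P : ∀ n, Pt (k n) → ℝ} {𝒰 : Ultrafilter ℕ}
  (hP : ∀ n x, 0 ≤ P n x) (hP1 : ∀ n, ∑ x, P n x = 1)

include hP in
theorem det_lim {S T : Finset (Fin 6)} (hST : S ⊆ T)
    (hH : Tendsto (fun n => HS (P n) T - HS (P n) S) 𝒰 (𝓝 0)) (t : ∀ n, Pt (k n)) {c : ℝ}
    (hc : 0 < c) (hT : Tendsto (fun n => w (P n) T (t n)) 𝒰 (𝓝 c)) :
    Tendsto (fun n => w (P n) S (t n)) 𝒰 (𝓝 c) := by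
  have hpos : ∀ᶠ n in (𝒰 : Filter ℕ), 0 < w (P n) T (t n) := hT.eventually (lt_mem_nhds hc)
  have hup : Tendsto (fun n => w (P n) T (t n) *
      Real.exp ((HS (P n) T - HS (P n) S) / w (P n) T (t n))) 𝒰 (𝓝 c) := by
    have h1 : Tendsto (fun n => (HS (P n) T - HS (P n) S) / w (P n) T (t n)) 𝒰 (𝓝 (0 / c)) :=
      hH.div hT hc.ne'
    have h2 := hT.mul ((Real.continuous_exp.tendsto _).comp h1)
    simpa using h2
  refine tendsto_of_tendsto_of_tendsto_of_le_of_le' hT hup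
    (Eventually.of_forall fun n => w_anti (hP n) hST _) ?_
  filter_upwards [hpos] with n hn
  have h1 := cond_family (hP n) hST (fun _ : Unit => t n) (fun i j _ => rfl)
  rw [Fintype.sum_unique] at h1
  have hS : 0 < w (P n) S (t n) := hn.trans_le (w_anti (hP n) hST _)
  have h2 : Real.log (w (P n) S (t n) / w (P n) T (t n)) ≤
      (HS (P n) T - HS (P n) S) / w (P n) T (t n) := by
    rw [le_div_iff₀ hn, mul_comm]
    exact h1
  have h3 := Real.exp_le_exp.2 h2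
  rw [Real.exp_log (by positivity), div_le_iff₀ hn] at h3
  linarith

include hP in
theorem exmax_lim {S : Finset (Fin 6)} {o : Fin 6} (ho : o ∉ S)
    (hH : Tendsto (fun n => HS (P n) (insert o S) - HS (P n) S) 𝒰 (𝓝 0)) (t : ∀ n, Pt (k n))
    {c : ℝ} (hc : 0 < c) (hS : Tendsto (fun n => w (P n) S (t n)) 𝒰 (𝓝 c)) :
    ∃ v : ∀ n, Fin (k n o),
      Tendsto (fun n => w (P n) (insert o S) (Function.update (t n) o (v n))) 𝒰 (𝓝 c) := by
  have hpos : ∀ᶠ n in (𝒰 : Filter ℕ), 0 < w (P n) S (t n) := hS.eventually (lt_mem_nhds hc)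
  have hex : ∀ n, ∃ v : Fin (k n o), 0 < w (P n) S (t n) →
      w (P n) S (t n) * Real.exp (-(HS (P n) (insert o S) - HS (P n) S) / w (P n) S (t n)) ≤
        w (P n) (insert o S) (Function.update (t n) o v) := by
    intro n
    by_cases h : 0 < w (P n) S (t n)
    · obtain ⟨v, -, hv⟩ := exmax (hP n) ho (t n) Finset.univ (w (P n) S (t n))
        (sum_values ho (t n)).symm h
      exact ⟨v, fun _ => hv⟩
    · exact ⟨t n o, fun h' => absurd h' h⟩
  choose v hv using hex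
  refine ⟨v, ?_⟩
  have hlo : Tendsto (fun n => w (P n) S (t n) *
      Real.exp (-(HS (P n) (insert o S) - HS (P n) S) / w (P n) S (t n))) 𝒰 (𝓝 c) := by
    have h1 : Tendsto (fun n => -(HS (P n) (insert o S) - HS (P n) S) / w (P n) S (t n)) 𝒰
        (𝓝 (-0 / c)) := hH.neg.div hS hc.ne'
    have h2 := hS.mul ((Real.continuous_exp.tendsto _).comp h1)
    simpa using h2
  refine tendsto_of_tendsto_of_tendsto_of_le_of_le' hlo hS ?_ (Eventually.of_forall fun n => ?_)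
  · filter_upwards [hpos] with n hn
    exact hv n hn
  · have h1 : w (P n) S (t n) = w (P n) S (Function.update (t n) o (v n)) := by
      refine w_congr fun a ha => ?_
      rw [Function.update_of_ne]
      exact fun h => ho (h ▸ ha)
    rw [h1]
    exact w_anti (hP n) (Finset.subset_insert _ _) _

include hP hP1 in
theorem ind_lim {S T : Finset (Fin 6)}
    (hH : Tendsto (fun n => HS (P n) S + HS (P n) T - HS (P n) (S ∪ T)) 𝒰 (𝓝 0))
    (t : ∀ n, Pt (k n)) {a b : ℝ} (ha : Tendsto (fun n => w (P n) S (t n)) 𝒰 (𝓝 a))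
    (hb : Tendsto (fun n => w (P n) T (t n)) 𝒰 (𝓝 b)) :
    Tendsto (fun n => w (P n) (S ∪ T) (t n)) 𝒰 (𝓝 (a * b)) := by
  have h1 : Tendsto (fun n => (w (P n) (S ∪ T) (t n) - w (P n) S (t n) * w (P n) T (t n)) ^ 2) 𝒰
      (𝓝 0) := by
    have h2 : Tendsto (fun n => 2 * (HS (P n) S + HS (P n) T - HS (P n) (S ∪ T))) 𝒰 (𝓝 0) := by
      simpa using hH.const_mul 2
    refine squeeze_zero (fun n => sq_nonneg _) (fun n => ?_) h2
    have := kl_w (hP n) (hP1 n) S T (t n)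
    linarith
  have h3 : Tendsto (fun n => w (P n) (S ∪ T) (t n) - w (P n) S (t n) * w (P n) T (t n)) 𝒰
      (𝓝 0) := by
    have h4 := (Real.continuous_sqrt.tendsto 0).comp h1
    rw [Real.sqrt_zero] at h4
    rw [tendsto_zero_iff_abs_tendsto_zero]
    refine h4.congr fun n => ?_
    simp only [Function.comp_apply]
    exact Real.sqrt_sq_eq_abs _
  have h5 := h3.add (ha.mul hb)
  simpa using h5

end

end Pool.Agent.R993.EC
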