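import Pool.Agent.R993.EC.Two

/-! The first stage: the values of `X`, `Y`, `Z`; the spread lemma. -/

set_option autoImplicit false

open Filter Topology

namespace Pool.Agent.R993.EC

/-- the entropies of the GHZ distribution -/
structure GV (hv : Finset (Fin 6) → ℝ) : Prop where
  e : hv ∅ = 0
  s : ∀ i, hv {i} = Real.log 2
  p01 : hv {0, 1} = 2 * Real.log 2
  p02 : hv {0, 2} = 2 * Real.log 2
  p12 : hv {1, 2} = 2 * Real.log 2
  t012 : hv {0, 1, 2} = 2 * Real.log 2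
  p34 : hv {3, 4} = 2 * Real.log 2
  p35 : hv {3, 5} = 2 * Real.log 2
  p45 : hv {4, 5} = 2 * Real.log 2
  q0134 : hv {0, 1, 3, 4} = 4 * Real.log 2
  q0135 : hv {0, 1, 3, 5} = 4 * Real.log 2
  q0145 : hv {0, 1, 4, 5} = 4 * Real.log 2
  q01345 : hv {0, 1, 3, 4, 5} = 4 * Real.log 2
  t345 : hv {3, 4, 5} = 4 * Real.log 2 - 3 / 4 * Real.log 3

theorem GV.lat1 {hv : Finset (Fin 6) → ℝ} (g : GV hv) : Lat hv ∅ 0 1 2 where
  f12 := by
    rw [show (insert 2 (∅ ∪ ({0} ∪ {1})) : Finset (Fin 6)) = {0, 1, 2} by decide,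
      show ((∅ ∪ ({0} ∪ {1})) : Finset (Fin 6)) = {0, 1} by decide, g.t012, g.p01]
  f13 := by
    rw [show (insert 2 (∅ ∪ ({0} ∪ {1})) : Finset (Fin 6)) = {0, 1, 2} by decide,
      show ((∅ ∪ ({0} ∪ {2})) : Finset (Fin 6)) = {0, 2} by decide, g.t012, g.p02]
  f23 := by
    rw [show (insert 2 (∅ ∪ ({0} ∪ {1})) : Finset (Fin 6)) = {0, 1, 2} by decide,
      show ((∅ ∪ ({1} ∪ {2})) : Finset (Fin 6)) = {1, 2} by decide, g.t012, g.p12]
  i12 := by rw [Finset.empty_union, g.e, zero_add]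
  i13 := by rw [Finset.empty_union, g.e, zero_add]
  i23 := by rw [Finset.empty_union, g.e, zero_add]
  j12 := by
    rw [show (({0} ∪ {1}) : Finset (Fin 6)) = {0, 1} by decide, g.p01, g.s, g.s]; ring
  j13 := by
    rw [show (({0} ∪ {2}) : Finset (Fin 6)) = {0, 2} by decide, g.p02, g.s, g.s]; ring
  j23 := by
    rw [show (({1} ∪ {2}) : Finset (Fin 6)) = {1, 2} by decide, g.p12, g.s, g.s]; ring
  n1 := by decide
  n2 := by decide
  n3 := by decide
  n12 := by decide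
  n13 := by decide
  n23 := by decide

theorem GV.lat2 {hv : Finset (Fin 6) → ℝ} (g : GV hv) : Lat hv {0, 1} 3 4 5 where
  f12 := by
    rw [show (insert 5 ({0, 1} ∪ ({3} ∪ {4})) : Finset (Fin 6)) = {0, 1, 3, 4, 5} by decide,
      show (({0, 1} ∪ ({3} ∪ {4})) : Finset (Fin 6)) = {0, 1, 3, 4} by decide, g.q01345, g.q0134]
  f13 := by
    rw [show (insert 5 ({0, 1} ∪ ({3} ∪ {4})) : Finset (Fin 6)) = {0, 1, 3, 4, 5} by decide,
      show (({0, 1} ∪ ({3} ∪ {5})) : Finset (Fin 6)) = {0, 1, 3, 5} by decide, g.q01345, g.q0135]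
  f23 := by
    rw [show (insert 5 ({0, 1} ∪ ({3} ∪ {4})) : Finset (Fin 6)) = {0, 1, 3, 4, 5} by decide,
      show (({0, 1} ∪ ({4} ∪ {5})) : Finset (Fin 6)) = {0, 1, 4, 5} by decide, g.q01345, g.q0145]
  i12 := by
    rw [show (({0, 1} ∪ ({3} ∪ {4})) : Finset (Fin 6)) = {0, 1, 3, 4} by decide,
      show (({3} ∪ {4}) : Finset (Fin 6)) = {3, 4} by decide, g.p01, g.p34, g.q0134]; ring
  i13 := by
    rw [show (({0, 1} ∪ ({3} ∪ {5})) : Finset (Fin 6)) = {0, 1, 3, 5} by decide,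
      show (({3} ∪ {5}) : Finset (Fin 6)) = {3, 5} by decide, g.p01, g.p35, g.q0135]; ring
  i23 := by
    rw [show (({0, 1} ∪ ({4} ∪ {5})) : Finset (Fin 6)) = {0, 1, 4, 5} by decide,
      show (({4} ∪ {5}) : Finset (Fin 6)) = {4, 5} by decide, g.p01, g.p45, g.q0145]; ring
  j12 := by
    rw [show (({3} ∪ {4}) : Finset (Fin 6)) = {3, 4} by decide, g.p34, g.s, g.s]; ring
  j13 := by
    rw [show (({3} ∪ {5}) : Finset (Fin 6)) = {3, 5} by decide, g.p35, g.s, g.s]; ring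
  j23 := by
    rw [show (({4} ∪ {5}) : Finset (Fin 6)) = {4, 5} by decide, g.p45, g.s, g.s]; ring
  n1 := by decide
  n2 := by decide
  n3 := by decide
  n12 := by decide
  n13 := by decide
  n23 := by decide

section
variable {k : ℕ → Fin 6 → ℕ} {P : ∀ n, Pt (k n) → ℝ} {𝒰 : Ultrafilter ℕ}
  (hP : ∀ n x, 0 ≤ P n x) (hP1 : ∀ n, ∑ x, P n x = 1) {hv : Finset (Fin 6) → ℝ}
  (hlim : ∀ S, Tendsto (fun n => HS (P n) S) 𝒰 (𝓝 (hv S)))

include hP hP1 hlim in
theorem stage1 (g : GV hv)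
    (hind : ∀ n a b, pr (P n) (fun x => (x 0, x 1)) (a, b) =
      pr (P n) (fun x => x 0) a * pr (P n) (fun x => x 1) b) (t : ∀ n, Pt (k n)) :
    ∃ x y z, Two k P 𝒰 0 x ∧ Two k P 𝒰 1 y ∧ Two k P 𝒰 2 z ∧ ∀ i j,
      Tendsto (fun n => w (P n) {0, 1, 2} (upd3 (t n) (x i n) (y j n) (z (i + j) n))) 𝒰
        (𝓝 (1 / 4)) := by
  have hE : Tendsto (fun n => w (P n) ∅ (t n)) 𝒰 (𝓝 1) := by
    refine tendsto_const_nhds.congr fun n => (w_empty (hP1 n) _).symm
  rcases pair_cases hP hP1 hlim g.lat1 g.e (g.s 0) (g.s 1) t one_pos hE with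
    ⟨x, y, hx, hy⟩ | ⟨a, b, ha, hb⟩
  · obtain ⟨z, hz, hw⟩ := square hP hP1 hlim g.lat1 t one_pos hE hx hy
    refine ⟨x, y, z, hx, hy, hz, fun i j => ?_⟩
    rw [show ({0, 1, 2} : Finset (Fin 6)) = insert 2 (∅ ∪ ({0} ∪ {1})) by decide]
    exact hw i j
  · exfalso
    have h1 : ∀ n, HS (P n) {0, 2} - HS (P n) {2} ≤ (HS (P n) {0, 1, 2} - HS (P n) {1, 2}) +
        Real.negMulLog (w1 (P n) 1 (b n)) + Real.negMulLog (1 - w1 (P n) 1 (b n)) +
        (1 - w1 (P n) 1 (b n)) * HS (P n) {0} := by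
      intro n
      have h := rare (P n) (hP n) (hP1 n) (fun x => x 0) (fun x => x 1) (fun x => x 2)
        (hind n) (b n)
      rw [Hs_eq_HS (P := P n) (S := {0, 2}) (fun x => (x 0, x 2)) (by simp),
        Hs_eq_HS (P := P n) (S := {2}) (fun x => x 2) (by simp),
        Hs_eq_HS (P := P n) (S := {0, 1, 2}) (fun x => (x 0, x 1, x 2)) (by simp),
        Hs_eq_HS (P := P n) (S := {1, 2}) (fun x => (x 1, x 2)) (by simp),
        Hs_eq_HS (P := P n) (S := {0}) (fun x => x 0) (by simp)] at h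
      exact h
    have h2 := (hlim {0, 2}).sub (hlim {2})
    have hb1 := tendsto_const_nhds (x := (1 : ℝ)).sub hb
    have h3 := ((((hlim {0, 1, 2}).sub (hlim {1, 2})).add
      ((Real.continuous_negMulLog.tendsto _).comp hb)).add
      ((Real.continuous_negMulLog.tendsto _).comp hb1)).add (hb1.mul (hlim {0}))
    have h4 := le_of_tendsto_of_tendsto h2 h3 (Eventually.of_forall h1)
    rw [g.p02, g.s, g.t012, g.p12, g.s] at h4
    simp only [sub_self, Real.negMulLog_zero, Real.negMulLog_one, add_zero, zero_mul] at h4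
    have := Real.log_pos one_lt_two
    linarith

include hP hlim in
theorem spread {ι κ : Type} [Fintype ι] [Fintype κ] {S T : Finset (Fin 6)} (hST : S ⊆ T)
    (τ : κ → ι → ∀ n, Pt (k n))
    (hS : ∀ᶠ n in (𝒰 : Filter ℕ), ∀ q i j, ∀ a ∈ S, τ q i n a = τ q j n a)
    (hT : ∀ᶠ n in (𝒰 : Filter ℕ), ∀ q q' i j, (∀ a ∈ T, τ q i n a = τ q' j n a) →
      q = q' ∧ i = j)
    {c : ℝ} (hc : 0 < c) (hw : ∀ q i, Tendsto (fun n => w (P n) T (τ q i n)) 𝒰 (𝓝 c)) :
    Fintype.card κ * (Fintype.card ι * (c * Real.log (Fintype.card ι))) ≤ hv T - hv S := by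
  have hpos : ∀ᶠ n in (𝒰 : Filter ℕ), ∀ q i, 0 < w (P n) T (τ q i n) := by
    rw [eventually_all]
    intro q
    rw [eventually_all]
    exact fun i => (hw q i).eventually (lt_mem_nhds hc)
  have h1 : ∀ᶠ n in (𝒰 : Filter ℕ), ∑ q, ∑ i, w (P n) T (τ q i n) *
      Real.log ((∑ j, w (P n) T (τ q j n)) / w (P n) T (τ q i n)) ≤
      HS (P n) T - HS (P n) S := by
    filter_upwards [hpos, hS, hT] with n hp h2 h3
    have h4 := cond_family (hP n) hST (fun p : κ × ι => τ p.1 p.2 n)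
      (fun p p' h => by
        obtain ⟨e1, e2⟩ := h3 _ _ _ _ h
        exact Prod.ext e1 e2)
    rw [Fintype.sum_prod_type] at h4
    refine le_trans ?_ h4
    refine Finset.sum_le_sum fun q _ => Finset.sum_le_sum fun i _ => ?_
    refine mul_le_mul_of_nonneg_left ?_ (hp q i).le
    have hs : ∑ j, w (P n) T (τ q j n) ≤ w (P n) S (τ q i n) :=
      sum_family (hP n) (fun j => τ q j n) (τ q i n) (fun j a ha => h2 q j i a ha) hST
        (fun j j' h => (h3 _ _ _ _ h).2)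
    have hs' : 0 < ∑ j, w (P n) T (τ q j n) :=
      Finset.sum_pos (fun j _ => hp q j) ⟨i, Finset.mem_univ i⟩
    refine Real.log_le_log (div_pos hs' (hp q i)) ?_
    exact div_le_div_of_nonneg_right hs (hp q i).le
  have h2 : Tendsto (fun n => ∑ q, ∑ i, w (P n) T (τ q i n) *
      Real.log ((∑ j, w (P n) T (τ q j n)) / w (P n) T (τ q i n))) 𝒰
      (𝓝 (∑ _q : κ, ∑ _i : ι, c * Real.log ((∑ _j : ι, c) / c))) := by
    refine tendsto_finsetSum _ fun q _ => tendsto_finsetSum _ fun i _ => ?_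
    refine (hw q i).mul ?_
    refine Tendsto.log ((tendsto_finsetSum _ fun j _ => hw q j).div (hw q i) hc.ne') ?_
    have : 0 < ∑ _j : ι, c := Finset.sum_pos (fun _ _ => hc) ⟨i, Finset.mem_univ i⟩
    positivity
  have h3 := le_of_tendsto_of_tendsto h2 ((hlim T).sub (hlim S)) h1
  refine le_trans (le_of_eq ?_) h3
  simp only [Finset.sum_const, Finset.card_univ, nsmul_eq_mul]
  rw [mul_div_cancel_right₀ _ hc.ne']

end

end Pool.Agent.R993.EC
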