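import Pool.Agent.R993.EC.Stage1

/-! The second stage: the values of `A`, `B`, `C`, and the parity. -/

set_option autoImplicit false

open Filter Topology

namespace Pool.Agent.R993.EC

section
variable {k : Fin 6 → ℕ}

/-- a point, given by its six coordinates (`t` is a dummy point) -/
def pt6 (t : Pt k) (x : Fin (k 0)) (y : Fin (k 1)) (z : Fin (k 2)) (a : Fin (k 3))
    (b : Fin (k 4)) (c : Fin (k 5)) : Pt k := upd3 (upd3 t x y z) a b c

variable (t : Pt k) (x : Fin (k 0)) (y : Fin (k 1)) (z : Fin (k 2)) (a : Fin (k 3))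
    (b : Fin (k 4)) (c : Fin (k 5))

theorem pt6_5 : pt6 t x y z a b c 5 = c := by
  unfold pt6 upd3
  rw [Function.update_self]

theorem pt6_4 : pt6 t x y z a b c 4 = b := by
  unfold pt6 upd3
  rw [Function.update_of_ne (by decide), Function.update_self]

theorem pt6_3 : pt6 t x y z a b c 3 = a := by
  unfold pt6 upd3
  rw [Function.update_of_ne (by decide), Function.update_of_ne (by decide), Function.update_self]

theorem pt6_2 : pt6 t x y z a b c 2 = z := by
  unfold pt6 upd3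
  rw [Function.update_of_ne (by decide), Function.update_of_ne (by decide),
    Function.update_of_ne (by decide), Function.update_self]

theorem pt6_1 : pt6 t x y z a b c 1 = y := by
  unfold pt6 upd3
  rw [Function.update_of_ne (by decide), Function.update_of_ne (by decide),
    Function.update_of_ne (by decide), Function.update_of_ne (by decide), Function.update_self]

theorem pt6_0 : pt6 t x y z a b c 0 = x := by
  unfold pt6 upd3
  rw [Function.update_of_ne (by decide), Function.update_of_ne (by decide),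
    Function.update_of_ne (by decide), Function.update_of_ne (by decide),
    Function.update_of_ne (by decide), Function.update_self]

theorem eq_345 {s t : Pt k} : (∀ a ∈ ({3, 4, 5} : Finset (Fin 6)), s a = t a) ↔
    s 3 = t 3 ∧ s 4 = t 4 ∧ s 5 = t 5 := by
  simp

theorem eq_01345 {s t : Pt k} : (∀ a ∈ ({0, 1, 3, 4, 5} : Finset (Fin 6)), s a = t a) ↔
    s 0 = t 0 ∧ s 1 = t 1 ∧ s 3 = t 3 ∧ s 4 = t 4 ∧ s 5 = t 5 := by
  simp

end

theorem inj2 {α : Type*} (f : Fin 2 → α) (h : f 0 ≠ f 1) {i j : Fin 2} (hij : f i = f j) :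
    i = j := by
  by_contra hne
  have : (i = 0 ∧ j = 1) ∨ (i = 1 ∧ j = 0) := by omega
  rcases this with ⟨rfl, rfl⟩ | ⟨rfl, rfl⟩
  · exact h hij
  · exact h hij.symm

theorem log_ineq : 3 / 4 * Real.log 3 < Real.log 4 := by
  have h1 : Real.log 3 < Real.log 4 := Real.log_lt_log (by norm_num) (by norm_num)
  have h2 : 0 < Real.log 3 := Real.log_pos (by norm_num)
  linarith

theorem log_ineq' : Real.log 2 < 3 / 4 * Real.log 3 := by
  have h1 : Real.log (2 ^ 4) < Real.log (3 ^ 3) := Real.log_lt_log (by norm_num) (by norm_num)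
  rw [Real.log_pow, Real.log_pow] at h1
  push_cast at h1
  linarith

section
variable {k : ℕ → Fin 6 → ℕ} {P : ∀ n, Pt (k n) → ℝ} {𝒰 : Ultrafilter ℕ}
  (hP : ∀ n x, 0 ≤ P n x) (hP1 : ∀ n, ∑ x, P n x = 1) {hv : Finset (Fin 6) → ℝ}
  (hlim : ∀ S, Tendsto (fun n => HS (P n) S) 𝒰 (𝓝 (hv S)))

include hP hP1 in
theorem two_unique {o : Fin 6} {a b : Fin 2 → ∀ n, Fin (k n o)} (ha : Two k P 𝒰 o a)
    (hb : Two k P 𝒰 o b) :
    ∃ s : Fin 2, ∀ i, ∀ᶠ n in (𝒰 : Filter ℕ), b i n = a (i + s) n := by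
  by_cases h : ∀ᶠ n in (𝒰 : Filter ℕ), a 0 n = b 0 n
  · have h1 : ∀ᶠ n in (𝒰 : Filter ℕ), a 0 n ≠ b 1 n := by
      filter_upwards [h, hb.ne] with n h1 h2
      rw [h1]
      exact h2
    have h2 := third hP hP1 (ha.lim 0) (ha.lim 1) (hb.lim 1) ha.ne h1
    refine ⟨0, fun i => ?_⟩
    filter_upwards [h, h2] with n h3 h4
    fin_cases i
    · exact h3.symm
    · exact h4.symm
  · have h' := Ultrafilter.eventually_not.2 h
    have h2 := third hP hP1 (ha.lim 0) (ha.lim 1) (hb.lim 0) ha.ne h'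
    have h1 : ∀ᶠ n in (𝒰 : Filter ℕ), a 1 n ≠ b 1 n := by
      filter_upwards [h2, hb.ne] with n h1 h2
      rw [h1]
      exact h2
    have h3 := third hP hP1 (ha.lim 1) (ha.lim 0) (hb.lim 1) (ha.ne.mono fun _ h => h.symm) h1
    refine ⟨1, fun i => ?_⟩
    filter_upwards [h2, h3] with n h3 h4
    fin_cases i
    · exact h3.symm
    · exact h4.symm

include hP hP1 hlim in
theorem stage2 (g : GV hv) (t : ∀ n, Pt (k n)) {x : Fin 2 → ∀ n, Fin (k n 0)}
    {y : Fin 2 → ∀ n, Fin (k n 1)} {z : Fin 2 → ∀ n, Fin (k n 2)}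
    (hx : Two k P 𝒰 0 x) (hy : Two k P 𝒰 1 y)
    (hxyz : ∀ i j, Tendsto (fun n => w (P n) {0, 1, 2}
      (upd3 (t n) (x i n) (y j n) (z (i + j) n))) 𝒰 (𝓝 (1 / 4))) :
    ∃ a b c, Two k P 𝒰 3 a ∧ Two k P 𝒰 4 b ∧ Two k P 𝒰 5 c ∧ ∃ s : Fin 2 → Fin 2 → Fin 2,
      ∀ i j l m, Tendsto (fun n => w (P n) {0, 1, 3, 4, 5}
        (pt6 (t n) (x i n) (y j n) (z (i + j) n) (a l n) (b m n) (c (l + m + s i j) n))) 𝒰
        (𝓝 (1 / 16)) := by
  have hE : ∀ i j, Tendsto (fun n => w (P n) {0, 1}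
      (upd3 (t n) (x i n) (y j n) (z (i + j) n))) 𝒰 (𝓝 (1 / 4)) := fun i j =>
    det_lim' hP hlim (by decide) (by rw [g.t012, g.p01]) _ (by norm_num) (hxyz i j)
  have h4 : (0 : ℝ) < 1 / 4 := by norm_num
  have hset : ({0, 1, 3, 4, 5} : Finset (Fin 6)) = insert 5 ({0, 1} ∪ ({3} ∪ {4})) := by decide
  rcases pair_cases hP hP1 hlim g.lat2 g.e (g.s 3) (g.s 4) _ h4 (hE 0 0) with
    ⟨a, b, ha, hb⟩ | ⟨a, b, ha, hb⟩
  · have hex : ∀ i j, ∃ c, Two k P 𝒰 5 c ∧ ∀ l m,
        Tendsto (fun n => w (P n) {0, 1, 3, 4, 5}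
          (pt6 (t n) (x i n) (y j n) (z (i + j) n) (a l n) (b m n) (c (l + m) n))) 𝒰
          (𝓝 (1 / 16)) := by
      intro i j
      obtain ⟨c, hc, hw⟩ := square hP hP1 hlim g.lat2 _ h4 (hE i j) ha hb
      refine ⟨c, hc, fun l m => ?_⟩
      rw [hset, show (1 / 16 : ℝ) = 1 / 4 / 4 by norm_num]
      exact hw l m
    choose c hc hw using hex
    have hs : ∀ i j, ∃ s : Fin 2, ∀ e, ∀ᶠ n in (𝒰 : Filter ℕ), c i j e n = c 0 0 (e + s) n :=
      fun i j => two_unique hP hP1 (hc 0 0) (hc i j)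
    choose s hs using hs
    refine ⟨a, b, c 0 0, ha, hb, hc 0 0, s, fun i j l m => ?_⟩
    refine (hw i j l m).congr' ?_
    filter_upwards [hs i j (l + m)] with n hn
    rw [hn]
  · exfalso
    have hex : ∀ i j, ∃ c : ∀ n, Fin (k n 5),
        Tendsto (fun n => w1 (P n) 5 (c n)) 𝒰 (𝓝 1) ∧
        Tendsto (fun n => w (P n) {0, 1, 3, 4, 5}
          (pt6 (t n) (x i n) (y j n) (z (i + j) n) (a n) (b n) (c n))) 𝒰 (𝓝 (1 / 4)) := by
      intro i j
      obtain ⟨-, c, hc, hw⟩ := latin' hP hP1 hlim g.lat2 _ h4 one_pos one_pos (hE i j) ha hb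
      refine ⟨c, hc, ?_⟩
      rw [hset]
      rw [mul_one, mul_one] at hw
      exact hw
    choose c hc hw using hex
    have heq : ∀ i j, ∀ᶠ n in (𝒰 : Filter ℕ), c i j n = c 0 0 n := by
      intro i j
      by_contra hcon
      have h := Ultrafilter.eventually_not.2 hcon
      have h1 : ∀ᶠ n in (𝒰 : Filter ℕ), w1 (P n) 5 (c i j n) + w1 (P n) 5 (c 0 0 n) ≤ 1 :=
        h.mono fun n hn => w1_two (hP n) (hP1 n) 5 hn
      have h2 := le_of_tendsto ((hc i j).add (hc 0 0)) h1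
      norm_num at h2
    have hw' : ∀ (_ : Unit) (p : Fin 2 × Fin 2), Tendsto (fun n => w (P n) {0, 1, 3, 4, 5}
          (pt6 (t n) (x p.1 n) (y p.2 n) (z (p.1 + p.2) n) (a n) (b n) (c 0 0 n))) 𝒰
          (𝓝 (1 / 4)) := by
      rintro - p
      refine (hw p.1 p.2).congr' ?_
      filter_upwards [heq p.1 p.2] with n hn
      rw [hn]
    have h1 := spread hP hlim (S := {3, 4, 5}) (T := {0, 1, 3, 4, 5}) (by decide)
      (fun (_ : Unit) (p : Fin 2 × Fin 2) n =>
        pt6 (t n) (x p.1 n) (y p.2 n) (z (p.1 + p.2) n) (a n) (b n) (c 0 0 n))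
      (Eventually.of_forall fun n q p p' => by
        rw [eq_345]
        simp only [pt6_3, pt6_4, pt6_5, and_self])
      (by
        filter_upwards [hx.ne, hy.ne] with n h1 h2
        intro q q' p p' h
        rw [eq_01345] at h
        simp only [pt6_0, pt6_1] at h
        obtain ⟨e1, e2, -⟩ := h
        exact ⟨rfl, Prod.ext (inj2 (fun i => x i n) h1 e1) (inj2 (fun i => y i n) h2 e2)⟩) h4 hw'
    rw [g.q01345, g.t345] at h1
    simp only [Fintype.card_unit, Fintype.card_prod, Fintype.card_fin] at h1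
    have h2 : ((1 : ℕ) : ℝ) * (((2 * 2 : ℕ) : ℝ) * (1 / 4 * Real.log ((2 * 2 : ℕ) : ℝ))) =
        Real.log 4 := by
      rw [show ((2 * 2 : ℕ) : ℝ) = 4 by norm_num]
      push_cast
      ring
    rw [h2] at h1
    have := log_ineq
    linarith

end

end Pool.Agent.R993.EC
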