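import Pool.Agent.R993.EC.Stage2

/-! The third stage: the parity of the signs. -/

set_option autoImplicit false

open Filter Topology

namespace Pool.Agent.R993.EC

theorem parity_cases : ∀ s : Fin 2 → Fin 2 → Fin 2, (∃ σ, ∀ i j, s i j = σ) ∨
    (∀ t, ∃ p q : Fin 2 × Fin 2, p ≠ q ∧ s p.1 p.2 = t ∧ s q.1 q.2 = t) ∨
    s 0 0 + s 0 1 + s 1 0 + s 1 1 = 1 := by
  decide

section
variable {k : ℕ → Fin 6 → ℕ} {P : ∀ n, Pt (k n) → ℝ} {𝒰 : Ultrafilter ℕ}
  (hP : ∀ n x, 0 ≤ P n x) (hP1 : ∀ n, ∑ x, P n x = 1) {hv : Finset (Fin 6) → ℝ}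
  (hlim : ∀ S, Tendsto (fun n => HS (P n) S) 𝒰 (𝓝 (hv S)))

include hP hP1 hlim in
theorem stage3 (g : GV hv) (t : ∀ n, Pt (k n)) {x : Fin 2 → ∀ n, Fin (k n 0)}
    {y : Fin 2 → ∀ n, Fin (k n 1)} {z : Fin 2 → ∀ n, Fin (k n 2)}
    {a : Fin 2 → ∀ n, Fin (k n 3)}
    {b : Fin 2 → ∀ n, Fin (k n 4)} {c : Fin 2 → ∀ n, Fin (k n 5)}
    (hx : Two k P 𝒰 0 x) (hy : Two k P 𝒰 1 y) (ha : Two k P 𝒰 3 a) (hb : Two k P 𝒰 4 b)
    (hc : Two k P 𝒰 5 c) {s : Fin 2 → Fin 2 → Fin 2}
    (hw : ∀ i j l m, Tendsto (fun n => w (P n) {0, 1, 3, 4, 5}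
        (pt6 (t n) (x i n) (y j n) (z (i + j) n) (a l n) (b m n) (c (l + m + s i j) n))) 𝒰
        (𝓝 (1 / 16))) :
    s 0 0 + s 0 1 + s 1 0 + s 1 1 = 1 := by
  rcases parity_cases s with ⟨σ, hσ⟩ | hs | hs
  · exfalso
    have h1 := spread hP hlim (S := {3, 4, 5}) (T := {0, 1, 3, 4, 5}) (by decide)
      (fun (q : Fin 2 × Fin 2) (p : Fin 2 × Fin 2) n =>
        pt6 (t n) (x p.1 n) (y p.2 n) (z (p.1 + p.2) n) (a q.1 n) (b q.2 n)
          (c (q.1 + q.2 + s p.1 p.2) n))
      (Eventually.of_forall fun n q p p' => by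
        rw [eq_345]
        simp only [pt6_3, pt6_4, pt6_5, and_self, hσ])
      (by
        filter_upwards [hx.ne, hy.ne, ha.ne, hb.ne] with n h1 h2 h3 h4
        intro q q' p p' h
        rw [eq_01345] at h
        simp only [pt6_0, pt6_1, pt6_3, pt6_4] at h
        obtain ⟨e1, e2, e3, e4, -⟩ := h
        exact ⟨Prod.ext (inj2 (fun i => a i n) h3 e3) (inj2 (fun i => b i n) h4 e4),
          Prod.ext (inj2 (fun i => x i n) h1 e1) (inj2 (fun i => y i n) h2 e2)⟩)
      (c := 1 / 16) (by norm_num) (fun q p => hw p.1 p.2 q.1 q.2)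
    rw [g.q01345, g.t345] at h1
    simp only [Fintype.card_prod, Fintype.card_fin] at h1
    have h2 : (((2 * 2 : ℕ) : ℝ)) * (((2 * 2 : ℕ) : ℝ) * (1 / 16 * Real.log ((2 * 2 : ℕ) : ℝ))) =
        Real.log 4 := by
      rw [show ((2 * 2 : ℕ) : ℝ) = 4 by norm_num]
      ring
    rw [h2] at h1
    have := log_ineq
    linarith
  · exfalso
    let R : Fin 2 × Fin 2 × Fin 2 → ∀ n, Pt (k n) := fun p n =>
      pt6 (t n) (x 0 n) (y 0 n) (z 0 n) (a p.1 n) (b p.2.1 n) (c p.2.2 n)
    have hR : ∀ᶠ n in (𝒰 : Filter ℕ), ∀ p p' : Fin 2 × Fin 2 × Fin 2,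
        (∀ a ∈ ({3, 4, 5} : Finset (Fin 6)), R p n a = R p' n a) → p = p' := by
      filter_upwards [ha.ne, hb.ne, hc.ne] with n h1 h2 h3
      intro p p' h
      rw [eq_345] at h
      simp only [R, pt6_3, pt6_4, pt6_5] at h
      obtain ⟨e1, e2, e3⟩ := h
      exact Prod.ext (inj2 (fun i => a i n) h1 e1)
        (Prod.ext (inj2 (fun i => b i n) h2 e2) (inj2 (fun i => c i n) h3 e3))
    have hd : ∀ p, ∃ d, Tendsto (fun n => w (P n) {3, 4, 5} (R p n)) 𝒰 (𝓝 d) := fun p => by
      obtain ⟨d, -, -, hd⟩ := exists_lim 𝒰 (fun n => w (P n) {3, 4, 5} (R p n))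
        (fun n => w_nonneg (hP n) _ _) (fun n => w_le_one (hP n) (hP1 n) _ _)
      exact ⟨d, hd⟩
    choose d hd using hd
    have hge : ∀ p, 1 / 8 ≤ d p := by
      rintro ⟨l, m, u⟩
      obtain ⟨p, q, hpq, hp, hq⟩ := hs (u + l + m)
      have hu : ∀ l m u : Fin 2, l + m + (u + l + m) = u := by decide
      have h1 := hw p.1 p.2 l m
      have h2 := hw q.1 q.2 l m
      rw [hp, hu] at h1
      rw [hq, hu] at h2
      have h3 : ∀ᶠ n in (𝒰 : Filter ℕ),
          w (P n) {0, 1, 3, 4, 5}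
            (pt6 (t n) (x p.1 n) (y p.2 n) (z (p.1 + p.2) n) (a l n) (b m n) (c u n)) +
          w (P n) {0, 1, 3, 4, 5}
            (pt6 (t n) (x q.1 n) (y q.2 n) (z (q.1 + q.2) n) (a l n) (b m n) (c u n)) ≤
          w (P n) {3, 4, 5} (R (l, m, u) n) := by
        filter_upwards [hx.ne, hy.ne] with n g1 g2
        have h4 := sum_family (hP n) (ι := Fin 2) (S := {3, 4, 5}) (T := {0, 1, 3, 4, 5})
          ![pt6 (t n) (x p.1 n) (y p.2 n) (z (p.1 + p.2) n) (a l n) (b m n) (c u n),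
            pt6 (t n) (x q.1 n) (y q.2 n) (z (q.1 + q.2) n) (a l n) (b m n) (c u n)]
          (R (l, m, u) n)
          (by
            intro i
            rw [eq_345]
            fin_cases i
            · simp only [R, Fin.zero_eta, Matrix.cons_val_zero, pt6_3, pt6_4, pt6_5, and_self]
            · simp only [R, Fin.mk_one, Matrix.cons_val_one, Matrix.cons_val_fin_one, pt6_3,
                pt6_4, pt6_5, and_self]) (by decide)
          (by
            intro i j h
            refine inj2 (fun i => restr ({0, 1, 3, 4, 5} : Finset (Fin 6))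
              ((![pt6 (t n) (x p.1 n) (y p.2 n) (z (p.1 + p.2) n) (a l n) (b m n) (c u n),
                pt6 (t n) (x q.1 n) (y q.2 n) (z (q.1 + q.2) n) (a l n) (b m n) (c u n)] :
                  Fin 2 → Pt (k n)) i)) ?_ (restr_eq.2 h)
            intro h'
            rw [restr_eq, eq_01345] at h'
            simp only [Matrix.cons_val_zero, Matrix.cons_val_one, Matrix.cons_val_fin_one, pt6_0,
              pt6_1] at h'
            exact hpq (Prod.ext (inj2 (fun i => x i n) g1 h'.1)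
              (inj2 (fun i => y i n) g2 h'.2.1)))
        rw [Fin.sum_univ_two] at h4
        exact h4
      have h4 := le_of_tendsto_of_tendsto (h1.add h2) (hd (l, m, u)) h3
      linarith
    have hle : ∑ p, d p ≤ 1 := by
      have h1 : ∀ᶠ n in (𝒰 : Filter ℕ), ∑ p, w (P n) {3, 4, 5} (R p n) ≤ 1 := by
        filter_upwards [hR] with n hn
        have := sum_family (hP n) (S := ∅) (T := {3, 4, 5}) (fun p => R p n) (t n)
          (fun i a ha => absurd ha (Finset.notMem_empty a)) (Finset.empty_subset _) hn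
        rwa [w_empty (hP1 n)] at this
      exact le_of_tendsto (tendsto_finsetSum _ fun p _ => hd p) h1
    have hd8 : ∀ p, d p = 1 / 8 := by
      have h1 : ∑ p : Fin 2 × Fin 2 × Fin 2, (d p - 1 / 8) = 0 := by
        refine le_antisymm ?_ (Finset.sum_nonneg fun p _ => by linarith [hge p])
        rw [Finset.sum_sub_distrib]
        simp only [Finset.sum_const, Finset.card_univ, Fintype.card_prod, Fintype.card_fin]
        norm_num
        exact hle
      intro p
      have h2 := (Finset.sum_eq_zero_iff_of_nonneg (fun p _ => by linarith [hge p])).1 h1 p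
        (Finset.mem_univ p)
      linarith
    have h1 := spread hP hlim (S := ∅) (T := {3, 4, 5}) (Finset.empty_subset _)
      (fun (_ : Unit) p n => R p n)
      (Eventually.of_forall fun n q p p' a ha => absurd ha (Finset.notMem_empty a))
      (by
        filter_upwards [hR] with n hn
        exact fun q q' p p' h => ⟨rfl, hn p p' h⟩)
      (c := 1 / 8) (by norm_num) (fun _ p => by
        rw [← hd8 p]
        exact hd p)
    rw [g.e, g.t345] at h1
    simp only [Fintype.card_unit, Fintype.card_prod, Fintype.card_fin] at h1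
    have h2 : ((1 : ℕ) : ℝ) * (((2 * (2 * 2) : ℕ) : ℝ) *
        (1 / 8 * Real.log ((2 * (2 * 2) : ℕ) : ℝ))) = 3 * Real.log 2 := by
      rw [show ((2 * (2 * 2) : ℕ) : ℝ) = 2 ^ 3 by norm_num, Real.log_pow]
      push_cast
      ring
    rw [h2] at h1
    have := log_ineq'
    linarith
  · exact hs

end

end Pool.Agent.R993.EC
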