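import Pool.Agent.R993.EC.Stage3

/-! The fourth stage: the Bell inequality. -/

set_option autoImplicit false

open Filter Topology

namespace Pool.Agent.R993.EC

/-- the sign of a bit -/
noncomputable def sg (i : Fin 2) : ℝ := if i = 0 then 1 else -1

theorem sg_mul (l m s : Fin 2) : sg s * (sg l * sg m * sg (l + m + s)) = 1 := by
  fin_cases l <;> fin_cases m <;> fin_cases s <;> simp [sg] <;> norm_num

theorem sg_cases (i : Fin 2) : sg i = 1 ∨ sg i = -1 := by
  unfold sg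
  split_ifs
  · left; rfl
  · right; rfl

section
variable {k : Fin 6 → ℕ} (P : Pt k → ℝ) (t : Pt k) (x : Fin (k 0)) (y : Fin (k 1))
  (z : Fin (k 2)) (a : Fin (k 3)) (b : Fin (k 4)) (c : Fin (k 5))

theorem upd3_0 : upd3 t x y z 0 = x := by
  unfold upd3
  rw [Function.update_of_ne (by decide), Function.update_of_ne (by decide), Function.update_self]

theorem upd3_1 : upd3 t x y z 1 = y := by
  unfold upd3
  rw [Function.update_of_ne (by decide), Function.update_self]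

theorem upd3_2 : upd3 t x y z 2 = z := by
  unfold upd3
  rw [Function.update_self]

open scoped Classical in
theorem w012_eq : w P {0, 1, 2} (upd3 t x y z) =
    ∑ ω : Pt k, if ω 0 = x ∧ ω 1 = y ∧ ω 2 = z then P ω else 0 := by
  unfold w pr
  refine Finset.sum_congr rfl fun ω _ => ?_
  have : restr {0, 1, 2} ω = restr {0, 1, 2} (upd3 t x y z) ↔ ω 0 = x ∧ ω 1 = y ∧ ω 2 = z := by
    rw [restr_eq]
    simp [upd3_0, upd3_1, upd3_2]
  simp only [this]

open scoped Classical in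
theorem w01_eq : w P {0, 1} (upd3 t x y z) =
    ∑ ω : Pt k, if ω 0 = x ∧ ω 1 = y then P ω else 0 := by
  unfold w pr
  refine Finset.sum_congr rfl fun ω _ => ?_
  have : restr {0, 1} ω = restr {0, 1} (upd3 t x y z) ↔ ω 0 = x ∧ ω 1 = y := by
    rw [restr_eq]
    simp [upd3_0, upd3_1]
  simp only [this]

open scoped Classical in
theorem w01345_eq : w P {0, 1, 3, 4, 5} (pt6 t x y z a b c) =
    ∑ ω : Pt k, if ω 0 = x ∧ ω 1 = y ∧ ω 3 = a ∧ ω 4 = b ∧ ω 5 = c then P ω else 0 := by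
  unfold w pr
  refine Finset.sum_congr rfl fun ω _ => ?_
  have : restr {0, 1, 3, 4, 5} ω = restr {0, 1, 3, 4, 5} (pt6 t x y z a b c) ↔
      ω 0 = x ∧ ω 1 = y ∧ ω 3 = a ∧ ω 4 = b ∧ ω 5 = c := by
    rw [restr_eq, eq_01345]
    simp only [pt6_0, pt6_1, pt6_3, pt6_4, pt6_5]
  simp only [this]

open scoped Classical in
theorem bell_pt {P : Pt k → ℝ} (hP : ∀ ω, 0 ≤ P ω) (a : Fin 2 → Fin (k 3)) (b : Fin 2 → Fin (k 4))
    (c : Fin 2 → Fin (k 5)) (ha : a 0 ≠ a 1) (hb : b 0 ≠ b 1) (hc : c 0 ≠ c 1) (s : Fin 2) :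
    w P {0, 1, 2} (upd3 t x y z) - 2 * (w P {0, 1} (upd3 t x y z) -
      ∑ l, ∑ m, w P {0, 1, 3, 4, 5} (pt6 t x y z (a l) (b m) (c (l + m + s)))) ≤
    sg s * ∑ ω : Pt k, (if ω 0 = x ∧ ω 1 = y ∧ ω 2 = z then
      (if ω 3 = a 0 then (1 : ℝ) else -1) * (if ω 4 = b 0 then (1 : ℝ) else -1) *
        (if ω 5 = c 0 then (1 : ℝ) else -1) * P ω else 0) := by
  simp only [w012_eq, w01_eq, w01345_eq]
  have hsum : ∀ f : Fin 2 → Fin 2 → Pt k → ℝ, ∑ l, ∑ m, ∑ ω, f l m ω = ∑ ω, ∑ l, ∑ m, f l m ω := by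
    intro f
    simp only [Fin.sum_univ_two, ← Finset.sum_add_distrib]
  rw [hsum, ← Finset.sum_sub_distrib, Finset.mul_sum, ← Finset.sum_sub_distrib, Finset.mul_sum]
  refine Finset.sum_le_sum fun ω _ => ?_
  have h0 := hP ω
  have hsa : ∀ l, (if a l = a 0 then (1 : ℝ) else -1) = sg l := fun l => by
    fin_cases l
    · simp [sg]
    · simp [sg, ha.symm]
  have hsb : ∀ l, (if b l = b 0 then (1 : ℝ) else -1) = sg l := fun l => by
    fin_cases l
    · simp [sg]
    · simp [sg, hb.symm]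
  have hsc : ∀ l, (if c l = c 0 then (1 : ℝ) else -1) = sg l := fun l => by
    fin_cases l
    · simp [sg]
    · simp [sg, hc.symm]
  by_cases h01 : ω 0 = x ∧ ω 1 = y
  · rw [if_pos h01]
    obtain ⟨e0, e1⟩ := h01
    simp only [e0, e1, true_and]
    by_cases hex : ∃ l m, ω 3 = a l ∧ ω 4 = b m ∧ ω 5 = c (l + m + s)
    · obtain ⟨l, m, e3, e4, e5⟩ := hex
      have h1 : ∑ l', ∑ m', (if ω 3 = a l' ∧ ω 4 = b m' ∧ ω 5 = c (l' + m' + s) then P ω
          else 0) = P ω := by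
        rw [Finset.sum_eq_single l, Finset.sum_eq_single m, if_pos ⟨e3, e4, e5⟩]
        · intro m' _ hm'
          rw [if_neg]
          rintro ⟨-, h, -⟩
          exact hm' (inj2 b hb (e4 ▸ h)).symm
        · exact fun h => absurd (Finset.mem_univ _) h
        · intro l' _ hl'
          refine Finset.sum_eq_zero fun m' _ => ?_
          rw [if_neg]
          rintro ⟨h, -⟩
          exact hl' (inj2 a ha (e3 ▸ h)).symm
        · exact fun h => absurd (Finset.mem_univ _) h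
      rw [h1]
      by_cases hz : ω 2 = z
      · rw [if_pos hz, if_pos hz, e3, e4, e5, hsa, hsb, hsc, ← mul_assoc, sg_mul]
        linarith
      · rw [if_neg hz, if_neg hz]
        linarith
    · have h1 : ∑ l', ∑ m', (if ω 3 = a l' ∧ ω 4 = b m' ∧ ω 5 = c (l' + m' + s) then P ω
          else 0) = 0 := by
        refine Finset.sum_eq_zero fun l _ => Finset.sum_eq_zero fun m _ => ?_
        rw [if_neg]
        exact fun h => hex ⟨l, m, h⟩
      rw [h1]
      by_cases hz : ω 2 = z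
      · rw [if_pos hz, if_pos hz]
        rcases sg_cases s with h | h <;> rw [h] <;> split_ifs <;> linarith
      · rw [if_neg hz, if_neg hz]
        linarith
  · have h2 : ¬ (ω 0 = x ∧ ω 1 = y ∧ ω 2 = z) := fun h => h01 ⟨h.1, h.2.1⟩
    have h3 : ∀ l m, ¬ (ω 0 = x ∧ ω 1 = y ∧ ω 3 = a l ∧ ω 4 = b m ∧ ω 5 = c (l + m + s)) :=
      fun l m h => h01 ⟨h.1, h.2.1⟩
    simp only [if_neg h2, if_neg h01, if_neg (h3 _ _), Finset.sum_const_zero]
    norm_num

end

section
variable {k : ℕ → Fin 6 → ℕ} {P : ∀ n, Pt (k n) → ℝ} {𝒰 : Ultrafilter ℕ}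
  (hL : ∀ n, LHV (P n)) {hv : Finset (Fin 6) → ℝ}
  (hlim : ∀ S, Tendsto (fun n => HS (P n) S) 𝒰 (𝓝 (hv S)))

include hL hlim in
theorem main_contra (g : GV hv) : False := by
  have hP : ∀ n x, 0 ≤ P n x := fun n => (hL n).nonneg
  have hP1 : ∀ n, ∑ x, P n x = 1 := fun n => (hL n).sum_one
  have t : ∀ n, Pt (k n) := fun n => (exists_pt hP1 n).some
  obtain ⟨x, y, z, hx, hy, hz, hxyz⟩ := stage1 hP hP1 hlim g (fun n => (hL n).indep) t
  obtain ⟨a, b, c, ha, hb, hc, s, hw⟩ := stage2 hP hP1 hlim g t hx hy hxyz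
  have hs := stage3 hP hP1 hlim g t hx hy ha hb hc hw
  have hE : ∀ i j, Tendsto (fun n => w (P n) {0, 1}
      (upd3 (t n) (x i n) (y j n) (z (i + j) n))) 𝒰 (𝓝 (1 / 4)) := fun i j =>
    det_lim' hP hlim (by decide) (by rw [g.t012, g.p01]) _ (by norm_num) (hxyz i j)
  let D : Fin 2 → Fin 2 → ℕ → ℝ := fun i j n =>
    w (P n) {0, 1, 2} (upd3 (t n) (x i n) (y j n) (z (i + j) n)) - 2 *
      (w (P n) {0, 1} (upd3 (t n) (x i n) (y j n) (z (i + j) n)) -
        ∑ l, ∑ m, w (P n) {0, 1, 3, 4, 5}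
          (pt6 (t n) (x i n) (y j n) (z (i + j) n) (a l n) (b m n) (c (l + m + s i j) n)))
  have hD : ∀ i j, Tendsto (D i j) 𝒰 (𝓝 (1 / 4)) := by
    intro i j
    have h1 : Tendsto (D i j) 𝒰
        (𝓝 (1 / 4 - 2 * (1 / 4 - ∑ _l : Fin 2, ∑ _m : Fin 2, (1 / 16 : ℝ)))) :=
      (hxyz i j).sub (((hE i j).sub (tendsto_finsetSum _ fun l _ =>
        tendsto_finsetSum _ fun m _ => hw i j l m)).const_mul 2)
    have h2 : (1 / 4 - 2 * (1 / 4 - ∑ _l : Fin 2, ∑ _m : Fin 2, (1 / 16 : ℝ))) = 1 / 4 := by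
      simp only [Fin.sum_univ_two]
      norm_num
    rwa [h2] at h1
  have hpos : ∀ᶠ n in (𝒰 : Filter ℕ), ∀ i j,
      0 < w (P n) {0, 1, 2} (upd3 (t n) (x i n) (y j n) (z (i + j) n)) := by
    rw [eventually_all]
    intro i
    rw [eventually_all]
    exact fun j => (hxyz i j).eventually (lt_mem_nhds (by norm_num))
  have hprod : sg (s 0 0) * sg (s 0 1) * sg (s 1 0) * sg (s 1 1) = -1 := by
    have hall : ∀ p q r u : Fin 2, p + q + r + u = 1 → sg p * sg q * sg r * sg u = -1 := by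
      intro p q r u h
      fin_cases p <;> fin_cases q <;> fin_cases r <;> fin_cases u <;> simp [sg] at h ⊢
    exact hall _ _ _ _ hs
  have hbell : ∀ᶠ n in (𝒰 : Filter ℕ), ∑ i, ∑ j, D i j n /
      w (P n) {0, 1, 2} (upd3 (t n) (x i n) (y j n) (z (i + j) n)) ≤ 2 := by
    filter_upwards [hpos, ha.ne, hb.ne, hc.ne] with n hp h1 h2 h3
    classical
    obtain ⟨E, hE1, hE2⟩ := (hL n).local_bound
      (fun v => if v = a 0 n then (1 : ℝ) else -1) (fun v => if v = b 0 n then (1 : ℝ) else -1)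
      (fun v => if v = c 0 n then (1 : ℝ) else -1)
      (fun v => by split_ifs <;> simp) (fun v => by split_ifs <;> simp)
      (fun v => by split_ifs <;> simp)
    refine le_trans ?_ (hE2 (fun i => x i n) (fun j => y j n) (fun e => z e n)
      (fun i j => sg (s i j)) (fun i j => sg_cases _) hprod)
    refine Finset.sum_le_sum fun i _ => Finset.sum_le_sum fun j _ => ?_
    rw [div_le_iff₀ (hp i j)]
    have h4 := bell_pt (t n) (x i n) (y j n) (z (i + j) n) (hP n) (fun l => a l n)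
      (fun m => b m n) (fun e => c e n) h1 h2 h3 (s i j)
    have h5 := hE1 (x i n) (y j n) (z (i + j) n)
    have h6 : pr (P n) (fun ω => (ω 0, ω 1, ω 2)) (x i n, y j n, z (i + j) n) =
        w (P n) {0, 1, 2} (upd3 (t n) (x i n) (y j n) (z (i + j) n)) := by
      have := pr_eq_w (P := P n) (S := {0, 1, 2}) (fun ω => (ω 0, ω 1, ω 2))
        (upd3 (t n) (x i n) (y j n) (z (i + j) n)) (by simp)
      simpa only [upd3_0, upd3_1, upd3_2] using this
    rw [h6] at h5
    have h7 : sg (s i j) * E (x i n) (y j n) (z (i + j) n) *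
        w (P n) {0, 1, 2} (upd3 (t n) (x i n) (y j n) (z (i + j) n)) =
        sg (s i j) * (E (x i n) (y j n) (z (i + j) n) *
        w (P n) {0, 1, 2} (upd3 (t n) (x i n) (y j n) (z (i + j) n))) := by ring
    rw [h7, ← h5]
    convert h4
  have hlim4 : Tendsto (fun n => ∑ i, ∑ j, D i j n /
      w (P n) {0, 1, 2} (upd3 (t n) (x i n) (y j n) (z (i + j) n))) 𝒰
      (𝓝 (∑ _i : Fin 2, ∑ _j : Fin 2, (1 / 4 : ℝ) / (1 / 4))) :=
    tendsto_finsetSum _ fun i _ => tendsto_finsetSum _ fun j _ =>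
      (hD i j).div (hxyz i j) (by norm_num)
  have := le_of_tendsto hlim4 hbell
  simp only [Fin.sum_univ_two] at this
  norm_num at this

end

end Pool.Agent.R993.EC
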