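import Pool.Agent.R993.EC.Lat

/-! Existence of the heavy values. -/

set_option autoImplicit false

open Filter Topology

namespace Pool.Agent.R993.EC

section
variable {k : ℕ → Fin 6 → ℕ} {P : ∀ n, Pt (k n) → ℝ} {𝒰 : Ultrafilter ℕ}
  (hP : ∀ n x, 0 ≤ P n x) (hP1 : ∀ n, ∑ x, P n x = 1) {hv : Finset (Fin 6) → ℝ}
  (hlim : ∀ S, Tendsto (fun n => HS (P n) S) 𝒰 (𝓝 (hv S)))

include hP1 in
theorem exists_pt (n : ℕ) : Nonempty (Pt (k n)) := by
  by_contra h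
  rw [not_nonempty_iff] at h
  have := hP1 n
  rw [Fintype.sum_empty] at this
  exact zero_ne_one this

include hP hP1 hlim in
theorem heavy_one {o : Fin 6} (h0 : hv ∅ = 0) (ho : hv {o} = Real.log 2) :
    ∃ (v : ∀ n, Fin (k n o)) (c : ℝ), 1 / 2 ≤ c ∧ c ≤ 1 ∧
      Tendsto (fun n => w1 (P n) o (v n)) 𝒰 (𝓝 c) := by
  have hex : ∀ n, ∃ v : Fin (k n o),
      Real.exp (-(HS (P n) {o} - HS (P n) ∅)) ≤ w1 (P n) o v := by
    intro n
    obtain ⟨t⟩ := exists_pt hP1 n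
    obtain ⟨v, -, hv⟩ := exmax (hP n) (Finset.notMem_empty o) t Finset.univ 1
      (by rw [sum_values (Finset.notMem_empty o) t, w_empty (hP1 n)]) one_pos
    refine ⟨v, ?_⟩
    rw [w_empty (hP1 n), one_mul, div_one, insert_empty_eq, w_single,
      Function.update_self] at hv
    exact hv
  choose v hv' using hex
  obtain ⟨c, -, hc1, hc⟩ := exists_lim 𝒰 (fun n => w1 (P n) o (v n))
    (fun n => w1_nonneg (hP n) _ _) (fun n => w1_le_one (hP n) (hP1 n) _ _)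
  refine ⟨v, c, ?_, hc1, hc⟩
  have h1 : Tendsto (fun n => Real.exp (-(HS (P n) {o} - HS (P n) ∅))) 𝒰
      (𝓝 (Real.exp (-(hv {o} - hv ∅)))) :=
    (Real.continuous_exp.tendsto _).comp ((hlim {o}).sub (hlim ∅)).neg
  have h2 := le_of_tendsto_of_tendsto h1 hc (Eventually.of_forall hv')
  rw [ho, h0, sub_zero, Real.exp_neg, Real.exp_log two_pos] at h2
  norm_num at h2 ⊢
  exact h2

include hP hP1 hlim in
theorem heavy_two {o : Fin 6} (h0 : hv ∅ = 0)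
    (v : ∀ n, Fin (k n o)) {c : ℝ} (hc1 : c < 1)
    (hc : Tendsto (fun n => w1 (P n) o (v n)) 𝒰 (𝓝 c)) :
    ∃ (u : ∀ n, Fin (k n o)) (d : ℝ), 0 < d ∧ (∀ᶠ n in (𝒰 : Filter ℕ), v n ≠ u n) ∧
      Tendsto (fun n => w1 (P n) o (u n)) 𝒰 (𝓝 d) := by
  have hpos : ∀ᶠ n in (𝒰 : Filter ℕ), 0 < 1 - w1 (P n) o (v n) :=
    (tendsto_const_nhds.sub hc).eventually (lt_mem_nhds (by linarith))
  have hex : ∀ n, ∃ u : Fin (k n o), 0 < 1 - w1 (P n) o (v n) → (v n ≠ u ∧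
      Real.exp (-(HS (P n) {o} - HS (P n) ∅) / (1 - w1 (P n) o (v n))) ≤ w1 (P n) o u) := by
    intro n
    by_cases hn : 0 < 1 - w1 (P n) o (v n)
    · obtain ⟨t⟩ := exists_pt hP1 n
      have hs := sum_values (P := P n) (Finset.notMem_empty o) t
      rw [w_empty (hP1 n), ← Finset.add_sum_erase _ _ (Finset.mem_univ (v n)),
        insert_empty_eq, w_single, Function.update_self] at hs
      obtain ⟨u, hu, hu'⟩ := exmax (hP n) (Finset.notMem_empty o) t (Finset.univ.erase (v n))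
        (1 - w1 (P n) o (v n)) (by rw [insert_empty_eq]; linarith) hn
      refine ⟨u, fun _ => ⟨(Finset.ne_of_mem_erase hu).symm, ?_⟩⟩
      rw [w_empty (hP1 n), one_mul, insert_empty_eq, w_single, Function.update_self] at hu'
      exact hu'
    · exact ⟨v n, fun h => absurd h hn⟩
  choose u hu using hex
  obtain ⟨d, -, -, hd⟩ := exists_lim 𝒰 (fun n => w1 (P n) o (u n))
    (fun n => w1_nonneg (hP n) _ _) (fun n => w1_le_one (hP n) (hP1 n) _ _)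
  refine ⟨u, d, ?_, hpos.mono fun n hn => (hu n hn).1, hd⟩
  have h1 : Tendsto (fun n => Real.exp (-(HS (P n) {o} - HS (P n) ∅) /
      (1 - w1 (P n) o (v n)))) 𝒰 (𝓝 (Real.exp (-(hv {o} - hv ∅) / (1 - c)))) :=
    (Real.continuous_exp.tendsto _).comp
      ((((hlim {o}).sub (hlim ∅)).neg).div (tendsto_const_nhds.sub hc) (by linarith))
  have h2 := le_of_tendsto_of_tendsto h1 hd (hpos.mono fun n hn => (hu n hn).2)
  exact (Real.exp_pos _).trans_le h2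

include hP hP1 hlim in
theorem two_or_one {o : Fin 6} (h0 : hv ∅ = 0) (ho : hv {o} = Real.log 2) {p : ℝ}
    (huni : ∀ (v : ∀ n, Fin (k n o)) (c : ℝ), 0 < c →
      Tendsto (fun n => w1 (P n) o (v n)) 𝒰 (𝓝 c) → c = p) :
    (p = 1 / 2 ∧ ∃ a, Two k P 𝒰 o a) ∨
      (p = 1 ∧ ∃ v : ∀ n, Fin (k n o), Tendsto (fun n => w1 (P n) o (v n)) 𝒰 (𝓝 1)) := by
  obtain ⟨v, c, hc, hc1, hv'⟩ := heavy_one hP hP1 hlim h0 ho
  rcases hc1.lt_or_eq with h | h
  · left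
    obtain ⟨u, d, hd, hne, hu⟩ := heavy_two hP hP1 hlim h0 v h hv'
    have e1 := huni v c (by linarith) hv'
    have e2 := huni u d hd hu
    have h1 : ∀ᶠ n in (𝒰 : Filter ℕ), w1 (P n) o (v n) + w1 (P n) o (u n) ≤ 1 :=
      hne.mono fun n hn => w1_two (hP n) (hP1 n) o hn
    have h2 := le_of_tendsto (hv'.add hu) h1
    have h3 : p = 1 / 2 := by linarith
    have e1' : c = 1 / 2 := e1.trans h3
    have e2' : d = 1 / 2 := e2.trans h3
    rw [e1'] at hv'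
    rw [e2'] at hu
    refine ⟨h3, ![v, u], ⟨fun i => ?_, ?_⟩⟩
    · fin_cases i
      · exact hv'
      · exact hu
    · exact hne
  · right
    rw [h] at hv'
    exact ⟨(huni v 1 one_pos hv').symm, v, hv'⟩

include hP hP1 hlim in
theorem latin' {E : Finset (Fin 6)} {o1 o2 o3 : Fin 6} (L : Lat hv E o1 o2 o3)
    (t : ∀ n, Pt (k n)) {e p q : ℝ} (he : 0 < e) (hp : 0 < p) (hq : 0 < q)
    (hE : Tendsto (fun n => w (P n) E (t n)) 𝒰 (𝓝 e))
    {a : ∀ n, Fin (k n o1)} {b : ∀ n, Fin (k n o2)}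
    (h1 : Tendsto (fun n => w1 (P n) o1 (a n)) 𝒰 (𝓝 p))
    (h2 : Tendsto (fun n => w1 (P n) o2 (b n)) 𝒰 (𝓝 q)) :
    p = q ∧ ∃ v : ∀ n, Fin (k n o3), Tendsto (fun n => w1 (P n) o3 (v n)) 𝒰 (𝓝 p) ∧
      Tendsto (fun n => w (P n) (insert o3 (E ∪ ({o1} ∪ {o2})))
        (upd3 (t n) (a n) (b n) (v n))) 𝒰 (𝓝 (e * (p * q))) := by
  refine latin hP hP1 hlim L
    (fun n => Function.update (Function.update (t n) o1 (a n)) o2 (b n)) he hp hq ?_ ?_ ?_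
  · refine hE.congr fun n => w_congr fun x hx => ?_
    rw [Function.update_of_ne, Function.update_of_ne]
    · exact fun h => L.n1 (h ▸ hx)
    · exact fun h => L.n2 (h ▸ hx)
  · simpa only [Function.update_of_ne L.n12, Function.update_self] using h1
  · simpa only [Function.update_self] using h2

include hP hP1 hlim in
theorem pair_cases {E : Finset (Fin 6)} {o1 o2 o3 : Fin 6} (L : Lat hv E o1 o2 o3)
    (h0 : hv ∅ = 0) (ho1 : hv {o1} = Real.log 2) (ho2 : hv {o2} = Real.log 2)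
    (t : ∀ n, Pt (k n)) {e : ℝ} (he : 0 < e)
    (hE : Tendsto (fun n => w (P n) E (t n)) 𝒰 (𝓝 e)) :
    (∃ a b, Two k P 𝒰 o1 a ∧ Two k P 𝒰 o2 b) ∨
    (∃ (a : ∀ n, Fin (k n o1)) (b : ∀ n, Fin (k n o2)),
      Tendsto (fun n => w1 (P n) o1 (a n)) 𝒰 (𝓝 1) ∧
      Tendsto (fun n => w1 (P n) o2 (b n)) 𝒰 (𝓝 1)) := by
  obtain ⟨a0, p, hp, -, ha0⟩ := heavy_one hP hP1 hlim h0 ho1
  have hp0 : 0 < p := by linarith
  have u2 : ∀ (v : ∀ n, Fin (k n o2)) (c : ℝ), 0 < c →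
      Tendsto (fun n => w1 (P n) o2 (v n)) 𝒰 (𝓝 c) → c = p := fun v c hc hv' =>
    (latin' hP hP1 hlim L t he hp0 hc hE ha0 hv').1.symm
  obtain ⟨b0, q, hq, -, hb0⟩ := heavy_one hP hP1 hlim h0 ho2
  have hq0 : 0 < q := by linarith
  have hqp := u2 b0 q hq0 hb0
  have u1 : ∀ (v : ∀ n, Fin (k n o1)) (c : ℝ), 0 < c →
      Tendsto (fun n => w1 (P n) o1 (v n)) 𝒰 (𝓝 c) → c = p := fun v c hc hv' =>
    ((latin' hP hP1 hlim L t he hc hq0 hE hv' hb0).1).trans hqp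
  rcases two_or_one hP hP1 hlim h0 ho1 u1 with ⟨e1, a, ha⟩ | ⟨e1, a, ha⟩ <;>
    rcases two_or_one hP hP1 hlim h0 ho2 u2 with ⟨e2, b, hb⟩ | ⟨e2, b, hb⟩
  · exact Or.inl ⟨a, b, ha, hb⟩
  · rw [e1] at e2; norm_num at e2
  · rw [e1] at e2; norm_num at e2
  · exact Or.inr ⟨a, b, ha, hb⟩

end

end Pool.Agent.R993.EC
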