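import Pool.Agent.R993.EC.Pr

/-! Probabilities of the atoms of sets of coordinates, and the estimates of their entropies. -/

set_option autoImplicit false

namespace Pool.Agent.R993.EC

/-- the points of the space -/
abbrev Pt (k : Fin 6 → ℕ) : Type := ∀ a : Fin 6, Fin (k a)

variable {k : Fin 6 → ℕ}

/-- the coordinates in `S` -/
def restr (S : Finset (Fin 6)) (x : Pt k) : ∀ a : S, Fin (k a) := fun a => x a

theorem restr_eq {S : Finset (Fin 6)} {x y : Pt k} :
    restr S x = restr S y ↔ ∀ a ∈ S, x a = y a := by
  unfold restr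
  constructor
  · intro h a ha
    exact congrFun h ⟨a, ha⟩
  · intro h
    funext a
    exact h a.1 a.2

/-- the probability of the `S`-atom of `t` -/
noncomputable def w (P : Pt k → ℝ) (S : Finset (Fin 6)) (t : Pt k) : ℝ :=
  pr P (restr S) (restr S t)

/-- the entropy of the coordinates in `S` -/
noncomputable def HS (P : Pt k → ℝ) (S : Finset (Fin 6)) : ℝ := Hs P (restr S)

theorem pr_eq_w {α : Type*} {P : Pt k → ℝ} {S : Finset (Fin 6)} (f : Pt k → α) (t : Pt k)
    (h : ∀ x : Pt k, f x = f t ↔ ∀ a ∈ S, x a = t a) : pr P f (f t) = w P S t :=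
  pr_congr _ _ _ _ fun x => (h x).trans restr_eq.symm

theorem Hs_eq_HS {α : Type*} [Fintype α] {P : Pt k → ℝ} {S : Finset (Fin 6)} (f : Pt k → α)
    (h : ∀ x t : Pt k, f x = f t ↔ ∀ a ∈ S, x a = t a) : Hs P f = HS P S :=
  Hs_congr _ _ _ fun x y => (h x y).trans restr_eq.symm

section
variable {P : Pt k → ℝ} (hP : ∀ x, 0 ≤ P x)
include hP

theorem w_nonneg (S : Finset (Fin 6)) (t : Pt k) : 0 ≤ w P S t := pr_nonneg hP _ _

theorem w_anti {S T : Finset (Fin 6)} (h : S ⊆ T) (t : Pt k) : w P T t ≤ w P S t :=
  pr_le_pr hP _ _ _ _ fun _ hx => restr_eq.2 fun a ha => restr_eq.1 hx a (h ha)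

omit hP in
theorem w_congr {S : Finset (Fin 6)} {t t' : Pt k} (h : ∀ a ∈ S, t a = t' a) :
    w P S t = w P S t' := by
  unfold w
  rw [restr_eq.2 h]

theorem cond_family {ι : Type*} [Fintype ι] {S T : Finset (Fin 6)} (hST : S ⊆ T)
    (t : ι → Pt k) (hinj : ∀ i j, (∀ a ∈ T, t i a = t j a) → i = j) :
    ∑ i, w P T (t i) * Real.log (w P S (t i) / w P T (t i)) ≤ HS P T - HS P S := by
  classical
  let c : ι → (∀ a : S, Fin (k a)) × (∀ a : T, Fin (k a)) :=
    fun i => (restr S (t i), restr T (t i))
  have hc : Function.Injective c := by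
    intro i j h
    refine hinj i j ?_
    exact restr_eq.1 (congrArg Prod.snd h)
  have h1 := row P hP (restr S) (restr T) (Finset.univ.image c)
  rw [Finset.sum_image (fun i _ j _ h => hc h)] at h1
  have h2 : Hs P (fun x => (restr S x, restr T x)) = HS P T := by
    refine Hs_eq_HS _ fun x t => ?_
    rw [Prod.mk.injEq, restr_eq, restr_eq]
    exact ⟨fun h => h.2, fun h => ⟨fun a ha => h a (hST ha), h⟩⟩
  have h3 : ∀ i, pr P (fun x => (restr S x, restr T x)) (c i) = w P T (t i) := by
    intro i
    refine pr_eq_w (fun x => (restr S x, restr T x)) (t i) fun x => ?_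
    rw [Prod.mk.injEq, restr_eq, restr_eq]
    exact ⟨fun h => h.2, fun h => ⟨fun a ha => h a (hST ha), h⟩⟩
  rw [h2] at h1
  refine le_trans (le_of_eq ?_) h1
  refine Finset.sum_congr rfl fun i _ => ?_
  rw [h3]
  rfl

/-- the atoms of a family which agree on `S` and are distinct on `T` -/
theorem sum_family {ι : Type*} [Fintype ι] {S T : Finset (Fin 6)}
    (t : ι → Pt k) (t0 : Pt k) (h0 : ∀ i, ∀ a ∈ S, t i a = t0 a) (hST : S ⊆ T)
    (hinj : ∀ i j, (∀ a ∈ T, t i a = t j a) → i = j) :
    ∑ i, w P T (t i) ≤ w P S t0 := by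
  classical
  unfold w pr
  rw [Finset.sum_comm]
  refine Finset.sum_le_sum fun x _ => ?_
  by_cases hx : restr S x = restr S t0
  · rw [if_pos hx]
    by_cases hex : ∃ i, restr T x = restr T (t i)
    · obtain ⟨i, hi⟩ := hex
      rw [Finset.sum_eq_single i]
      · rw [if_pos hi]
      · intro j _ hj
        rw [if_neg]
        intro h
        exact hj (hinj j i (restr_eq.1 (h.symm.trans hi)))
      · exact fun h => absurd (Finset.mem_univ _) h
    · push Not at hex
      exact (Finset.sum_eq_zero fun i _ => if_neg (hex i)).le.trans (hP x)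
  · rw [if_neg hx]
    refine le_of_eq (Finset.sum_eq_zero fun i _ => ?_)
    rw [if_neg]
    intro h
    refine hx (restr_eq.2 fun a ha => ?_)
    rw [restr_eq.1 h a (hST ha), h0 i a ha]

variable (hP1 : ∑ x, P x = 1)
include hP1

theorem w_le_one (S : Finset (Fin 6)) (t : Pt k) : w P S t ≤ 1 := pr_le_one hP hP1 _ _

omit hP in
theorem w_empty (t : Pt k) : w P ∅ t = 1 := by
  classical
  unfold w pr
  rw [← hP1]
  refine Finset.sum_congr rfl fun x _ => ?_
  rw [if_pos]
  exact restr_eq.2 fun a ha => absurd ha (Finset.notMem_empty a)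

omit hP in
theorem HS_empty : HS P ∅ = 0 := by
  unfold HS
  rw [Hs_free]
  have h : ∀ x : Pt k, pr P (restr ∅) (restr ∅ x) = 1 := fun x => w_empty hP1 x
  simp only [h, Real.log_one, mul_zero, Finset.sum_const_zero, neg_zero]

theorem kl_w (S T : Finset (Fin 6)) (t : Pt k) :
    (w P (S ∪ T) t - w P S t * w P T t) ^ 2 / 2 ≤ HS P S + HS P T - HS P (S ∪ T) := by
  have h1 := kl P hP hP1 (restr S) (restr T) (restr S t) (restr T t)
  have h2 : Hs P (fun x => (restr S x, restr T x)) = HS P (S ∪ T) := by
    refine Hs_eq_HS _ fun x t => ?_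
    rw [Prod.mk.injEq, restr_eq, restr_eq]
    constructor
    · rintro ⟨h, h'⟩ a ha
      rcases Finset.mem_union.1 ha with h0 | h0
      · exact h a h0
      · exact h' a h0
    · exact fun h => ⟨fun a ha => h a (Finset.mem_union_left _ ha),
        fun a ha => h a (Finset.mem_union_right _ ha)⟩
  have h3 : pr P (fun x => (restr S x, restr T x)) (restr S t, restr T t) = w P (S ∪ T) t := by
    refine pr_eq_w (fun x => (restr S x, restr T x)) t fun x => ?_
    rw [Prod.mk.injEq, restr_eq, restr_eq]
    constructor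
    · rintro ⟨h, h'⟩ a ha
      rcases Finset.mem_union.1 ha with h0 | h0
      · exact h a h0
      · exact h' a h0
    · exact fun h => ⟨fun a ha => h a (Finset.mem_union_left _ ha),
        fun a ha => h a (Finset.mem_union_right _ ha)⟩
  rw [h2, h3] at h1
  exact h1

end

theorem sum_values {P : Pt k → ℝ} {S : Finset (Fin 6)} {o : Fin 6} (ho : o ∉ S) (t : Pt k) :
    ∑ v, w P (insert o S) (Function.update t o v) = w P S t := by
  classical
  unfold w pr
  rw [Finset.sum_comm]
  refine Finset.sum_congr rfl fun x _ => ?_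
  have hne : ∀ a ∈ S, a ≠ o := fun a ha h => ho (h ▸ ha)
  by_cases hx : restr S x = restr S t
  · rw [if_pos hx, Finset.sum_eq_single (x o)]
    · rw [if_pos]
      refine restr_eq.2 fun a ha => ?_
      rcases Finset.mem_insert.1 ha with rfl | h
      · rw [Function.update_self]
      · rw [Function.update_of_ne (hne a h)]
        exact restr_eq.1 hx a h
    · intro v _ hv
      rw [if_neg]
      intro h
      have := restr_eq.1 h o (Finset.mem_insert_self _ _)
      rw [Function.update_self] at this
      exact hv this.symm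
    · exact fun h => absurd (Finset.mem_univ _) h
  · rw [if_neg hx]
    refine Finset.sum_eq_zero fun v _ => ?_
    rw [if_neg]
    intro h
    refine hx (restr_eq.2 fun a ha => ?_)
    have := restr_eq.1 h a (Finset.mem_insert_of_mem ha)
    rw [Function.update_of_ne (hne a ha)] at this
    exact this

/-- a heavy value of the coordinate `o`, in a set `A` of values of total weight `m > 0` -/
theorem exmax {P : Pt k → ℝ} (hP : ∀ x, 0 ≤ P x) {S : Finset (Fin 6)} {o : Fin 6} (ho : o ∉ S)
    (t : Pt k) (A : Finset (Fin (k o))) (m : ℝ)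
    (hm : m = ∑ v ∈ A, w P (insert o S) (Function.update t o v)) (hm0 : 0 < m) :
    ∃ v ∈ A, w P S t * Real.exp (-(HS P (insert o S) - HS P S) / m) ≤
      w P (insert o S) (Function.update t o v) := by
  classical
  have hne : ∀ a ∈ S, a ≠ o := fun a ha h => ho (h ▸ ha)
  have hA : A.Nonempty := by
    rcases A.eq_empty_or_nonempty with h | h
    · rw [h, Finset.sum_empty] at hm
      exact absurd hm hm0.ne'
    · exact h
  obtain ⟨v, hv, hmax⟩ := Finset.exists_max_image A
    (fun v => w P (insert o S) (Function.update t o v)) hA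
  refine ⟨v, hv, ?_⟩
  set M : ℝ := w P (insert o S) (Function.update t o v) with hM
  have hwS : ∀ u, w P S (Function.update t o u) = w P S t := fun u =>
    w_congr fun a ha => by rw [Function.update_of_ne (hne a ha)]
  have hMpos : 0 < M := by
    by_contra hcon
    have h0 : ∀ u ∈ A, w P (insert o S) (Function.update t o u) = 0 := fun u hu =>
      le_antisymm ((hmax u hu).trans (not_lt.1 hcon)) (w_nonneg hP _ _)
    rw [Finset.sum_eq_zero h0] at hm
    exact hm0.ne' hm
  have hle : ∀ u, w P (insert o S) (Function.update t o u) ≤ w P S t := fun u => by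
    rw [← hwS u]
    exact w_anti hP (Finset.subset_insert _ _) _
  have hSpos : 0 < w P S t := hMpos.trans_le (hle v)
  have h1 := cond_family hP (Finset.subset_insert o S) (fun u : A => Function.update t o u.1)
    (fun i j h => by
      have := h o (Finset.mem_insert_self _ _)
      rw [Function.update_self, Function.update_self] at this
      exact Subtype.ext this)
  simp only [hwS] at h1
  rw [Finset.sum_coe_sort A (fun u => w P (insert o S) (Function.update t o u) *
    Real.log (w P S t / w P (insert o S) (Function.update t o u)))] at h1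
  have h2 : m * Real.log (w P S t / M) ≤ ∑ u ∈ A, w P (insert o S) (Function.update t o u) *
      Real.log (w P S t / w P (insert o S) (Function.update t o u)) := by
    rw [hm, Finset.sum_mul]
    refine Finset.sum_le_sum fun u hu => ?_
    rcases (w_nonneg hP (insert o S) (Function.update t o u)).eq_or_lt with h | h
    · rw [← h]; simp
    · refine mul_le_mul_of_nonneg_left ?_ h.le
      refine Real.log_le_log (by positivity) ?_
      exact div_le_div_of_nonneg_left hSpos.le h (hmax u hu)
  have h3 : Real.log (w P S t / M) ≤ (HS P (insert o S) - HS P S) / m := by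
    rw [le_div_iff₀ hm0]
    linarith
  have h4 : w P S t / M ≤ Real.exp ((HS P (insert o S) - HS P S) / m) := by
    rw [← Real.exp_log (show 0 < w P S t / M by positivity)]
    exact Real.exp_le_exp.2 h3
  rw [neg_div, Real.exp_neg]
  rw [div_le_iff₀ hMpos] at h4
  rw [mul_inv_le_iff₀ (Real.exp_pos _)]
  linarith

end Pool.Agent.R993.EC
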